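import Pool.Agent.NoExt.Targets

/-!
# NX8: the final algebra
-/

set_option autoImplicit false

open Polynomial

namespace Pool.Agent.NoExt

namespace Alg_

variable {L : Type} [Field L]

/-- polynomials with coefficients in `F` -/
def PF (F : Subfield L) : Subring L[X] where
  carrier := {p | ∀ n, p.coeff n ∈ F}
  mul_mem' := by
    intro p q hp hq n
    rw [coeff_mul]
    exact F.sum_mem fun c _ => F.mul_mem (hp _) (hq _)
  one_mem' := by
    intro n
    rw [coeff_one]
    split_ifs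
    · exact F.one_mem
    · exact F.zero_mem
  add_mem' := by
    intro p q hp hq n
    rw [coeff_add]
    exact F.add_mem (hp _) (hq _)
  zero_mem' := by
    intro n
    rw [coeff_zero]
    exact F.zero_mem
  neg_mem' := by
    intro p hp n
    rw [coeff_neg]
    exact F.neg_mem (hp _)

theorem mem_PF {F : Subfield L} {p : L[X]} : p ∈ PF F ↔ ∀ n, p.coeff n ∈ F := Iff.rfl

theorem C_mem {F : Subfield L} {c : L} (hc : c ∈ F) : C c ∈ PF F := by
  intro n
  rw [coeff_C]
  split_ifs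
  · exact hc
  · exact F.zero_mem

theorem X_mem (F : Subfield L) : (X : L[X]) ∈ PF F := by
  intro n
  rw [coeff_X]
  split_ifs
  · exact F.one_mem
  · exact F.zero_mem

/-- elements of the field generated by `a` -/
theorem frac {F : Subfield L} {a : L} (ha : ∀ p : L[X], (∀ n, p.coeff n ∈ F) → p.eval a = 0 → p = 0)
    {x : L} (hx : x ∈ Subfield.closure ((F : Set L) ∪ {a})) :
    ∃ p ∈ PF F, ∃ q ∈ PF F, q ≠ 0 ∧ q.eval a * x = p.eval a := by
  have hne : ∀ q ∈ PF F, q ≠ 0 → q.eval a ≠ 0 := fun q hq h0 h => h0 (ha q hq h)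
  induction hx using Subfield.closure_induction with
  | mem x hx =>
    rcases hx with hx | hx
    · exact ⟨C x, C_mem hx, 1, (PF F).one_mem, one_ne_zero, by simp⟩
    · rw [Set.mem_singleton_iff] at hx
      exact ⟨X, X_mem F, 1, (PF F).one_mem, one_ne_zero, by simp [hx]⟩
  | one => exact ⟨1, (PF F).one_mem, 1, (PF F).one_mem, one_ne_zero, by simp⟩
  | add x y _ _ h1 h2 =>
    obtain ⟨p, hp, q, hq, q0, e⟩ := h1
    obtain ⟨p', hp', q', hq', q0', e'⟩ := h2
    refine ⟨p * q' + p' * q, (PF F).add_mem ((PF F).mul_mem hp hq') ((PF F).mul_mem hp' hq), q * q',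
      (PF F).mul_mem hq hq', mul_ne_zero q0 q0', ?_⟩
    simp only [eval_mul, eval_add]
    rw [← e, ← e']
    ring
  | neg x _ h1 =>
    obtain ⟨p, hp, q, hq, q0, e⟩ := h1
    refine ⟨-p, (PF F).neg_mem hp, q, hq, q0, ?_⟩
    simp only [eval_neg]
    rw [← e]
    ring
  | inv x _ h1 =>
    obtain ⟨p, hp, q, hq, q0, e⟩ := h1
    by_cases hx0 : x = 0
    · exact ⟨0, (PF F).zero_mem, 1, (PF F).one_mem, one_ne_zero, by simp [hx0]⟩
    · have hp0 : p ≠ 0 := by
        rintro rfl
        rw [eval_zero] at e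
        exact (mul_ne_zero (hne q hq q0) hx0) e
      refine ⟨q, hq, p, hp, hp0, ?_⟩
      rw [← e]
      field_simp
  | mul x y _ _ h1 h2 =>
    obtain ⟨p, hp, q, hq, q0, e⟩ := h1
    obtain ⟨p', hp', q', hq', q0', e'⟩ := h2
    refine ⟨p * p', (PF F).mul_mem hp hp', q * q', (PF F).mul_mem hq hq', mul_ne_zero q0 q0', ?_⟩
    simp only [eval_mul]
    rw [← e, ← e']
    ring

end Alg_

open Alg_ in
/-- NX8 -/
theorem pAlg : tAlg := by
  intro L _ F a ha N hN hNc
  classical
  have hne : ∀ q ∈ PF F, q ≠ 0 → q.eval a ≠ 0 := fun q hq h0 h => h0 (ha q hq h)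
  have hch : ∀ x : L, ∃ pq : L[X] × L[X], pq.1 ∈ PF F ∧ pq.2 ∈ PF F ∧ pq.2 ≠ 0 ∧
      (x ∈ N → pq.2.eval a * x = pq.1.eval a) := by
    intro x
    by_cases hx : x ∈ N
    · obtain ⟨p, hp, q, hq, q0, e⟩ := frac ha (hNc x hx)
      exact ⟨(p, q), hp, hq, q0, fun _ => e⟩
    · exact ⟨(1, 1), (PF F).one_mem, (PF F).one_mem, one_ne_zero, fun h => absurd h hx⟩
  choose pq hp hq hq0 he using hch
  set T : Finset L := hN.toFinset with hT
  have hTN : ∀ x, x ∈ T ↔ x ∈ N := fun x => by rw [hT, Set.Finite.mem_toFinset]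
  set D : L[X] := ∏ x ∈ T, (pq x).2 with hD
  have hDm : D ∈ PF F := (PF F).prod_mem fun x _ => hq x
  have hD0 : D ≠ 0 := Finset.prod_ne_zero_iff.2 fun x _ => hq0 x
  set ν : L → L[X] := fun x => (pq x).1 * ∏ y ∈ T.erase x, (pq y).2 with hν
  have hνm : ∀ x, ν x ∈ PF F := fun x =>
    (PF F).mul_mem (hp x) ((PF F).prod_mem fun y _ => hq y)
  have hνe : ∀ x ∈ N, D.eval a * x = (ν x).eval a := by
    intro x hx
    have h1 : D = (pq x).2 * ∏ y ∈ T.erase x, (pq y).2 := by
      rw [hD, Finset.mul_prod_erase T (fun y => (pq y).2) ((hTN x).2 hx)]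
    rw [h1, hν]
    simp only [eval_mul]
    rw [← he x hx]
    ring
  set M : ℕ := ∑ x ∈ T, (ν x).natDegree with hM
  have hνd : ∀ x ∈ N, (ν x).natDegree ≤ M := fun x hx =>
    Finset.single_le_sum (f := fun x => (ν x).natDegree) (fun _ _ => Nat.zero_le _) ((hTN x).2 hx)
  have hspan : ∀ n ∈ Submodule.span F N, ∃ μ ∈ PF F, μ.natDegree ≤ M ∧
      D.eval a * n = μ.eval a := by
    intro n hn
    induction hn using Submodule.span_induction with
    | mem x hx => exact ⟨ν x, hνm x, hνd x hx, hνe x hx⟩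
    | zero => exact ⟨0, (PF F).zero_mem, by simp, by simp⟩
    | add x y _ _ h1 h2 =>
      obtain ⟨μ, m1, m2, m3⟩ := h1
      obtain ⟨μ', m1', m2', m3'⟩ := h2
      refine ⟨μ + μ', (PF F).add_mem m1 m1', (natDegree_add_le _ _).trans (max_le m2 m2'), ?_⟩
      rw [eval_add, ← m3, ← m3']
      ring
    | smul c x _ h1 =>
      obtain ⟨μ, m1, m2, m3⟩ := h1
      refine ⟨C (c : L) * μ, (PF F).mul_mem (C_mem c.2) m1, (natDegree_C_mul_le _ _).trans m2, ?_⟩
      rw [eval_mul, eval_C, ← m3, Subfield.smul_def, smul_eq_mul]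
      ring
  refine ⟨D, M + 2, hDm, hD0, by omega, ?_⟩
  intro n1 n2 q c h1 h2 hqF hcF heq
  have ha0 : a ≠ 0 := by
    have := hne X (X_mem F) X_ne_zero
    rwa [eval_X] at this
  have hDa : D.eval a ≠ 0 := hne D hDm hD0
  obtain ⟨μ1, a1, a2, a3⟩ := hspan n1 h1
  obtain ⟨μ2, b1, b2, b3⟩ := hspan n2 h2
  -- the polynomial identity
  set Sc : L[X] := ∑ i ∈ Finset.Ico 1 (M + 2), C (c i) * X ^ (M + 1 - i) * D with hSc
  have hSm : Sc ∈ PF F := (PF F).sum_mem fun i _ =>
    (PF F).mul_mem ((PF F).mul_mem (C_mem (hcF i)) ((PF F).pow_mem (X_mem F) _)) hDm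
  set q' : L[X] := μ1 + q with hq'
  have hq'm : q' ∈ PF F := (PF F).add_mem a1 hqF
  have hev : (X ^ (M + 1) * D - (μ2 + Sc) - X ^ (M + 2) * D * q').eval a = 0 := by
    have e1 : Sc.eval a = (∑ i ∈ Finset.Ico 1 (M + 2), c i / a ^ (1 + i)) *
        (a ^ (M + 2) * D.eval a) := by
      rw [hSc, eval_finset_sum, Finset.sum_mul]
      apply Finset.sum_congr rfl
      intro i hi
      rw [Finset.mem_Ico] at hi
      simp only [eval_mul, eval_C, eval_pow, eval_X]
      have e2 : a ^ (M + 2) = a ^ (M + 1 - i) * a ^ (1 + i) := by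
        rw [← pow_add]
        congr 1
        omega
      rw [e2]
      field_simp
    have e3 : a⁻¹ * (a ^ (M + 2) * D.eval a) = a ^ (M + 1) * D.eval a := by
      rw [pow_succ a (M + 1)]
      field_simp
    have e4 : n2 / a ^ (M + 2) * (a ^ (M + 2) * D.eval a) = μ2.eval a := by
      rw [← b3]
      field_simp
    have e5 := congrArg (fun t => t * (a ^ (M + 2) * D.eval a)) heq
    beta_reduce at e5
    rw [e3] at e5
    simp only [eval_sub, eval_add, eval_mul, eval_pow, eval_X, hq']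
    rw [e1, e5, ← e4, ← a3]
    ring
  have hpoly : X ^ (M + 1) * D - (μ2 + Sc) = X ^ (M + 2) * D * q' := by
    apply sub_eq_zero.1
    apply ha _ _ hev
    exact (PF F).sub_mem ((PF F).sub_mem ((PF F).mul_mem ((PF F).pow_mem (X_mem F) _) hDm)
      ((PF F).add_mem b1 hSm)) ((PF F).mul_mem ((PF F).mul_mem ((PF F).pow_mem (X_mem F) _) hDm)
      hq'm)
  -- degrees
  have hXD : (X ^ (M + 1) * D).degree = ((M + 1 + D.natDegree : ℕ) : WithBot ℕ) := by
    rw [degree_mul, degree_X_pow, degree_eq_natDegree hD0]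
    norm_cast
  have hlow : (μ2 + Sc).degree < ((M + 1 + D.natDegree : ℕ) : WithBot ℕ) := by
    have d1 : μ2.degree < ((M + 1 + D.natDegree : ℕ) : WithBot ℕ) := by
      refine degree_le_natDegree.trans_lt ?_
      exact_mod_cast (by omega : μ2.natDegree < M + 1 + D.natDegree)
    have d2 : Sc.degree < ((M + 1 + D.natDegree : ℕ) : WithBot ℕ) := by
      refine (degree_sum_le _ _).trans_lt ?_
      rw [Finset.sup_lt_iff (WithBot.bot_lt_coe _)]
      intro i hi
      rw [Finset.mem_Ico] at hi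
      refine degree_le_natDegree.trans_lt ?_
      have d3 : (C (c i) * X ^ (M + 1 - i) * D).natDegree ≤ (M + 1 - i) + D.natDegree := by
        refine natDegree_mul_le.trans ?_
        gcongr
        exact natDegree_C_mul_X_pow_le _ _
      exact_mod_cast (by omega : (C (c i) * X ^ (M + 1 - i) * D).natDegree < M + 1 + D.natDegree)
    exact (degree_add_le _ _).trans_lt (max_lt d1 d2)
  have hL : (X ^ (M + 1) * D - (μ2 + Sc)).degree = ((M + 1 + D.natDegree : ℕ) : WithBot ℕ) := by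
    rw [degree_sub_eq_left_of_degree_lt (by rw [hXD]; exact hlow), hXD]
  have hq0' : q' ≠ 0 := by
    intro h0
    rw [hpoly, h0, mul_zero, degree_zero] at hL
    exact absurd hL.symm (WithBot.coe_ne_bot)
  have hR : (X ^ (M + 2) * D * q').degree =
      ((M + 2 + D.natDegree + q'.natDegree : ℕ) : WithBot ℕ) := by
    rw [degree_mul, degree_mul, degree_X_pow, degree_eq_natDegree hD0, degree_eq_natDegree hq0']
    norm_cast
  rw [hpoly, hR] at hL
  have : M + 2 + D.natDegree + q'.natDegree = M + 1 + D.natDegree := by exact_mod_cast hL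
  omega

end Pool.Agent.NoExt
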