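import Pool.Agent.NoExt.Targets

set_option autoImplicit false

/-! Bookkeeping on the first uncountable ordinal (MP_a60711_al). -/

namespace Pool.Agent.NoExt.BookNS

open Cardinal Polynomial

/-- the index set: the first uncountable ordinal -/
abbrev J : Type := (Cardinal.ord (Cardinal.aleph.{0} 1)).ToType

theorem J_card : Cardinal.mk J = Cardinal.aleph 1 := Cardinal.mk_ord_toType _

theorem J_Iio (j : J) : (Set.Iio j).Countable := by
  rw [Cardinal.countable_iff_lt_aleph_one]
  exact Cardinal.mk_Iio_toType_ord_lt j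

theorem J_Iic (j : J) : (Set.Iic j).Countable := by
  rw [← Set.Iio_union_right]
  exact (J_Iio j).union (Set.countable_singleton j)

theorem J_unc : ¬ (Set.univ : Set J).Countable := by
  intro h
  rw [Cardinal.countable_iff_lt_aleph_one, Cardinal.mk_univ, J_card] at h
  exact lt_irrefl _ h

theorem J_bd (C : Set J) (hC : C.Countable) : ∃ j, ∀ i ∈ C, i < j := by
  by_contra hne
  push Not at hne
  apply J_unc
  have h1 : (Set.univ : Set J) ⊆ ⋃ i ∈ C, Set.Iic i := by
    intro j _
    obtain ⟨i, hi, hij⟩ := hne j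
    simp only [Set.mem_iUnion]
    exact ⟨i, hi, hij⟩
  exact (hC.biUnion (fun i _ => J_Iic i)).mono h1

theorem J_ne : Nonempty J := by
  by_contra h
  apply J_unc
  rw [not_nonempty_iff] at h
  exact Set.countable_univ

theorem data_card (L : Type) [Field L] (hL : Cardinal.mk L ≤ Cardinal.aleph 1) :
    Cardinal.mk (J × (Finset L × ℕ) × L[X] × ℕ × (Finset L × ℕ)) ≤ Cardinal.aleph 1 := by
  have h0 : (Cardinal.aleph0 : Cardinal.{0}) ≤ Cardinal.aleph 1 := Cardinal.aleph0_le_aleph 1
  have hm : ∀ a b : Cardinal.{0}, a ≤ Cardinal.aleph 1 → b ≤ Cardinal.aleph 1 →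
      a * b ≤ Cardinal.aleph 1 := by
    intro a b ha hb
    calc a * b ≤ Cardinal.aleph 1 * Cardinal.aleph 1 := mul_le_mul' ha hb
      _ = Cardinal.aleph 1 := Cardinal.mul_eq_self h0
  have hN : Cardinal.mk ℕ ≤ Cardinal.aleph 1 := by
    rw [Cardinal.mk_nat]; exact h0
  have hF : Cardinal.mk (Finset L) ≤ Cardinal.aleph 1 := by
    rcases finite_or_infinite L with hf | hi
    · have : Finite (Finset L) := inferInstance
      exact (Cardinal.lt_aleph0_of_finite (Finset L)).le.trans h0
    · rw [Cardinal.mk_finset_of_infinite]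
      exact hL
  have hP : Cardinal.mk L[X] ≤ Cardinal.aleph 1 :=
    Polynomial.cardinalMk_le_max.trans (max_le hL h0)
  have hFN : Cardinal.mk (Finset L × ℕ) ≤ Cardinal.aleph 1 := by
    rw [Cardinal.mk_prod, Cardinal.lift_id, Cardinal.lift_id]
    exact hm _ _ hF hN
  rw [Cardinal.mk_prod, Cardinal.lift_id, Cardinal.lift_id]
  apply hm _ _ J_card.le
  rw [Cardinal.mk_prod, Cardinal.lift_id, Cardinal.lift_id]
  apply hm _ _ hFN
  rw [Cardinal.mk_prod, Cardinal.lift_id, Cardinal.lift_id]
  apply hm _ _ hP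
  rw [Cardinal.mk_prod, Cardinal.lift_id, Cardinal.lift_id]
  exact hm _ _ hN hFN

theorem book_of (D : Type) (hD : Cardinal.mk D ≤ Cardinal.aleph 1) [Nonempty D] :
    ∃ d : J → D, ∀ x b, ∃ i, b < i ∧ d i = x := by
  have h0 : (Cardinal.aleph0 : Cardinal.{0}) ≤ Cardinal.aleph 1 := Cardinal.aleph0_le_aleph 1
  have hne : Nonempty (D × J) := ⟨(Classical.arbitrary D, J_ne.some)⟩
  have hle : Cardinal.mk (D × J) ≤ Cardinal.mk J := by
    rw [Cardinal.mk_prod, Cardinal.lift_id, Cardinal.lift_id, J_card]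
    calc Cardinal.mk D * Cardinal.aleph 1 ≤ Cardinal.aleph 1 * Cardinal.aleph 1 :=
          mul_le_mul' hD le_rfl
      _ = Cardinal.aleph 1 := Cardinal.mul_eq_self h0
  obtain ⟨f⟩ := hle
  have hs : Function.Surjective (Function.invFun f) := Function.invFun_surjective f.injective
  refine ⟨fun i => (Function.invFun f i).1, fun x b => ?_⟩
  by_contra hcon
  push Not at hcon
  apply J_unc
  have h1 : (Set.univ : Set J) ⊆ (fun i => (Function.invFun f i).2) '' (Set.Iic b) := by
    intro y _
    obtain ⟨i, hi⟩ := hs (x, y)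
    refine ⟨i, ?_, by simp [hi]⟩
    by_contra hb
    have hb' : b < i := not_le.mp hb
    exact hcon i hb' (by simp [hi])
  exact ((J_Iic b).image _).mono h1

end Pool.Agent.NoExt.BookNS

namespace Pool.Agent.NoExt

open Polynomial BookNS

theorem pBook : tBook := by
  refine ⟨J, inferInstance, inferInstance, J_ne, J_Iio, J_bd, ?_⟩
  intro L _ hL
  have hL' : Cardinal.mk L ≤ Cardinal.aleph 1 := by
    refine hL.trans (max_le J_card.le (Cardinal.aleph0_le_aleph 1))
  haveI : Nonempty (J × (Finset L × ℕ) × L[X] × ℕ × (Finset L × ℕ)) :=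
    ⟨(J_ne.some, (∅, 0), 0, 0, (∅, 0))⟩
  exact book_of _ (data_card L hL')

end Pool.Agent.NoExt
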