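import Pool.Agent.NoExt.Targets

set_option autoImplicit false

/-! Quasi inverses exist (`tUnit`), constant terms (`tCst`). -/

namespace Pool.Agent.NoExt

open Polynomial

namespace CstAux

variable {I L : Type} [LinearOrder I] [Field L] {t : Tower I L}

theorem E_mono (S : Sys t) {A B : Set I} (h : A ⊆ B) : S.E A ⊆ S.E B := by
  rintro y ⟨γ, hγ, g, hg, r, hr, rfl⟩
  exact ⟨γ, h hγ, g, hg, r, hr, rfl⟩

theorem QC_mono {E E' : Set L} (h : E ⊆ E') {x : L} (hx : QC E x) : QC E' x := by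
  induction hx with
  | base x hx => exact QC.base x (h hx)
  | zero => exact QC.zero
  | add x y _ _ hx hy => exact QC.add x y hx hy
  | neg x _ hx => exact QC.neg x hx
  | mul x y _ _ hx hy => exact QC.mul x y hx hy
  | inv x _ hx => exact QC.inv x hx

theorem V_mono (S : Sys t) {A B : Set I} (h : A ⊆ B) : S.V A ⊆ S.V B :=
  fun _ hx => QC_mono (E_mono S h) hx

theorem Mm_mem {F : Subfield L} {s : Finset L} {n : ℕ} (h : ∀ a ∈ s, a ∈ F) {r : L}
    (hr : r ∈ Mm s n) : r ∈ F := by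
  obtain ⟨l, _, hl, rfl⟩ := hr
  exact list_prod_mem fun a ha => h a (hl a ha)

theorem eval_mem {F : Subfield L} {p : L[X]} (hp : ∀ m, p.coeff m ∈ F) {z : L} (hz : z ∈ F) :
    p.eval z ∈ F := by
  rw [Polynomial.eval_eq_sum_range]
  exact sum_mem fun i _ => mul_mem (hp i) (pow_mem hz i)

/-- the general splitting lemma -/
theorem split {E E' : Set L} (N : AddSubgroup L) (h1 : ∀ w m, QC E w → m ∈ N → w * m ∈ N)
    (h2 : ∀ m ∈ N, ∀ m' ∈ N, m * m' ∈ N) (h3 : ∀ m ∈ N, 1 + m ≠ 0 ∧ (1 + m)⁻¹ - 1 ∈ N)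
    (h4 : ∀ w, QC E w → 1 + w ≠ 0) (h5 : ∀ x ∈ E', x ∈ E ∨ x ∈ N) {w : L} (hw : QC E' w) :
    ∃ w0, QC E w0 ∧ w - w0 ∈ N := by
  have key : ∃ w0 m, QC E w0 ∧ m ∈ N ∧ w = w0 + m := by
    induction hw with
    | base x hx =>
      rcases h5 x hx with h | h
      · exact ⟨x, 0, QC.base x h, N.zero_mem, (add_zero x).symm⟩
      · exact ⟨0, x, QC.zero, h, (zero_add x).symm⟩
    | zero => exact ⟨0, 0, QC.zero, N.zero_mem, (add_zero 0).symm⟩
    | add x y _ _ hx hy =>
      obtain ⟨a, m, ha, hm, rfl⟩ := hx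
      obtain ⟨b, m', hb, hm', rfl⟩ := hy
      exact ⟨a + b, m + m', QC.add a b ha hb, N.add_mem hm hm', by ring⟩
    | neg x _ hx =>
      obtain ⟨a, m, ha, hm, rfl⟩ := hx
      exact ⟨-a, -m, QC.neg a ha, N.neg_mem hm, by ring⟩
    | mul x y _ _ hx hy =>
      obtain ⟨a, m, ha, hm, rfl⟩ := hx
      obtain ⟨b, m', hb, hm', rfl⟩ := hy
      exact ⟨a * b, a * m' + b * m + m * m', QC.mul a b ha hb,
        N.add_mem (N.add_mem (h1 a m' ha hm') (h1 b m hb hm)) (h2 m hm m' hm'), by ring⟩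
    | inv x _ hx =>
      obtain ⟨a, m, ha, hm, rfl⟩ := hx
      have ha' := QC.inv a ha
      have h4a := h4 a ha
      have hm1 : (1 + a)⁻¹ * m ∈ N := by
        have e : (1 + a)⁻¹ * m = m + ((1 + a)⁻¹ - 1) * m := by ring
        rw [e]
        exact N.add_mem hm (h1 _ m ha' hm)
      obtain ⟨h31, h32⟩ := h3 _ hm1
      refine ⟨(1 + a)⁻¹ - 1, ((1 + (1 + a)⁻¹ * m)⁻¹ - 1) + ((1 + a)⁻¹ - 1) *
        ((1 + (1 + a)⁻¹ * m)⁻¹ - 1), ha', N.add_mem h32 (h1 _ _ ha' h32), ?_⟩
      have e : 1 + (a + m) = (1 + a) * (1 + (1 + a)⁻¹ * m) := by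
        rw [mul_add, mul_one, ← mul_assoc, mul_inv_cancel₀ h4a, one_mul]
        ring
      rw [e, mul_inv]
      ring
  obtain ⟨w0, m, h, hm, rfl⟩ := key
  exact ⟨w0, h, by rwa [add_sub_cancel_left]⟩

variable {v : ValuationSubring L}

theorem val_inv {m c : L} (h : v.valuation m < 1) (hc : v.valuation (m * c) < 1) :
    1 + m ≠ 0 ∧ v.valuation (((1 + m)⁻¹ - 1) * c) < 1 := by
  have h1 : v.valuation (1 + m) = 1 := Valuation.map_one_add_of_lt (v := v.valuation) h
  have h0 : 1 + m ≠ 0 := by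
    intro h0
    rw [h0, map_zero] at h1
    exact zero_ne_one h1
  refine ⟨h0, ?_⟩
  have e : ((1 + m)⁻¹ - 1) * c = -((1 + m)⁻¹ * (m * c)) := by
    field_simp
    ring
  rw [e, Valuation.map_neg, map_mul, map_inv₀, h1, inv_one, one_mul]
  exact hc

theorem sum_lt {ι : Type} (s : Finset ι) (f : ι → L) (h : ∀ i ∈ s, v.valuation (f i) < 1) :
    v.valuation (∑ i ∈ s, f i) < 1 :=
  Valuation.map_sum_lt v.valuation one_ne_zero h

/-- the value of a generator above `γ` -/
theorem gen_lt {γ : I} (hv : Good t γ v) {δ : I} (hδ : γ ≤ δ) {r : L} (hr : r ∈ t.lt δ) {p : L[X]}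
    (hp : ∀ m, p.coeff m ∈ t.lt δ) (h0 : p.coeff 0 = 0) :
    v.valuation (r * p.eval (t.z δ)) < 1 := by
  rw [Polynomial.eval_eq_sum_range, Finset.mul_sum]
  refine sum_lt _ _ fun i _ => ?_
  have hz : v.valuation (t.z δ) < 1 := by
    have := hv.2 δ hδ 1 (one_mem _)
    rwa [mul_one] at this
  rcases i with _ | i
  · rw [h0, zero_mul, mul_zero, map_zero]
    exact zero_lt_one
  · have e : r * (p.coeff (i + 1) * t.z δ ^ (i + 1)) =
        (t.z δ * (r * p.coeff (i + 1))) * t.z δ ^ i := by ring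
    rw [e, map_mul, map_pow]
    exact mul_lt_one_of_lt_of_le (hv.2 δ hδ _ (mul_mem hr (hp _))) (pow_le_one₀ zero_le hz.le)

theorem E_lt {γ : I} (hv : Good t γ v) (S : Sys t) {δ : I} (hδ : γ ≤ δ) {g : L × Finset L × ℕ}
    (hg : g ∈ S.G δ) {r : L} (hr : r ∈ Mm g.2.1 g.2.2) {c : L} (hc : c ∈ t.lt δ) :
    v.valuation (r * g.1 * c) < 1 := by
  obtain ⟨p, hp, h0, e⟩ := S.pol δ g hg
  have hr' : r ∈ t.lt δ := Mm_mem (S.lev δ g hg) hr
  have e' : r * g.1 * c = (c * r) * p.eval (t.z δ) := by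
    rw [e]
    ring
  rw [e']
  exact gen_lt hv hδ (mul_mem hc hr') hp h0

theorem QC_mem {F : Subfield L} {E : Set L} (h : ∀ x ∈ E, x ∈ F) {x : L} (hx : QC E x) :
    x ∈ F := by
  induction hx with
  | base x hx => exact h x hx
  | zero => exact zero_mem _
  | add x y _ _ hx hy => exact add_mem hx hy
  | neg x _ hx => exact neg_mem hx
  | mul x y _ _ hx hy => exact mul_mem hx hy
  | inv x _ hx => exact sub_mem (inv_mem (add_mem (one_mem _) hx)) (one_mem _)

theorem E_mem (S : Sys t) {A : Set I} {F : Subfield L} (h : ∀ δ ∈ A, t.le δ ≤ F) :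
    ∀ x ∈ S.E A, x ∈ F := by
  rintro _ ⟨δ, hδ, g, hg, r, hr, rfl⟩
  obtain ⟨p, hp, _, e⟩ := S.pol δ g hg
  rw [e]
  refine h δ hδ (mul_mem (t.lt_le δ (Mm_mem (S.lev δ g hg) hr)) (eval_mem ?_ (t.z_mem δ)))
  exact fun m => t.lt_le δ (hp m)

theorem V_Iio (S : Sys t) (γ : I) {w : L} (hw : w ∈ S.V (Set.Iio γ)) : w ∈ t.lt γ :=
  QC_mem (E_mem S fun δ hδ => t.le_lt δ γ hδ) hw

theorem le_mono {γ δ : I} (h : γ ≤ δ) : t.le γ ≤ t.le δ := by
  rcases h.eq_or_lt with rfl | h
  · exact le_rfl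
  · exact (t.le_lt γ δ h).trans (t.lt_le δ)

theorem V_Iic (S : Sys t) (γ : I) {w : L} (hw : w ∈ S.V (Set.Iic γ)) : w ∈ t.le γ :=
  QC_mem (E_mem S fun _ hδ => le_mono hδ) hw

/-- the elements `m` with `v (m c) < 1` for all `c` in the set `T` -/
def NN (v : ValuationSubring L) (T : Set L) : AddSubgroup L where
  carrier := {m | ∀ c ∈ T, v.valuation (m * c) < 1}
  zero_mem' c _ := by
    rw [zero_mul, map_zero]
    exact zero_lt_one
  add_mem' {a b} ha hb c hc := by
    rw [add_mul]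
    exact Valuation.map_add_lt v.valuation (ha c hc) (hb c hc)
  neg_mem' {a} ha c hc := by
    rw [neg_mul, Valuation.map_neg]
    exact ha c hc

theorem mem_NN {T : Set L} {m : L} : m ∈ NN v T ↔ ∀ c ∈ T, v.valuation (m * c) < 1 := Iff.rfl

end CstAux

open CstAux

theorem pUnit (h : tGood) : tUnit := by
  intro I L _ _ _ t S w hw
  rcases isEmpty_or_nonempty I with hI | hI
  · have key : ∀ x, QC (S.E Set.univ) x → x = 0 := by
      intro x hx
      induction hx with
      | base x hx =>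
        obtain ⟨γ, _⟩ := hx
        exact (hI.false γ).elim
      | zero => rfl
      | add x y _ _ hx hy => rw [hx, hy, add_zero]
      | neg x _ hx => rw [hx, neg_zero]
      | mul x y _ _ hx hy => rw [hx, zero_mul]
      | inv x _ hx => rw [hx, add_zero, inv_one, sub_self]
    rw [key w hw, add_zero]
    exact one_ne_zero
  · obtain ⟨γ, hγ⟩ : ∃ γ : I, ∀ δ, γ ≤ δ := by
      obtain ⟨γ, -, hγ⟩ := WellFounded.has_min (wellFounded_lt (α := I)) Set.univ
        Set.univ_nonempty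
      exact ⟨γ, fun δ => not_lt.1 (hγ δ trivial)⟩
    obtain ⟨v, hv⟩ := h I L t γ
    have key : ∀ x, QC (S.E Set.univ) x → v.valuation x < 1 := by
      intro x hx
      induction hx with
      | base x hx =>
        obtain ⟨δ, _, g, hg, r, hr, rfl⟩ := hx
        have := E_lt hv S (hγ δ) hg hr (one_mem _)
        rwa [mul_one] at this
      | zero =>
        rw [map_zero]
        exact zero_lt_one
      | add x y _ _ hx hy => exact Valuation.map_add_lt v.valuation hx hy
      | neg x _ hx => rwa [Valuation.map_neg]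
      | mul x y _ _ hx hy =>
        rw [map_mul]
        exact mul_lt_one_of_lt_of_le hx hy.le
      | inv x _ hx =>
        have := (val_inv (c := 1) hx (by rwa [mul_one])).2
        rwa [mul_one] at this
    exact (val_inv (c := 1) (key w hw) (by rw [mul_one]; exact key w hw)).1

theorem pCst (h : tUnit) : tCst := by
  intro I L _ _ _ t S γ v hv w hw
  have part2 : ∃ w0 ∈ S.V (Set.Iic γ), ∀ c ∈ t.le γ, v.valuation ((w - w0) * c) < 1 := by
    refine split (E := S.E (Set.Iic γ)) (E' := S.E Set.univ)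
      (NN v (t.le γ : Set L)) ?_ ?_ ?_ ?_ ?_ hw
    · intro w m hw hm c hc
      have e : w * m * c = m * (w * c) := by ring
      rw [e]
      exact hm _ (mul_mem (V_Iic S γ hw) hc)
    · intro m hm m' hm' c hc
      have h1 := hm 1 (one_mem (t.le γ))
      rw [mul_one] at h1
      rw [mul_assoc, map_mul]
      exact mul_lt_one_of_lt_of_le h1 (hm' c hc).le
    · intro m hm
      have h1 := hm 1 (one_mem (t.le γ))
      rw [mul_one] at h1
      exact ⟨(val_inv h1 (by rwa [mul_one])).1, fun c hc => (val_inv h1 (hm c hc)).2⟩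
    · intro w hw
      exact h I L t S w (V_mono S (Set.subset_univ _) hw)
    · rintro _ ⟨δ, _, g, hg, r, hr, rfl⟩
      rcases le_or_gt δ γ with hδ | hδ
      · exact Or.inl ⟨δ, hδ, g, hg, r, hr, rfl⟩
      · exact Or.inr fun c hc => E_lt hv S hδ.le hg hr (t.le_lt γ δ hδ hc)
  refine ⟨?_, part2, fun hwγ => ?_⟩
  · have hs : ∃ w0 ∈ S.V (Set.Iio γ), w - w0 ∈ NN v ({1} : Set L) := by
      refine split (E := S.E (Set.Iio γ)) (E' := S.E Set.univ)
        (NN v ({1} : Set L)) ?_ ?_ ?_ ?_ ?_ hw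
      · intro w m hw hm c hc
        obtain rfl : c = 1 := hc
        have h1 := hm 1 rfl
        rw [mul_assoc, map_mul]
        have hw1 : v.valuation w ≤ 1 := (v.valuation_le_one_iff w).2 (hv.1 w (V_Iio S γ hw))
        rw [mul_comm]
        exact mul_lt_one_of_lt_of_le h1 hw1
      · intro m hm m' hm' c hc
        obtain rfl : c = 1 := hc
        have h1 := hm 1 rfl
        rw [mul_one] at h1
        rw [mul_assoc, map_mul]
        exact mul_lt_one_of_lt_of_le h1 (hm' 1 rfl).le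
      · intro m hm
        have h1 := hm 1 rfl
        rw [mul_one] at h1
        refine ⟨(val_inv h1 (by rwa [mul_one])).1, fun c hc => ?_⟩
        exact (val_inv h1 (hm c hc)).2
      · intro w hw
        exact h I L t S w (V_mono S (Set.subset_univ _) hw)
      · rintro _ ⟨δ, _, g, hg, r, hr, rfl⟩
        rcases lt_or_ge δ γ with hδ | hδ
        · exact Or.inl ⟨δ, hδ, g, hg, r, hr, rfl⟩
        · refine Or.inr fun c hc => ?_
          obtain rfl : c = 1 := hc
          exact E_lt hv S hδ hg hr (one_mem _)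
    obtain ⟨w0, h0, h1⟩ := hs
    have h2 := h1 1 rfl
    rw [mul_one] at h2
    exact ⟨w0, h0, h2⟩
  · obtain ⟨w0, h0, h1⟩ := part2
    by_cases e : w = w0
    · rw [e]
      exact h0
    · exfalso
      have h2 := h1 (w - w0)⁻¹ (inv_mem (sub_mem hwγ (V_Iic S γ h0)))
      rw [mul_inv_cancel₀ (sub_ne_zero.2 e), map_one] at h2
      exact lt_irrefl _ h2

end Pool.Agent.NoExt
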