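import Pool.Agent.NoExt.Targets

set_option autoImplicit false

/-! NX5: expansions in powers of `z γ` -/

namespace Pool.Agent.NoExt

open Polynomial

namespace ExpP

variable {I L : Type} [LinearOrder I] [Field L] {t : Tower I L}

lemma qc_mono {E F : Set L} (h : E ⊆ F) {x : L} (hx : QC E x) : QC F x := by
  induction hx with
  | base x hx => exact QC.base x (h hx)
  | zero => exact QC.zero
  | add x y _ _ hx hy => exact QC.add x y hx hy
  | neg x _ hx => exact QC.neg x hx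
  | mul x y _ _ hx hy => exact QC.mul x y hx hy
  | inv x _ hx => exact QC.inv x hx

lemma qc_sub {E : Set L} (F : Subfield L) (h : ∀ x ∈ E, x ∈ F) {x : L} (hx : QC E x) : x ∈ F := by
  induction hx with
  | base x hx => exact h x hx
  | zero => exact F.zero_mem
  | add x y _ _ hx hy => exact F.add_mem hx hy
  | neg x _ hx => exact F.neg_mem hx
  | mul x y _ _ hx hy => exact F.mul_mem hx hy
  | inv x _ hx => exact F.sub_mem (F.inv_mem (F.add_mem F.one_mem hx)) F.one_mem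

lemma eval_mem (F : Subfield L) (p : L[X]) (hp : ∀ m, p.coeff m ∈ F) (z : L) (hz : z ∈ F) :
    p.eval z ∈ F := by
  rw [Polynomial.eval_eq_sum_range]
  exact F.sum_mem fun i _ => F.mul_mem (hp i) (F.pow_mem hz i)

lemma Mm_mem (F : Subfield L) (s : Finset L) (n : ℕ) (hs : ∀ a ∈ s, a ∈ F) (r : L)
    (hr : r ∈ Mm s n) : r ∈ F := by
  obtain ⟨l, _, hl, rfl⟩ := hr
  exact F.list_prod_mem fun a ha => hs a (hl a ha)

lemma V_lt (S : Sys t) (γ : I) (w : L) (hw : w ∈ S.V (Set.Iio γ)) : w ∈ t.lt γ := by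
  refine qc_sub (t.lt γ) ?_ hw
  rintro x ⟨δ, hδ, g, hg, r, hr, rfl⟩
  have hle : t.lt δ ≤ t.lt γ := (t.lt_le δ).trans (t.le_lt δ γ hδ)
  obtain ⟨p, hp, _, hpe⟩ := S.pol δ g hg
  refine (t.lt γ).mul_mem ?_ ?_
  · exact hle (Mm_mem (t.lt δ) _ _ (S.lev δ g hg) r hr)
  · rw [hpe]
    exact t.le_lt δ γ hδ (eval_mem (t.le δ) p (fun m => t.lt_le δ (hp m)) _ (t.z_mem δ))

lemma E_mono (S : Sys t) {A B : Set I} (h : A ⊆ B) : S.E A ⊆ S.E B := by
  rintro x ⟨δ, hδ, g, hg, r, hr, rfl⟩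
  exact ⟨δ, h hδ, g, hg, r, hr, rfl⟩

/-- the ring `Q` -/
def Q (S : Sys t) (γ : I) (Λ : ℕ → AddSubgroup L) (q : L[X]) : Prop :=
  q.coeff 0 ∈ S.V (Set.Iio γ) ∧ ∀ k, 1 ≤ k → q.coeff k ∈ Λ k

/-- the ideal `Q⁺` -/
def Qp (Λ : ℕ → AddSubgroup L) (q : L[X]) : Prop :=
  q.coeff 0 = 0 ∧ ∀ k, 1 ≤ k → q.coeff k ∈ Λ k

lemma Qp_Q (S : Sys t) (γ : I) (Λ : ℕ → AddSubgroup L) (q : L[X]) (h : Qp Λ q) : Q S γ Λ q :=
  ⟨by rw [h.1]; exact QC.zero, h.2⟩

lemma Q_add {S : Sys t} {γ : I} {Λ : ℕ → AddSubgroup L} {p q : L[X]} (hp : Q S γ Λ p)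
    (hq : Q S γ Λ q) : Q S γ Λ (p + q) := by
  refine ⟨?_, fun k hk => ?_⟩
  · rw [coeff_add]; exact QC.add _ _ hp.1 hq.1
  · rw [coeff_add]; exact (Λ k).add_mem (hp.2 k hk) (hq.2 k hk)

lemma Q_neg {S : Sys t} {γ : I} {Λ : ℕ → AddSubgroup L} {p : L[X]} (hp : Q S γ Λ p) :
    Q S γ Λ (-p) := by
  refine ⟨?_, fun k hk => ?_⟩
  · rw [coeff_neg]; exact QC.neg _ hp.1
  · rw [coeff_neg]; exact (Λ k).neg_mem (hp.2 k hk)

lemma Q_C {S : Sys t} {γ : I} {Λ : ℕ → AddSubgroup L} {w : L} (hw : w ∈ S.V (Set.Iio γ)) :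
    Q S γ Λ (C w) := by
  refine ⟨?_, fun k hk => ?_⟩
  · rw [coeff_C_zero]; exact hw
  · rw [coeff_C_of_ne_zero (by omega)]; exact (Λ k).zero_mem

lemma Q_mul_Qp {S : Sys t} {γ : I} {Λ : ℕ → AddSubgroup L}
    (h1 : ∀ k, 1 ≤ k → ∀ w ∈ S.V (Set.Iio γ), ∀ x ∈ Λ k, w * x ∈ Λ k)
    (h2 : ∀ k l, 1 ≤ k → 1 ≤ l → ∀ x ∈ Λ k, ∀ y ∈ Λ l, x * y ∈ Λ (k + l))
    {p q : L[X]} (hp : Q S γ Λ p) (hq : Qp Λ q) : Qp Λ (p * q) := by
  refine ⟨?_, fun k hk => ?_⟩
  · rw [mul_coeff_zero, hq.1, mul_zero]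
  · rw [coeff_mul]
    refine (Λ k).sum_mem fun x hx => ?_
    have hx := Finset.HasAntidiagonal.mem_antidiagonal.1 hx
    rcases Nat.eq_zero_or_pos x.2 with h | h
    · rw [h, hq.1, mul_zero]; exact (Λ k).zero_mem
    · rcases Nat.eq_zero_or_pos x.1 with h' | h'
      · have : x.2 = k := by omega
        rw [h', this]
        exact h1 k hk _ hp.1 _ (hq.2 k hk)
      · rw [← hx]
        exact h2 _ _ h' h _ (hp.2 _ h') _ (hq.2 _ h)

lemma Q_mul {S : Sys t} {γ : I} {Λ : ℕ → AddSubgroup L}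
    (h1 : ∀ k, 1 ≤ k → ∀ w ∈ S.V (Set.Iio γ), ∀ x ∈ Λ k, w * x ∈ Λ k)
    (h2 : ∀ k l, 1 ≤ k → 1 ≤ l → ∀ x ∈ Λ k, ∀ y ∈ Λ l, x * y ∈ Λ (k + l))
    {p q : L[X]} (hp : Q S γ Λ p) (hq : Q S γ Λ q) : Q S γ Λ (p * q) := by
  refine ⟨?_, fun k hk => ?_⟩
  · rw [mul_coeff_zero]; exact QC.mul _ _ hp.1 hq.1
  · rw [coeff_mul]
    refine (Λ k).sum_mem fun x hx => ?_
    have hx := Finset.HasAntidiagonal.mem_antidiagonal.1 hx
    rcases Nat.eq_zero_or_pos x.2 with h | h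
    · have : x.1 = k := by omega
      rw [h, this, mul_comm]
      exact h1 k hk _ hq.1 _ (hp.2 k hk)
    · rcases Nat.eq_zero_or_pos x.1 with h' | h'
      · have : x.2 = k := by omega
        rw [h', this]
        exact h1 k hk _ hp.1 _ (hq.2 k hk)
      · rw [← hx]
        exact h2 _ _ h' h _ (hp.2 _ h') _ (hq.2 _ h)

lemma Qp_add {Λ : ℕ → AddSubgroup L} {p q : L[X]} (hp : Qp Λ p) (hq : Qp Λ q) :
    Qp Λ (p + q) := by
  refine ⟨?_, fun k hk => ?_⟩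
  · rw [coeff_add, hp.1, hq.1, add_zero]
  · rw [coeff_add]; exact (Λ k).add_mem (hp.2 k hk) (hq.2 k hk)

lemma Qp_zero {Λ : ℕ → AddSubgroup L} : Qp Λ (0 : L[X]) :=
  ⟨by simp, fun k _ => by rw [coeff_zero]; exact (Λ k).zero_mem⟩

lemma Qp_neg {Λ : ℕ → AddSubgroup L} {p : L[X]} (hp : Qp Λ p) : Qp Λ (-p) := by
  refine ⟨?_, fun k hk => ?_⟩
  · rw [coeff_neg, hp.1, neg_zero]
  · rw [coeff_neg]; exact (Λ k).neg_mem (hp.2 k hk)

/-- `∑_{i < M} u^i = 1 + (element of Q⁺)` for `u ∈ Q⁺`, `M ≥ 1` -/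
lemma geom {S : Sys t} {γ : I} {Λ : ℕ → AddSubgroup L}
    (h1 : ∀ k, 1 ≤ k → ∀ w ∈ S.V (Set.Iio γ), ∀ x ∈ Λ k, w * x ∈ Λ k)
    (h2 : ∀ k l, 1 ≤ k → 1 ≤ l → ∀ x ∈ Λ k, ∀ y ∈ Λ l, x * y ∈ Λ (k + l))
    {u : L[X]} (hu : Qp Λ u) (M : ℕ) :
    ∃ g : L[X], Qp Λ g ∧ ∑ i ∈ Finset.range (M + 1), u ^ i = 1 + g := by
  induction M with
  | zero => exact ⟨0, Qp_zero, by simp⟩
  | succ M ih =>
    obtain ⟨g, hg, he⟩ := ih
    refine ⟨u + g * u, Qp_add hu (Q_mul_Qp h1 h2 (Qp_Q S γ Λ g hg) hu), ?_⟩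
    rw [Finset.sum_range_succ']
    have : ∑ k ∈ Finset.range (M + 1), u ^ (k + 1) = (∑ k ∈ Finset.range (M + 1), u ^ k) * u := by
      rw [Finset.sum_mul]
      exact Finset.sum_congr rfl fun k _ => pow_succ u k
    rw [this, he, pow_zero]
    ring

end ExpP

open ExpP in
/-- NX5 -/
theorem pExp (hu : tUnit) (hv : tVle) : tExp := by
  intro I L _ _ _ t S γ v Λ hG hΛ h1 h2 hgen w hw M hM
  have hVl : ∀ x ∈ S.V (Set.Iio γ), x ∈ t.lt γ := V_lt S γ
  have hle1 : ∀ p : L[X], (∀ m, p.coeff m ∈ t.lt γ) → v.valuation (p.eval (t.z γ)) ≤ 1 :=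
    hv I L t γ v hG
  have hz1 : v.valuation (t.z γ) < 1 := by
    have := hG.2 γ le_rfl 1 (t.lt γ).one_mem
    rwa [mul_one] at this
  have hzM : v.valuation (t.z γ) ^ M ≤ 1 := pow_le_one₀ zero_le hz1.le
  have hzM' : v.valuation (t.z γ) ^ M < 1 := pow_lt_one₀ zero_le hz1 (by omega)
  have hQlt : ∀ q : L[X], Q S γ Λ q → ∀ m, q.coeff m ∈ t.lt γ := by
    intro q hq m
    rcases Nat.eq_zero_or_pos m with h | h
    · rw [h]; exact hVl _ hq.1
    · exact hΛ m _ (hq.2 m h)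
  have hQ1 : ∀ q : L[X], Q S γ Λ q → v.valuation (q.eval (t.z γ)) ≤ 1 := fun q hq =>
    hle1 q (hQlt q hq)
  -- elements of `Q⁺` are small
  have hQp : ∀ q : L[X], Qp Λ q → v.valuation (q.eval (t.z γ)) ≤ v.valuation (t.z γ) := by
    intro q hq
    have hX : q = q.divX * X := by
      have := q.divX_mul_X_add
      rw [hq.1, C_0, add_zero] at this
      exact this.symm
    rw [hX, eval_mul, eval_X, map_mul]
    have : v.valuation (q.divX.eval (t.z γ)) ≤ 1 := by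
      apply hle1
      intro m
      rw [coeff_divX]
      exact hΛ _ _ (hq.2 _ (by omega))
    exact mul_le_of_le_one_left' this
  have hunit : ∀ c ∈ t.lt γ, c ≠ 0 → v.valuation c = 1 := by
    intro c hc hc0
    refine le_antisymm ((v.valuation_le_one_iff c).2 (hG.1 c hc)) ?_
    have h3 : v.valuation c⁻¹ ≤ 1 := (v.valuation_le_one_iff _).2 (hG.1 _ ((t.lt γ).inv_mem hc))
    rw [map_inv₀] at h3
    have h4 : v.valuation c ≠ 0 := (Valuation.ne_zero_iff _).2 hc0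
    exact (inv_le_one₀ (zero_lt_iff.2 h4)).1 h3
  -- main induction
  suffices H : ∀ w, QC (S.E (Set.Iic γ)) w → ∃ q : L[X], Q S γ Λ q ∧
      v.valuation (w - q.eval (t.z γ)) ≤ v.valuation (t.z γ) ^ M by
    obtain ⟨q, hq, hq'⟩ := H w hw
    exact ⟨q, hq.1, hq.2, hq'⟩
  intro w hw
  induction hw with
  | base x hx =>
    obtain ⟨δ, hδ, g, hg, r, hr, rfl⟩ := hx
    rcases eq_or_lt_of_le (Set.mem_Iic.1 hδ) with h | h
    · subst h
      obtain ⟨p, hp0, hp, hpe⟩ := hgen g hg r hr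
      refine ⟨p, Qp_Q S δ Λ p ⟨hp0, hp⟩, ?_⟩
      rw [hpe, sub_self, map_zero]
      exact zero_le
    · refine ⟨C (r * g.1), Q_C (QC.base _ ⟨δ, h, g, hg, r, hr, rfl⟩), ?_⟩
      rw [eval_C, sub_self, map_zero]
      exact zero_le
  | zero =>
    refine ⟨0, Qp_Q S γ Λ 0 Qp_zero, ?_⟩
    rw [eval_zero, sub_self, map_zero]
    exact zero_le
  | add x y _ _ hx hy =>
    obtain ⟨p, hp, hp'⟩ := hx
    obtain ⟨q, hq, hq'⟩ := hy
    refine ⟨p + q, Q_add hp hq, ?_⟩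
    rw [eval_add, add_sub_add_comm]
    exact v.valuation.map_add_le hp' hq'
  | neg x _ hx =>
    obtain ⟨p, hp, hp'⟩ := hx
    refine ⟨-p, Q_neg hp, ?_⟩
    rw [eval_neg, ← neg_sub', Valuation.map_neg]
    exact hp'
  | mul x y _ _ hx hy =>
    obtain ⟨p, hp, hp'⟩ := hx
    obtain ⟨q, hq, hq'⟩ := hy
    refine ⟨p * q, Q_mul h1 h2 hp hq, ?_⟩
    have e : x * y - (p * q).eval (t.z γ) =
        (x - p.eval (t.z γ)) * (y - q.eval (t.z γ)) + ((x - p.eval (t.z γ)) * q.eval (t.z γ) +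
          p.eval (t.z γ) * (y - q.eval (t.z γ))) := by
      rw [eval_mul]; ring
    rw [e]
    refine v.valuation.map_add_le ?_ (v.valuation.map_add_le ?_ ?_)
    · rw [map_mul]
      exact (mul_le_mul' hp' (hq'.trans hzM)).trans_eq (mul_one _)
    · rw [map_mul]
      exact (mul_le_mul' hp' (hQ1 q hq)).trans_eq (mul_one _)
    · rw [map_mul, mul_comm]
      exact (mul_le_mul' hq' (hQ1 p hp)).trans_eq (mul_one _)
  | inv x _ hx =>
    obtain ⟨q, hq, hq'⟩ := hx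
    set z := t.z γ with hzdef
    set q0 : L := q.coeff 0 with hq0
    have hq0V : q0 ∈ S.V (Set.Iio γ) := hq.1
    have hq0ne : 1 + q0 ≠ 0 := hu I L t S q0 (qc_mono (E_mono S (Set.subset_univ _)) hq0V)
    set g0 : L := (1 + q0)⁻¹ - 1 with hg0
    have hg0V : g0 ∈ S.V (Set.Iio γ) := QC.inv _ hq0V
    have hg01 : 1 + g0 = (1 + q0)⁻¹ := by rw [hg0]; ring
    -- `q⁺`
    set qp : L[X] := q - C q0 with hqp
    have hqpp : Qp Λ qp := by
      refine ⟨?_, fun k hk => ?_⟩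
      · rw [hqp, coeff_sub, coeff_C_zero, ← hq0, sub_self]
      · rw [hqp, coeff_sub, coeff_C_of_ne_zero (by omega), sub_zero]
        exact hq.2 k hk
    set T : L[X] := qp + C g0 * qp with hT
    have hTp : Qp Λ T := Qp_add hqpp (Q_mul_Qp h1 h2 (Q_C hg0V) hqpp)
    have hqT : 1 + q = C (1 + q0) * (1 + T) := by
      have e1 : T = C (1 + g0) * qp := by rw [hT, C_add, C_1]; ring
      have e2 : C (1 + q0) * C (1 + g0) = (1 : L[X]) := by
        rw [← C_mul, hg01, mul_inv_cancel₀ hq0ne, C_1]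
      calc 1 + q = C (1 + q0) + qp := by rw [hqp, C_add, C_1]; ring
        _ = C (1 + q0) + (C (1 + q0) * C (1 + g0)) * qp := by rw [e2, one_mul]
        _ = C (1 + q0) * (1 + T) := by rw [e1]; ring
    obtain ⟨M', rfl⟩ : ∃ M', M = M' + 1 := ⟨M - 1, by omega⟩
    obtain ⟨h, hh, hhe⟩ := geom h1 h2 (Qp_neg hTp) M'
    -- `1 + G = (1 + g0) (1 + h)`
    set G : L[X] := C g0 + (h + C g0 * h) with hG'
    have hGQ : Q S γ Λ G :=
      Q_add (Q_C hg0V) (Qp_Q S γ Λ _ (Qp_add hh (Q_mul_Qp h1 h2 (Q_C hg0V) hh)))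
    have hprod : (1 + q) * (1 + G) = 1 - (-T) ^ (M' + 1) := by
      have e1 : 1 + G = C (1 + g0) * (1 + h) := by rw [hG', C_add, C_1]; ring
      have e2 : C (1 + q0) * C (1 + g0) = (1 : L[X]) := by
        rw [← C_mul, hg01, mul_inv_cancel₀ hq0ne, C_1]
      have e3 : (1 + T) * (1 + h) = 1 - (-T) ^ (M' + 1) := by
        rw [← hhe]
        have := mul_neg_geom_sum (-T) (M' + 1)
        rw [sub_neg_eq_add] at this
        exact this
      calc (1 + q) * (1 + G) = (C (1 + q0) * C (1 + g0)) * ((1 + T) * (1 + h)) := by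
            rw [hqT, e1]; ring
        _ = _ := by rw [e2, one_mul, e3]
    have hTz : v.valuation (T.eval z) ≤ v.valuation z := hQp T hTp
    have hTz1 : v.valuation (T.eval z) < 1 := lt_of_le_of_lt hTz hz1
    have h1T : v.valuation (1 + T.eval z) = 1 := by
      have := Valuation.map_add_eq_of_lt_left v.valuation (x := 1) (y := T.eval z)
      rw [map_one] at this
      exact this hTz1
    have h1q : v.valuation (1 + q.eval z) = 1 := by
      have e := congrArg (fun p : L[X] => p.eval z) hqT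
      simp only [eval_add, eval_one, eval_mul, eval_C] at e
      rw [e, map_mul, h1T, mul_one]
      exact hunit _ ((t.lt γ).add_mem (t.lt γ).one_mem (hVl _ hq0V)) hq0ne
    have h1w : v.valuation (1 + x) = 1 := by
      have e : 1 + x = (1 + q.eval z) + (x - q.eval z) := by ring
      have := Valuation.map_add_eq_of_lt_left v.valuation (x := 1 + q.eval z)
        (y := x - q.eval z)
      rw [h1q] at this
      rw [e, this (lt_of_le_of_lt hq' hzM')]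
    have h1w0 : 1 + x ≠ 0 := by
      intro h0
      rw [h0, map_zero] at h1w
      exact zero_ne_one h1w
    refine ⟨G, hGQ, ?_⟩
    have e : (1 + x)⁻¹ - 1 - G.eval z =
        (1 + x)⁻¹ * ((-(T.eval z)) ^ (M' + 1) - (x - q.eval z) * (1 + G.eval z)) := by
      have e1 := congrArg (fun p : L[X] => p.eval z) hprod
      simp only [eval_add, eval_one, eval_mul, eval_sub, eval_pow, eval_neg] at e1
      have e2 : (-(T.eval z)) ^ (M' + 1) - (x - q.eval z) * (1 + G.eval z) =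
          1 - (1 + x) * (1 + G.eval z) := by
        have : (-(T.eval z)) ^ (M' + 1) = 1 - (1 + q.eval z) * (1 + G.eval z) := by
          rw [e1]; ring
        rw [this]; ring
      rw [e2]
      field_simp
      ring
    rw [e, map_mul, map_inv₀, h1w, inv_one, one_mul]
    refine v.valuation.map_sub_le ?_ ?_
    · rw [map_pow, Valuation.map_neg]
      exact pow_le_pow_left₀ zero_le hTz _
    · rw [map_mul]
      refine (mul_le_mul' hq' ?_).trans_eq (mul_one _)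
      refine v.valuation.map_add_le ?_ (hQ1 G hGQ)
      rw [map_one]

end Pool.Agent.NoExt
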