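import Pool.Agent.NoExt.Targets

set_option autoImplicit false

namespace Pool.Agent.NoExt.FctClose

open Polynomial

theorem pFct : tFct := by
  intro L _ F N hN h1
  let N' : Submodule F L :=
    { carrier := N
      add_mem' := fun {a b} ha hb => N.add_mem ha hb
      zero_mem' := N.zero_mem
      smul_mem' := fun c x hx => by
        change c • x ∈ (N : Set L)
        rw [Subfield.smul_def, smul_eq_mul]
        exact hN c c.2 x hx }
  have h1' : (1 : L) ∉ N' := h1
  obtain ⟨f, hf1, hf⟩ := Submodule.exists_le_ker_of_notMem h1'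
  have hfc : ∀ c ∈ F, ∀ x : L, (f (c * x) : L) = c * (f x : L) := by
    intro c hc x
    have h := f.map_smul (⟨c, hc⟩ : F) x
    rw [Subfield.smul_def, smul_eq_mul, smul_eq_mul] at h
    have h2 := congrArg (fun y : F => (y : L)) h
    simpa using h2
  have hne : ((f 1 : F) : L) ≠ 0 := by
    intro h0
    exact hf1 (by exact_mod_cast h0)
  let g : L →+ L :=
    { toFun := fun x => ((f 1 : F) : L)⁻¹ * (f x : L)
      map_zero' := by simp
      map_add' := fun x y => by rw [map_add]; push_cast; ring }
  have hg : ∀ x, g x = ((f 1 : F) : L)⁻¹ * (f x : L) := fun _ => rfl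
  refine ⟨g, ⟨?_, ?_, ?_⟩, ?_⟩
  · intro c hc x
    rw [hg, hg, hfc c hc x]
    ring
  · intro x
    rw [hg]
    exact F.mul_mem (F.inv_mem (f 1).2) (f x).2
  · rw [hg]
    exact inv_mul_cancel₀ hne
  · intro x hx
    have : x ∈ LinearMap.ker f := hf hx
    rw [LinearMap.mem_ker] at this
    rw [hg, this]
    simp

theorem pClose : tClose := by
  classical
  intro J L _ _ _ F hmono hcount htop hbd hcont H
  -- nonempty
  obtain ⟨j0, -⟩ := hbd ∅ Set.countable_empty
  -- one step
  have step : ∀ i : J, ∃ i' : J, i < i' ∧ ∀ D : L[X], (∀ n, D.coeff n ∈ F i) →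
      ∀ n : ℕ, ∀ b ∈ H (D, n), b ∈ F i' := by
    intro i
    let P : Set L[X] := {D | ∀ n, D.coeff n ∈ F i}
    have hP : P.Countable := by
      have h1 : P ⊆ Set.range (fun q : (F i)[X] => q.map (F i).subtype) := by
        intro D hD
        have : D ∈ Polynomial.lifts (F i).subtype := by
          rw [Polynomial.lifts_iff_coeff_lifts]
          intro n
          exact ⟨⟨D.coeff n, hD n⟩, rfl⟩
        rw [Polynomial.mem_lifts] at this
        obtain ⟨q, hq⟩ := this
        exact ⟨q, hq⟩
      have : Countable (F i) := (hcount i).to_subtype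
      have : Countable ((F i)[X]) := by
        rw [← Cardinal.mk_le_aleph0_iff]
        refine (Polynomial.cardinalMk_le_max).trans ?_
        rw [max_le_iff]
        exact ⟨Cardinal.mk_le_aleph0_iff.mpr this, le_rfl⟩
      exact (Set.countable_range _).mono h1
    let C : Set L := ⋃ D ∈ P, ⋃ n : ℕ, (H (D, n) : Set L)
    have hC : C.Countable := by
      refine hP.biUnion ?_
      intro D _
      exact Set.countable_iUnion (fun n => (H (D, n)).finite_toSet.countable)
    choose rk hrk using htop
    obtain ⟨i1, hi1⟩ := hbd (insert i (rk '' C)) ((hC.image rk).insert i)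
    refine ⟨i1, hi1 i (Set.mem_insert _ _), ?_⟩
    intro D hD n b hb
    have hbC : b ∈ C := by
      simp only [C, Set.mem_iUnion]
      exact ⟨D, hD, n, hb⟩
    exact hmono _ _ (hi1 _ (Set.mem_insert_of_mem _ ⟨b, hbC, rfl⟩)).le (hrk b)
  choose nx hnx1 hnx2 using step
  let s : ℕ → J := fun n => nx^[n] j0
  have hs : ∀ n, s (n + 1) = nx (s n) := fun n => Function.iterate_succ_apply' nx n j0
  have hslt : StrictMono s := strictMono_nat_of_lt_succ (fun n => by rw [hs]; exact hnx1 _)
  obtain ⟨jb, hjb⟩ := hbd (Set.range s) (Set.countable_range s)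
  let B : Set J := {j | ∀ n, s n < j}
  have hB : B.Nonempty := ⟨jb, fun n => hjb _ ⟨n, rfl⟩⟩
  let j := WellFounded.min (wellFounded_lt (α := J)) B hB
  have hjB : j ∈ B := WellFounded.min_mem _ B hB
  have hmin : ∀ i, i < j → ∃ n, i ≤ s n := by
    intro i hi
    by_contra hne
    push Not at hne
    exact WellFounded.not_lt_min (wellFounded_lt (α := J)) B (show i ∈ B from hne) hi
  refine ⟨j, ?_⟩
  intro D hD i b hb
  -- each coefficient is in some `F (s N)`
  have hco : ∀ m, ∃ N, D.coeff m ∈ F (s N) := by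
    intro m
    obtain ⟨i', hi', hi''⟩ := hcont j0 j (by simpa [s] using hjB 0) _ (hD m)
    obtain ⟨N, hN⟩ := hmin i' hi'
    exact ⟨N + 1, hi'' _ (lt_of_le_of_lt hN (hslt (Nat.lt_succ_self N)))⟩
  choose Nf hNf using hco
  let N := D.support.sup Nf
  have hDN : ∀ m, D.coeff m ∈ F (s N) := by
    intro m
    by_cases hm : m ∈ D.support
    · exact hmono _ _ (hslt.monotone (Finset.le_sup hm)) (hNf m)
    · rw [Polynomial.notMem_support_iff.mp hm]
      exact (F (s N)).zero_mem
  have h1 := hnx2 (s N) D hDN i b hb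
  rw [← hs] at h1
  exact hmono _ _ (hjB (N + 1)).le h1

end Pool.Agent.NoExt.FctClose
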