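import Pool.Agent.NoExt.Targets

set_option autoImplicit false

/-! NX7: functionals with finite dimensional images. -/

namespace Pool.Agent.NoExt

open Polynomial
open scoped Pointwise

namespace Fin_

variable {I L : Type} [LinearOrder I] [Field L] {t : Tower I L}

lemma Mm_finite (s : Finset L) (n : ℕ) : (Mm s n).Finite := by
  have h : Mm s n ⊆ (fun l : List s => (l.map Subtype.val).prod) '' {l : List s | l.length ≤ n} := by
    rintro r ⟨l, h1, h2, rfl⟩
    refine ⟨l.attach.map fun a => ⟨a.1, h2 a.1 a.2⟩, by simpa using h1, ?_⟩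
    simp
  exact (List.finite_length_le s n).image _ |>.subset h

lemma Mm_mem (F : Subfield L) {s : Finset L} (hs : ∀ a ∈ s, a ∈ F) {n : ℕ} {r : L}
    (hr : r ∈ Mm s n) : r ∈ F := by
  obtain ⟨l, -, h2, rfl⟩ := hr
  exact list_prod_mem fun a ha => hs a (h2 a ha)

lemma QC_mem (F : Subfield L) {E : Set L} (hE : ∀ x ∈ E, x ∈ F) {x : L} (hx : QC E x) : x ∈ F := by
  induction hx with
  | base x h => exact hE x h
  | zero => exact F.zero_mem
  | add x y _ _ h1 h2 => exact F.add_mem h1 h2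
  | neg x _ h1 => exact F.neg_mem h1
  | mul x y _ _ h1 h2 => exact F.mul_mem h1 h2
  | inv x _ h1 => exact F.sub_mem (F.inv_mem (F.add_mem F.one_mem h1)) F.one_mem

lemma QC_mono {E E' : Set L} (h : E ⊆ E') {x : L} (hx : QC E x) : QC E' x := by
  induction hx with
  | base x h' => exact QC.base x (h h')
  | zero => exact QC.zero
  | add x y _ _ h1 h2 => exact QC.add x y h1 h2
  | neg x _ h1 => exact QC.neg x h1
  | mul x y _ _ h1 h2 => exact QC.mul x y h1 h2
  | inv x _ h1 => exact QC.inv x h1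

lemma V_mono (S : Sys t) {A B : Set I} (h : A ⊆ B) : S.V A ⊆ S.V B := fun x hx =>
  QC_mono (by rintro y ⟨γ, h1, h2⟩; exact ⟨γ, h h1, h2⟩) hx

lemma eval_mem (F : Subfield L) {p : L[X]} (hp : ∀ m, p.coeff m ∈ F) {a : L} (ha : a ∈ F) :
    p.eval a ∈ F := by
  rw [eval_eq_sum_range]
  exact sum_mem fun i _ => F.mul_mem (hp i) (F.pow_mem ha i)

lemma le_mono {δ γ : I} (h : δ ≤ γ) : t.le δ ≤ t.le γ := by
  rcases h.eq_or_lt with rfl | h
  · exact le_rfl
  · exact (t.le_lt _ _ h).trans (t.lt_le γ)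

lemma gen_mem (S : Sys t) {δ : I} {g : L × Finset L × ℕ} (hg : g ∈ S.G δ) {r : L}
    (hr : r ∈ Mm g.2.1 g.2.2) : r * g.1 ∈ t.le δ := by
  obtain ⟨p, hp, -, hp2⟩ := S.pol δ g hg
  refine (t.le δ).mul_mem (t.lt_le δ (Mm_mem _ (S.lev δ g hg) hr)) ?_
  rw [hp2]
  exact eval_mem _ (fun m => t.lt_le δ (hp m)) (t.z_mem δ)

lemma Viio (S : Sys t) (γ : I) {w : L} (hw : w ∈ S.V (Set.Iio γ)) : w ∈ t.lt γ := by
  refine QC_mem _ ?_ hw
  rintro y ⟨δ, hδ, g, hg, r, hr, rfl⟩
  exact t.le_lt δ γ hδ (gen_mem S hg hr)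

lemma Viic_of_empty (S : Sys t) {j : I} (hj : S.G j = ∅) {w : L} (hw : w ∈ S.V (Set.Iic j)) :
    w ∈ S.V (Set.Iio j) := by
  refine QC_mono ?_ hw
  rintro y ⟨δ, hδ, g, hg, h⟩
  rcases (show δ ≤ j from hδ).eq_or_lt with rfl | h'
  · rw [hj] at hg
    exact absurd hg (Set.notMem_empty _)
  · exact ⟨δ, h', g, hg, h⟩

lemma K1_le (j : I) : K1 t j ≤ t.le j := by
  unfold K1
  rw [Subfield.closure_le]
  rintro x (hx | hx)
  · exact t.lt_le j hx
  · rw [Set.mem_singleton_iff.1 hx]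
    exact t.z_mem j

lemma lt_le_K1 (j : I) : t.lt j ≤ K1 t j := fun _ hx =>
  Subfield.subset_closure (Or.inl hx)

lemma find_finite {j γ : I} (hj : j < γ) {R : Set L} (hR : R.Finite) (h : ∀ r ∈ R, r ∈ t.lt γ) :
    ∃ δ, j ≤ δ ∧ δ < γ ∧ ∀ r ∈ R, r ∈ t.le δ := by
  induction R, hR using Set.Finite.induction_on with
  | empty => exact ⟨j, le_rfl, hj, fun r hr => absurd hr (Set.notMem_empty _)⟩
  | @insert a s _ _ ih =>
    obtain ⟨δ, h1, h2, h3⟩ := ih fun r hr => h r (Set.mem_insert_of_mem _ hr)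
    obtain ⟨ε, h4, h5, h6⟩ := t.find j γ hj a (h a (Set.mem_insert _ _))
    refine ⟨max δ ε, le_max_of_le_left h1, max_lt h2 h5, ?_⟩
    rintro r (rfl | hr)
    · exact le_mono (le_max_right _ _) h6
    · exact le_mono (le_max_left _ _) (h3 r hr)

/-- the elements of valuation `< 1` -/
def mI (v : ValuationSubring L) : AddSubgroup L where
  carrier := {y | v.valuation y < 1}
  zero_mem' := by simp
  add_mem' := fun {a b} ha hb => by
    exact lt_of_le_of_lt (v.valuation.map_add a b) (max_lt ha hb)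
  neg_mem' := fun {a} ha => by simpa [Valuation.map_neg] using ha

lemma mem_mI {v : ValuationSubring L} {y : L} : y ∈ mI v ↔ v.valuation y < 1 := Iff.rfl

lemma mI_mul {v : ValuationSubring L} {c y : L} (hc : c ∈ v) (hy : y ∈ mI v) : c * y ∈ mI v := by
  rw [mem_mI, map_mul]
  exact (mul_le_of_le_one_left' ((v.valuation_le_one_iff c).2 hc)).trans_lt hy

/-- the elements which stay of valuation `< 1` after multiplication by `F` -/
def mF (v : ValuationSubring L) (F : Subfield L) : AddSubgroup L where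
  carrier := {y | ∀ c ∈ F, v.valuation (y * c) < 1}
  zero_mem' := fun c _ => by simp
  add_mem' := fun {a b} ha hb c hc => by
    rw [add_mul]
    exact lt_of_le_of_lt (v.valuation.map_add _ _) (max_lt (ha c hc) (hb c hc))
  neg_mem' := fun {a} ha c hc => by
    rw [neg_mul, Valuation.map_neg]
    exact ha c hc

lemma base_case (h1 : tGood) (h3 : tCst) (h5 : tFct) [WellFoundedLT I]
    (S : Sys t) (j : I) (hj : S.G j = ∅) (R : Set L) (hR : R.Finite) (hRj : ∀ r ∈ R, r ∈ t.le j) :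
    ∃ P : L →+ L, Fct (K1 t j) P ∧ (∀ w ∈ S.V Set.univ, P w ∈ t.lt j) ∧
    ∃ N : Set L, N.Finite ∧ (∀ x ∈ N, x ∈ K1 t j) ∧ ∀ r ∈ R,
      P r ∈ Submodule.span (t.lt j) N ∧
        ∀ w ∈ S.V Set.univ, P (w * r) ∈ Submodule.span (t.lt j) N := by
  obtain ⟨v, hv⟩ := h1 I L t j
  obtain ⟨P, hP, hP0⟩ := h5 L (K1 t j) (mF v (t.le j)) (by
    intro c hc x hx c' hc'
    have := hx (c * c') ((t.le j).mul_mem (K1_le j hc) hc')
    rwa [show c * x * c' = x * (c * c') by ring]) (by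
    intro h
    have := h 1 (t.le j).one_mem
    simp at this)
  have key : ∀ w ∈ S.V Set.univ, ∃ w0 ∈ t.lt j, w - w0 ∈ mF v (t.le j) := by
    intro w hw
    obtain ⟨w0, hw0, hw1⟩ := (h3 I L t S j v hv w hw).2.1
    exact ⟨w0, Viio S j (Viic_of_empty S hj hw0), hw1⟩
  refine ⟨P, hP, ?_, P '' R, hR.image _, ?_, ?_⟩
  · intro w hw
    obtain ⟨w0, hw0, hw1⟩ := key w hw
    have e1 : P w = w0 := by
      have : w = w0 * 1 + (w - w0) := by ring
      rw [this, map_add, hP0 _ hw1, hP.1 w0 (lt_le_K1 j hw0), hP.2.2]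
      ring
    rw [e1]
    exact hw0
  · rintro x ⟨y, -, rfl⟩
    exact hP.2.1 y
  · intro r hr
    have hPr : P r ∈ Submodule.span (t.lt j) (P '' R) := Submodule.subset_span ⟨r, hr, rfl⟩
    refine ⟨hPr, fun w hw => ?_⟩
    obtain ⟨w0, hw0, hw1⟩ := key w hw
    have h6 : (w - w0) * r ∈ mF v (t.le j) := by
      intro c hc
      rw [mul_assoc]
      exact hw1 _ ((t.le j).mul_mem (hRj r hr) hc)
    have e1 : P (w * r) = w0 * P r := by
      have : w * r = w0 * r + (w - w0) * r := by ring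
      rw [this, map_add, hP0 _ h6, hP.1 w0 (lt_le_K1 j hw0), add_zero]
    rw [e1]
    exact (Submodule.span (t.lt j) (P '' R)).smul_mem (⟨w0, hw0⟩ : t.lt j) hPr

lemma step_case (h1 : tGood) (h2 : tVcof) (h3 : tCst) (h4 : tExp) (h5 : tFct) [WellFoundedLT I]
    (S : Sys t) (j γ : I) (hjγ : j < γ)
    (ih : ∀ γ', j ≤ γ' → γ' < γ → ∀ R : Set L, R.Finite → (∀ r ∈ R, r ∈ t.le γ') →
      ∃ P : L →+ L, Fct (K1 t j) P ∧ (∀ w ∈ S.V Set.univ, P w ∈ t.lt j) ∧
      ∃ N : Set L, N.Finite ∧ (∀ x ∈ N, x ∈ K1 t j) ∧ ∀ r ∈ R,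
        P r ∈ Submodule.span (t.lt j) N ∧
          ∀ w ∈ S.V Set.univ, P (w * r) ∈ Submodule.span (t.lt j) N)
    (R : Set L) (hR : R.Finite) (hRj : ∀ r ∈ R, r ∈ t.le γ) :
    ∃ P : L →+ L, Fct (K1 t j) P ∧ (∀ w ∈ S.V Set.univ, P w ∈ t.lt j) ∧
    ∃ N : Set L, N.Finite ∧ (∀ x ∈ N, x ∈ K1 t j) ∧ ∀ r ∈ R,
      P r ∈ Submodule.span (t.lt j) N ∧
        ∀ w ∈ S.V Set.univ, P (w * r) ∈ Submodule.span (t.lt j) N := by
  classical
  obtain ⟨v, hv⟩ := h1 I L t γ
  obtain ⟨Q, hQ, hQ0⟩ := h5 L (t.lt γ) (mI v) (fun c hc x hx => mI_mul (hv.1 c hc) hx) (by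
    intro h
    rw [mem_mI] at h
    simp at h)
  have hz1 : v.valuation (t.z γ) < 1 := by
    have := hv.2 γ le_rfl 1 (t.lt γ).one_mem
    rwa [mul_one] at this
  -- the finite set of coefficients
  choose! pg hpg using S.pol γ
  set C : Set L := {0, 1} ∪ ⋃ g ∈ S.G γ,
    (fun rm : L × ℕ => rm.1 * (pg g).coeff rm.2) '' (Mm g.2.1 g.2.2 ×ˢ Set.Iic (pg g).natDegree)
    with hC
  have hCfin : C.Finite := by
    refine Set.Finite.union (by simp) ?_
    refine (S.fin γ).biUnion fun g _ => Set.Finite.image _ ?_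
    exact (Mm_finite _ _).prod (Set.finite_Iic _)
  have hC0 : (0 : L) ∈ C := Or.inl (by simp)
  have hC1 : (1 : L) ∈ C := Or.inl (by simp)
  have hClt : ∀ c ∈ C, c ∈ t.lt γ := by
    rintro c (hc | hc)
    · rcases hc with rfl | hc
      · exact (t.lt γ).zero_mem
      · rw [Set.mem_singleton_iff.1 hc]
        exact (t.lt γ).one_mem
    · simp only [Set.mem_iUnion] at hc
      obtain ⟨g, hg, ⟨r, m⟩, ⟨hr, -⟩, rfl⟩ := hc
      exact (t.lt γ).mul_mem (Mm_mem _ (S.lev γ g hg) hr) ((hpg g hg).1 m)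
  have hCcoef : ∀ g ∈ S.G γ, ∀ r ∈ Mm g.2.1 g.2.2, ∀ m, r * (pg g).coeff m ∈ C := by
    intro g hg r hr m
    by_cases hm : m ≤ (pg g).natDegree
    · refine Or.inr ?_
      simp only [Set.mem_iUnion]
      exact ⟨g, hg, ⟨r, m⟩, ⟨hr, hm⟩, rfl⟩
    · rw [coeff_eq_zero_of_natDegree_lt (not_le.1 hm), mul_zero]
      exact hC0
  have hCkfin : ∀ k, (C ^ k).Finite := by
    intro k
    induction k with
    | zero => rw [pow_zero]; exact Set.finite_one
    | succ k ihk => rw [pow_succ]; exact ihk.mul hCfin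
  have hCk : ∀ k, ∀ c ∈ C ^ k, c ∈ t.lt γ := by
    intro k
    induction k with
    | zero =>
      intro c hc
      rw [pow_zero, Set.mem_one] at hc
      rw [hc]
      exact (t.lt γ).one_mem
    | succ k ihk =>
      intro c hc
      rw [pow_succ] at hc
      obtain ⟨a, ha, b, hb, rfl⟩ := hc
      exact (t.lt γ).mul_mem (ihk a ha) (hClt b hb)
  set Λ : ℕ → AddSubgroup L := fun k => AddSubgroup.closure
    {x | ∃ a c, (a = 1 ∨ a ∈ S.V (Set.Iio γ)) ∧ c ∈ C ^ k ∧ x = a * c} with hΛ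
  have hΛlt : ∀ k, ∀ x ∈ Λ k, x ∈ t.lt γ := by
    intro k x hx
    have : Λ k ≤ (t.lt γ).toSubring.toAddSubgroup := by
      rw [hΛ, AddSubgroup.closure_le]
      rintro y ⟨a, c, ha, hc, rfl⟩
      refine (t.lt γ).mul_mem ?_ (hCk k c hc)
      rcases ha with rfl | ha
      · exact (t.lt γ).one_mem
      · exact Viio S γ ha
    exact this hx
  have hΛV : ∀ k, 1 ≤ k → ∀ w ∈ S.V (Set.Iio γ), ∀ x ∈ Λ k, w * x ∈ Λ k := by
    intro k _ w hw x hx
    induction hx using AddSubgroup.closure_induction with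
    | mem x hx =>
      obtain ⟨a, c, ha, hc, rfl⟩ := hx
      refine AddSubgroup.subset_closure ⟨w * a, c, Or.inr ?_, hc, by ring⟩
      rcases ha with rfl | ha
      · rwa [mul_one]
      · exact QC.mul _ _ hw ha
    | zero => rw [mul_zero]; exact (Λ k).zero_mem
    | add x y _ _ h6 h7 => rw [mul_add]; exact (Λ k).add_mem h6 h7
    | neg x _ h6 => rw [mul_neg]; exact (Λ k).neg_mem h6
  have hΛm : ∀ k l, 1 ≤ k → 1 ≤ l → ∀ x ∈ Λ k, ∀ y ∈ Λ l, x * y ∈ Λ (k + l) := by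
    intro k l _ _ x hx y hy
    induction hx using AddSubgroup.closure_induction with
    | mem x hx =>
      obtain ⟨a, c, ha, hc, rfl⟩ := hx
      induction hy using AddSubgroup.closure_induction with
      | mem y hy =>
        obtain ⟨a', c', ha', hc', rfl⟩ := hy
        refine AddSubgroup.subset_closure ⟨a * a', c * c', ?_, ?_, by ring⟩
        · rcases ha with rfl | ha
          · rwa [one_mul]
          · rcases ha' with rfl | ha'
            · rw [mul_one]; exact Or.inr ha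
            · exact Or.inr (QC.mul _ _ ha ha')
        · rw [pow_add]
          exact Set.mul_mem_mul hc hc'
      | zero => rw [mul_zero]; exact (Λ (k + l)).zero_mem
      | add x y _ _ h6 h7 => rw [mul_add]; exact (Λ (k + l)).add_mem h6 h7
      | neg x _ h6 => rw [mul_neg]; exact (Λ (k + l)).neg_mem h6
    | zero => rw [zero_mul]; exact (Λ (k + l)).zero_mem
    | add x y _ _ h6 h7 => rw [add_mul]; exact (Λ (k + l)).add_mem h6 h7
    | neg x _ h6 => rw [neg_mul]; exact (Λ (k + l)).neg_mem h6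
  have hΛg : ∀ g ∈ S.G γ, ∀ r ∈ Mm g.2.1 g.2.2, ∃ p : L[X], p.coeff 0 = 0 ∧
      (∀ k, 1 ≤ k → p.coeff k ∈ Λ k) ∧ r * g.1 = p.eval (t.z γ) := by
    intro g hg r hr
    refine ⟨Polynomial.C r * pg g, ?_, ?_, ?_⟩
    · rw [coeff_C_mul, (hpg g hg).2.1, mul_zero]
    · intro k hk
      rw [coeff_C_mul]
      refine AddSubgroup.subset_closure ⟨1, _, Or.inl rfl, ?_, (one_mul _).symm⟩
      have h6 : C ^ 1 ⊆ C ^ k := Set.pow_subset_pow_right hC1 hk
      rw [pow_one] at h6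
      exact h6 (hCcoef g hg r hr k)
    · rw [eval_mul, eval_C, ← (hpg g hg).2.2]
  -- cofinality
  choose! M hM using fun r (hr : r ∈ R) => h2 I L t γ v hv r (hRj r hr)
  have hM' : ∀ r ∈ R, ∀ k, M r ≤ k → v.valuation (t.z γ ^ k * r) < 1 := by
    intro r hr k hk
    obtain ⟨d, rfl⟩ := Nat.exists_eq_add_of_le hk
    rw [pow_add, mul_comm (t.z γ ^ M r), mul_assoc, map_mul, map_pow]
    exact (mul_le_of_le_one_left' (pow_le_one' hz1.le d)).trans_lt (hM r hr)
  set R' : Set L := ⋃ r ∈ R, ⋃ k ∈ Set.Iic (M r), (fun l => l * Q (t.z γ ^ k * r)) '' (C ^ k)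
    with hR'
  have hR'fin : R'.Finite := by
    refine hR.biUnion fun r _ => (Set.finite_Iic _).biUnion fun k _ => Set.Finite.image _ ?_
    exact hCkfin k
  have hR'lt : ∀ x ∈ R', x ∈ t.lt γ := by
    intro x hx
    simp only [hR', Set.mem_iUnion] at hx
    obtain ⟨r, hr, k, hk, l, hl, rfl⟩ := hx
    exact (t.lt γ).mul_mem (hCk k l hl) (hQ.2.1 _)
  have hR'mem : ∀ r ∈ R, ∀ k ≤ M r, ∀ l ∈ C ^ k, l * Q (t.z γ ^ k * r) ∈ R' := by
    intro r hr k hk l hl
    simp only [hR', Set.mem_iUnion]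
    exact ⟨r, hr, k, hk, l, hl, rfl⟩
  obtain ⟨γ', h6, h7, h8⟩ := find_finite hjγ hR'fin hR'lt
  obtain ⟨P', hP', hPV, N, hN, hNK, hNR⟩ := ih γ' h6 h7 R' hR'fin h8
  have hK : ∀ c ∈ K1 t j, c ∈ t.lt γ := fun c hc => t.le_lt j γ hjγ (K1_le j hc)
  have hVu : S.V (Set.Iio γ) ⊆ S.V Set.univ := V_mono S (Set.subset_univ _)
  refine ⟨P'.comp Q, ⟨?_, ?_, ?_⟩, ?_, N, hN, hNK, ?_⟩
  · intro c hc x
    rw [AddMonoidHom.comp_apply, AddMonoidHom.comp_apply, hQ.1 c (hK c hc), hP'.1 c hc]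
  · intro x
    exact hP'.2.1 _
  · rw [AddMonoidHom.comp_apply, hQ.2.2, hP'.2.2]
  · intro w hw
    obtain ⟨w0, hw0, hw1⟩ := (h3 I L t S γ v hv w hw).1
    have e1 : Q w = w0 := by
      have : w = w0 * 1 + (w - w0) := by ring
      rw [this, map_add, hQ0 _ (mem_mI.2 hw1), hQ.1 w0 (Viio S γ hw0), hQ.2.2]
      ring
    rw [AddMonoidHom.comp_apply, e1]
    exact hPV w0 (hVu hw0)
  · intro r hr
    have hspan : ∀ k ≤ M r, ∀ a : L, (a = 1 ∨ a ∈ S.V (Set.Iio γ)) → ∀ c ∈ C ^ k,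
        P' (a * c * Q (t.z γ ^ k * r)) ∈ Submodule.span (t.lt j) N := by
      intro k hk a ha c hc
      have h9 := hNR _ (hR'mem r hr k hk c hc)
      rw [mul_assoc]
      rcases ha with rfl | ha
      · rw [one_mul]
        exact h9.1
      · exact h9.2 a (hVu ha)
    refine ⟨?_, ?_⟩
    · have := hspan 0 (Nat.zero_le _) 1 (Or.inl rfl) 1 (by rw [pow_zero]; exact Set.one_mem_one)
      rwa [one_mul, one_mul, pow_zero, one_mul] at this
    · intro w hw
      obtain ⟨w0, hw0, hw1⟩ := (h3 I L t S γ v hv w hw).2.1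
      obtain ⟨q, hq0, hqk, hq⟩ := h4 I L t S γ v Λ hv hΛlt hΛV hΛm hΛg w0 hw0 (M r + 1)
        (Nat.le_add_left 1 _)
      have e1 : Q (w * r) = Q (q.eval (t.z γ) * r) := by
        have e2 : w * r = q.eval (t.z γ) * r + ((w - w0) * r + (w0 - q.eval (t.z γ)) * r) := by ring
        rw [e2, map_add, hQ0 ((w - w0) * r + (w0 - q.eval (t.z γ)) * r), add_zero]
        refine (mI v).add_mem (hw1 r (hRj r hr)) ?_
        rw [mem_mI, map_mul]
        calc v.valuation (w0 - q.eval (t.z γ)) * v.valuation r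
            ≤ v.valuation (t.z γ) ^ (M r + 1) * v.valuation r := by gcongr
          _ = v.valuation (t.z γ ^ (M r + 1) * r) := by rw [map_mul, map_pow]
          _ < 1 := hM' r hr _ (Nat.le_succ _)
      have hqlt : ∀ k, q.coeff k ∈ t.lt γ := by
        intro k
        rcases Nat.eq_zero_or_pos k with rfl | hk
        · exact Viio S γ hq0
        · exact hΛlt k _ (hqk k hk)
      have e3 : Q (q.eval (t.z γ) * r) =
          ∑ k ∈ Finset.range (q.natDegree + 1), q.coeff k * Q (t.z γ ^ k * r) := by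
        rw [eval_eq_sum_range, Finset.sum_mul, map_sum]
        refine Finset.sum_congr rfl fun k _ => ?_
        rw [mul_assoc, hQ.1 _ (hqlt k)]
      rw [AddMonoidHom.comp_apply, e1, e3, map_sum]
      refine Submodule.sum_mem _ fun k _ => ?_
      by_cases hk : k ≤ M r
      · rcases Nat.eq_zero_or_pos k with rfl | hk0
        · have := hspan 0 hk (q.coeff 0) (Or.inr hq0) 1 (by rw [pow_zero]; exact Set.one_mem_one)
          rwa [mul_one] at this
        · have h10 : ∀ x ∈ Λ k, P' (x * Q (t.z γ ^ k * r)) ∈ Submodule.span (t.lt j) N := by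
            intro x hx
            induction hx using AddSubgroup.closure_induction with
            | mem x hx =>
              obtain ⟨a, c, ha, hc, rfl⟩ := hx
              exact hspan k hk a ha c hc
            | zero => rw [zero_mul, map_zero]; exact Submodule.zero_mem _
            | add x y _ _ h6 h7 => rw [add_mul, map_add]; exact Submodule.add_mem _ h6 h7
            | neg x _ h6 => rw [neg_mul, map_neg]; exact Submodule.neg_mem _ h6
          exact h10 _ (hqk k hk0)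
      · rw [hQ0 (t.z γ ^ k * r) (mem_mI.2 (hM' r hr k (not_le.1 hk).le)), mul_zero, map_zero]
        exact Submodule.zero_mem _

end Fin_

open Fin_ in
theorem pFin (h1 : tGood) (h2 : tVcof) (h3 : tCst) (h4 : tExp) (h5 : tFct) : tFin := by
  intro I L _ _ _ t S j hj γ
  induction γ using WellFoundedLT.induction with
  | ind γ ih =>
    intro hjγ R hR hRγ
    rcases hjγ.eq_or_lt with rfl | hlt
    · exact base_case h1 h3 h5 S j hj R hR hRγ
    · exact step_case h1 h2 h3 h4 h5 S j γ hlt (fun γ' h6 h7 R hR hRγ => ih γ' h7 h6 R hR hRγ) R hR hRγ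

end Pool.Agent.NoExt
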