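import Pool.Agent.NoExt.Fin

set_option autoImplicit false

/-! NX14: assembly. -/

namespace Pool.Agent.NoExt

open Polynomial

namespace Final_

section blk
variable {I L : Type} [LinearOrder I] [Field L] {t : Tower I L}

lemma blk_fin (a z : L) (s' : Finset L) (n' : ℕ) (D : L[X]) (m : ℕ) (s0 : Finset L) (n0 : ℕ) :
    (Blk a z s' n' D m s0 n0).Finite := by
  unfold Blk
  refine Set.Finite.union (Set.Finite.union ?_ ?_) ?_
  · simp
  · refine ((Set.finite_Iio m).image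
      fun i => ((z ^ 5 / (a ^ (1 + i) * D.eval a), s0, n0) : L × Finset L × ℕ)).subset ?_
    rintro g ⟨i, -, hi, rfl⟩
    exact ⟨i, hi, rfl⟩
  · refine ((Set.finite_Iio D.natDegree).image
      fun i => ((z ^ 5 * dl D a i / D.eval a, s0, n0) : L × Finset L × ℕ)).subset ?_
    rintro g ⟨i, hi, rfl⟩
    exact ⟨i, hi, rfl⟩

lemma blk_lev {F : Subfield L} {a z : L} {s' : Finset L} {n' : ℕ} {D : L[X]} {m : ℕ}
    {s0 : Finset L} {n0 : ℕ} (h1 : ∀ b ∈ s', b ∈ F) (h2 : ∀ b ∈ s0, b ∈ F) :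
    ∀ g ∈ Blk a z s' n' D m s0 n0, ∀ b ∈ g.2.1, b ∈ F := by
  rintro g ((hg | ⟨i, -, -, rfl⟩) | ⟨i, -, rfl⟩)
  · rcases hg with rfl | rfl | hg
    · exact h1
    · exact h2
    · rw [Set.mem_singleton_iff] at hg
      subst hg
      exact h2
  · exact h2
  · exact h2

lemma mono_pol {F : Subfield L} {c z : L} (hc : c ∈ F) (k : ℕ) (hk : k ≠ 0) :
    ∃ p : L[X], (∀ m, p.coeff m ∈ F) ∧ p.coeff 0 = 0 ∧ c * z ^ k = p.eval z := by
  refine ⟨C c * X ^ k, ?_, ?_, ?_⟩
  · intro m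
    rw [coeff_C_mul, coeff_X_pow]
    split_ifs
    · rwa [mul_one]
    · rw [mul_zero]; exact F.zero_mem
  · rw [coeff_C_mul, coeff_X_pow, if_neg (Ne.symm hk), mul_zero]
  · simp

lemma blk_pol {F : Subfield L} {a z : L} {s' : Finset L} {n' : ℕ} {D : L[X]} {m : ℕ}
    {s0 : Finset L} {n0 : ℕ} (ha : a ∈ F) (hD : ∀ n, D.coeff n ∈ F) :
    ∀ g ∈ Blk a z s' n' D m s0 n0, ∃ p : L[X], (∀ m, p.coeff m ∈ F) ∧ p.coeff 0 = 0 ∧
      g.1 = p.eval z := by
  have hDa : D.eval a ∈ F := Fin_.eval_mem F hD ha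
  have hdl : ∀ i, dl D a i ∈ F := fun i => sum_mem fun k _ => F.mul_mem (hD k) (F.pow_mem ha _)
  rintro g ((hg | ⟨i, -, -, rfl⟩) | ⟨i, -, rfl⟩)
  · rcases hg with rfl | rfl | hg
    · obtain ⟨p, h1, h2, h3⟩ := mono_pol (z := z) F.one_mem 2 (by norm_num)
      exact ⟨p, h1, h2, by rw [← h3, one_mul]⟩
    · obtain ⟨p, h1, h2, h3⟩ := mono_pol (z := z) F.one_mem 3 (by norm_num)
      exact ⟨p, h1, h2, by rw [← h3, one_mul]⟩
    · rw [Set.mem_singleton_iff] at hg
      subst hg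
      obtain ⟨p, h1, h2, h3⟩ := mono_pol (z := z)
        (F.inv_mem (F.mul_mem (F.pow_mem ha m) hDa)) 3 (by norm_num)
      exact ⟨p, h1, h2, by rw [← h3, div_eq_mul_inv, mul_comm]⟩
  · obtain ⟨p, h1, h2, h3⟩ := mono_pol (z := z)
      (F.inv_mem (F.mul_mem (F.pow_mem ha (1 + i)) hDa)) 5 (by norm_num)
    exact ⟨p, h1, h2, by rw [← h3, div_eq_mul_inv, mul_comm]⟩
  · obtain ⟨p, h1, h2, h3⟩ := mono_pol (z := z)
      (F.mul_mem (hdl i) (F.inv_mem hDa)) 5 (by norm_num)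
    exact ⟨p, h1, h2, by rw [← h3, div_eq_mul_inv]; ring⟩

end blk

section sys
variable {J L : Type} [LinearOrder J] [Field L]

/-- the type of the data of a block -/
abbrev Dat (J L : Type) [Field L] : Type := J × (Finset L × ℕ) × L[X] × ℕ × (Finset L × ℕ)

/-- validity of a datum at `i` -/
def Valid (t : Tower (J ×ₗ Bool) L) (i : J) (x : Dat J L) : Prop :=
  x.1 ≤ i ∧ (∀ a ∈ x.2.1.1, a ∈ t.lt (toLex (i, true))) ∧
    (∀ n, x.2.2.1.coeff n ∈ t.lt (toLex (x.1, false))) ∧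
    (∀ a ∈ x.2.2.2.2.1, a ∈ t.lt (toLex (x.1, false)))

lemma lt_of_le' {j i : J} (h : j ≤ i) :
    (toLex (j, false) : J ×ₗ Bool) < toLex (i, true) := by
  rw [Prod.Lex.toLex_lt_toLex]
  rcases h.eq_or_lt with rfl | h
  · exact Or.inr ⟨rfl, Bool.false_lt_true⟩
  · exact Or.inl h

lemma ltlt {t : Tower (J ×ₗ Bool) L} {δ γ : J ×ₗ Bool} (h : δ < γ) : t.lt δ ≤ t.lt γ :=
  (t.lt_le δ).trans (t.le_lt δ γ h)

/-- the system of generators for the enumeration `d` -/
def sys (t : Tower (J ×ₗ Bool) L) (d : J → Dat J L) : Sys t where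
  G γ := {g | (ofLex γ).2 = true ∧ Valid t (ofLex γ).1 (d (ofLex γ).1) ∧
    g ∈ Blk (t.z (toLex ((d (ofLex γ).1).1, false))) (t.z γ) (d (ofLex γ).1).2.1.1
      (d (ofLex γ).1).2.1.2 (d (ofLex γ).1).2.2.1 (d (ofLex γ).1).2.2.2.1
      (d (ofLex γ).1).2.2.2.2.1 (d (ofLex γ).1).2.2.2.2.2}
  fin γ := (blk_fin _ _ _ _ _ _ _ _).subset fun g hg => hg.2.2
  lev := by
    rintro γ g ⟨h1, h2, h3⟩
    have e : γ = toLex ((ofLex γ).1, true) := by
      rw [← h1]
      rfl
    obtain ⟨h4, h5, h6, h7⟩ := h2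
    have h8 := ltlt (t := t) (lt_of_le' h4)
    rw [← e] at h5 h8
    exact blk_lev h5 (fun b hb => h8 (h7 b hb)) g h3
  pol := by
    rintro γ g ⟨h1, h2, h3⟩
    have e : γ = toLex ((ofLex γ).1, true) := by
      rw [← h1]
      rfl
    obtain ⟨h4, h5, h6, h7⟩ := h2
    have h8 := lt_of_le' (J := J) h4
    rw [← e] at h8
    exact blk_pol (t.le_lt _ _ h8 (t.z_mem _)) (fun n => ltlt h8 (h6 n)) g h3

lemma sys_false (t : Tower (J ×ₗ Bool) L) (d : J → Dat J L) (j : J) :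
    (sys t d).G (toLex (j, false)) = ∅ := by
  ext g
  simp [sys]

lemma sys_true (t : Tower (J ×ₗ Bool) L) (d : J → Dat J L) (i j : J) (s' : Finset L) (n' : ℕ)
    (D : L[X]) (m : ℕ) (s0 : Finset L) (n0 : ℕ) (hd : d i = (j, (s', n'), D, m, (s0, n0)))
    (hv : Valid t i (j, (s', n'), D, m, (s0, n0))) :
    (sys t d).G (toLex (i, true)) =
      Blk (t.z (toLex (j, false))) (t.z (toLex (i, true))) s' n' D m s0 n0 := by
  ext g
  constructor
  · rintro ⟨-, -, h⟩
    change g ∈ Blk (t.z (toLex ((d i).1, false))) (t.z (toLex (i, true))) (d i).2.1.1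
      (d i).2.1.2 (d i).2.2.1 (d i).2.2.2.1 (d i).2.2.2.2.1 (d i).2.2.2.2.2 at h
    rw [hd] at h
    exact h
  · intro h
    refine ⟨rfl, ?_, ?_⟩
    · change Valid t i (d i)
      rw [hd]
      exact hv
    · change g ∈ Blk (t.z (toLex ((d i).1, false))) (t.z (toLex (i, true))) (d i).2.1.1
        (d i).2.1.2 (d i).2.2.1 (d i).2.2.2.1 (d i).2.2.2.2.1 (d i).2.2.2.2.2
      rw [hd]
      exact h

end sys

end Final_

open Final_ in
theorem pFinal (hTower : tTower) (hMain : tMain) (hTop : tTop) (hKill : tKill) (hClose : tClose)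
    (hBook : tBook) :
    ¬ (∀ (F : Type) [Field F] [TopologicalSpace F] [IsTopologicalDivisionRing F],
      ∃ (K : Type) (_ : Field K) (_ : TopologicalSpace K),
        IsTopologicalDivisionRing K ∧ ConnectedSpace K ∧
          ∃ f : F →+* K, Topology.IsEmbedding (⇑f)) := by
  intro hall
  obtain ⟨J, _, _, _, hJc, hJb, hJd⟩ := hBook
  obtain ⟨L, _, _, t, htc, hcard⟩ := hTower (J ×ₗ Bool)
  have hcard' : Cardinal.mk L ≤ max (Cardinal.mk J) Cardinal.aleph0 := by
    refine hcard.trans (max_le ?_ (le_max_right _ _))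
    have e1 : Cardinal.mk (J ×ₗ Bool) = Cardinal.mk J * Cardinal.mk Bool := by
      change Cardinal.mk (J × Bool) = _
      rw [Cardinal.mk_prod, Cardinal.lift_id, Cardinal.lift_id]
    rw [e1]
    refine (Cardinal.mul_le_max _ _).trans (max_le (max_le (le_max_left _ _) ?_) (le_max_right _ _))
    exact (Cardinal.mk_le_aleph0).trans (le_max_right _ _)
  obtain ⟨d, hd⟩ := hJd L hcard'
  set S := sys t d with hS
  obtain ⟨τ, hτ, hbasis, hconn⟩ := hTop (J ×ₗ Bool) L t S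
  let _ := τ
  obtain ⟨K, _, _, hK, hKc, f, hf⟩ := hall L
  by_cases hsurj : Function.Surjective f
  · apply hconn
    have e := (hf.toHomeomorphOfSurjective hsurj).symm
    exact e.surjective.connectedSpace e.continuous
  · rw [Function.Surjective] at hsurj
    push Not at hsurj
    obtain ⟨x, hx⟩ := hsurj
    have hx' : x ∉ Set.range f := by
      rintro ⟨a, ha⟩
      exact hx a ha
    obtain ⟨H, hH⟩ := hKill (J ×ₗ Bool) L K t S f (by
      intro W hW
      have h1 : f ⁻¹' W ∈ nhds (0 : L) := by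
        have := hf.continuous.continuousAt (x := (0 : L))
        rw [ContinuousAt, map_zero] at this
        exact this hW
      obtain ⟨⟨s, n⟩, -, h2⟩ := hbasis.mem_iff.1 h1
      exact ⟨s, n, fun y hy => h2 hy⟩) (by
      have h1 : S.U ∅ 0 ∈ nhds (0 : L) := hbasis.mem_of_mem (i := (∅, 0)) trivial
      rw [hf.isInducing.nhds_eq_comap, map_zero] at h1
      obtain ⟨W, hW, h2⟩ := h1
      exact ⟨W, hW, fun y hy => h2 hy⟩) x hx'
    -- the chain of countable subfields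
    obtain ⟨j, hj⟩ := hClose J L (fun j => t.lt (toLex (j, false))) (by
      intro i j hij
      rcases hij.eq_or_lt with rfl | hij
      · exact le_rfl
      · exact ltlt (Prod.Lex.toLex_lt_toLex.2 (Or.inl hij))) (by
      intro j
      refine htc _ ?_
      have h1 : Set.Iio (toLex (j, false)) ⊆
          (fun p : J × Bool => (toLex p : J ×ₗ Bool)) '' (Set.Iio j ×ˢ Set.univ) := by
        intro y hy
        refine ⟨ofLex y, ⟨?_, trivial⟩, rfl⟩
        rcases Prod.Lex.lt_iff.1 hy with h | ⟨-, h⟩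
        · exact h
        · exact absurd h (by simp)
      exact (((hJc j).prod (Set.countable_univ)).image _).mono h1) (by
      intro r
      obtain ⟨γ, hγ⟩ := t.top r
      obtain ⟨j, hj⟩ := hJb {(ofLex γ).1} (Set.countable_singleton _)
      refine ⟨j, t.le_lt γ _ ?_ hγ⟩
      exact Prod.Lex.lt_iff.2 (Or.inl (hj _ rfl))) hJb (by
      intro i j hij r hr
      obtain ⟨δ, h1, h2, h3⟩ := t.find (toLex (i, false)) (toLex (j, false))
        (Prod.Lex.toLex_lt_toLex.2 (Or.inl hij)) r hr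
      refine ⟨(ofLex δ).1, ?_, ?_⟩
      · rcases Prod.Lex.lt_iff.1 h2 with h | ⟨-, h⟩
        · exact h
        · exact absurd h (by simp)
      · intro j' hj'
        exact t.le_lt δ (toLex (j', false)) (Prod.Lex.lt_iff.2 (Or.inl hj')) h3) H
    obtain ⟨s', n', hD⟩ := hH (toLex (j, false)) hj
    obtain ⟨D, m, hD1, hD2, hm, hmain⟩ := hMain (J ×ₗ Bool) L t S (toLex (j, false))
      (sys_false t d j) s' n'
    obtain ⟨s0, n0, hs0, hkill⟩ := hD D m hD1 hD2 hm
    -- a bound for the indices of the elements of `s'`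
    obtain ⟨b, hb⟩ : ∃ b : J, j ≤ b ∧ ∀ a ∈ s', a ∈ t.lt (toLex (b, false)) := by
      choose g hg using t.top
      obtain ⟨b, hb⟩ := hJb (insert j ((fun a => (ofLex (g a)).1) '' (s' : Set L)))
        ((s'.countable_toSet.image _).insert _)
      refine ⟨b, (hb j (Set.mem_insert _ _)).le, fun a ha => ?_⟩
      refine t.le_lt (g a) _ ?_ (hg a)
      exact Prod.Lex.lt_iff.2 (Or.inl (hb _ (Set.mem_insert_of_mem _ ⟨a, ha, rfl⟩)))
    obtain ⟨i, hi, hdi⟩ := hd (j, (s', n'), D, m, (s0, n0)) b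
    have hji : j ≤ i := hb.1.trans hi.le
    have hval : Valid t i (j, (s', n'), D, m, (s0, n0)) := by
      refine ⟨hji, fun a ha => ?_, hD1, hs0⟩
      exact ltlt (Prod.Lex.toLex_lt_toLex.2 (Or.inl hi)) (hb.2 a ha)
    have hG := sys_true t d i j s' n' D m s0 n0 hdi hval
    have h1 := hkill (toLex (i, true)) (lt_of_le' hji) hG
    refine hmain (toLex (i, true)) s0 n0 (lt_of_le' hji) hval.2.1 hs0 hG ?_
    refine Fin_.QC_mono ?_ h1
    rintro y ⟨γ, g, hg, -, -, r, hr, rfl⟩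
    exact ⟨γ, trivial, g, hg, r, by simpa using hr, rfl⟩

end Pool.Agent.NoExt
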