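import Pool.Agent.NoExt.Targets

set_option autoImplicit false

/-! Existence of good valuation rings (`tGood`). -/

namespace Pool.Agent.NoExt.GoodEx

open Polynomial

variable {I L : Type} [LinearOrder I] [Field L]

/-- the generators `z ε * c`, `c ∈ lt ε`, `ε ∈ A` -/
def Zs (t : Tower I L) (A : Set I) : Set L := {x | ∃ ε ∈ A, ∃ c ∈ t.lt ε, x = t.z ε * c}

/-- the ring without one generated by `Zs t A` -/
def J (t : Tower I L) (A : Set I) : NonUnitalSubring L := NonUnitalSubring.closure (Zs t A)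

theorem J_mono (t : Tower I L) {A B : Set I} (h : A ⊆ B) : J t A ≤ J t B := by
  refine NonUnitalSubring.closure_mono ?_
  rintro x ⟨ε, hε, c, hc, rfl⟩
  exact ⟨ε, h hε, c, hc, rfl⟩

theorem mem_J (t : Tower I L) {A : Set I} {ε : I} (hε : ε ∈ A) {c : L} (hc : c ∈ t.lt ε) :
    t.z ε * c ∈ J t A := NonUnitalSubring.subset_closure ⟨ε, hε, c, hc, rfl⟩

theorem J_union (t : Tower I L) (A : Set I) (x : L) (hx : x ∈ J t A) :
    x = 0 ∨ ∃ ε ∈ A, x ∈ J t (Set.Iic ε) := by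
  have key : ∀ x y : L, (x = 0 ∨ ∃ ε ∈ A, x ∈ J t (Set.Iic ε)) →
      (y = 0 ∨ ∃ ε ∈ A, y ∈ J t (Set.Iic ε)) → (x = 0 ∧ y = 0) ∨
      ∃ ε ∈ A, x ∈ J t (Set.Iic ε) ∧ y ∈ J t (Set.Iic ε) := by
    intro x y h1 h2
    rcases h1 with rfl | ⟨a, ha, hxa⟩
    · rcases h2 with rfl | ⟨b, hb, hyb⟩
      · exact Or.inl ⟨rfl, rfl⟩
      · exact Or.inr ⟨b, hb, zero_mem _, hyb⟩
    · rcases h2 with rfl | ⟨b, hb, hyb⟩
      · exact Or.inr ⟨a, ha, hxa, zero_mem _⟩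
      · rcases le_total a b with h | h
        · exact Or.inr ⟨b, hb, J_mono t (Set.Iic_subset_Iic.2 h) hxa, hyb⟩
        · exact Or.inr ⟨a, ha, hxa, J_mono t (Set.Iic_subset_Iic.2 h) hyb⟩
  refine NonUnitalSubring.closure_induction (s := Zs t A)
    (p := fun x _ => x = 0 ∨ ∃ ε ∈ A, x ∈ J t (Set.Iic ε)) ?_ ?_ ?_ ?_ ?_ hx
  · rintro x ⟨ε, hε, c, hc, rfl⟩
    exact Or.inr ⟨ε, hε, mem_J t (Set.mem_Iic.2 le_rfl) hc⟩
  · exact Or.inl rfl
  · intro x y _ _ h1 h2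
    rcases key x y h1 h2 with ⟨rfl, rfl⟩ | ⟨ε, hε, h3, h4⟩
    · exact Or.inl (add_zero 0)
    · exact Or.inr ⟨ε, hε, add_mem h3 h4⟩
  · intro x _ h1
    rcases h1 with rfl | ⟨ε, hε, h⟩
    · exact Or.inl neg_zero
    · exact Or.inr ⟨ε, hε, neg_mem h⟩
  · intro x y _ _ h1 h2
    rcases key x y h1 h2 with ⟨rfl, rfl⟩ | ⟨ε, hε, h3, h4⟩
    · exact Or.inl (mul_zero 0)
    · exact Or.inr ⟨ε, hε, mul_mem h3 h4⟩

theorem lt_mono (t : Tower I L) {a b : I} (h : a ≤ b) : t.lt a ≤ t.lt b := by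
  rcases h.lt_or_eq with h | rfl
  · exact (t.lt_le a).trans (t.le_lt a b h)
  · exact le_rfl

theorem J_lt (t : Tower I L) (δ : I) (x : L) (hx : x ∈ J t (Set.Iio δ)) : x ∈ t.lt δ := by
  refine NonUnitalSubring.closure_induction (s := Zs t (Set.Iio δ))
    (p := fun x _ => x ∈ t.lt δ) ?_ ?_ ?_ ?_ ?_ hx
  · rintro x ⟨ε, hε, c, hc, rfl⟩
    exact mul_mem (t.le_lt ε δ hε (t.z_mem ε)) (lt_mono t (le_of_lt hε) hc)
  · exact zero_mem _
  · intro x y _ _ h1 h2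
    exact add_mem h1 h2
  · intro x _ h1
    exact neg_mem h1
  · intro x y _ _ h1 h2
    exact mul_mem h1 h2

theorem coeff_mul_mem {F : Subfield L} {p q : L[X]} (hp : ∀ n, p.coeff n ∈ F)
    (hq : ∀ n, q.coeff n ∈ F) (n : ℕ) : (p * q).coeff n ∈ F := by
  rw [coeff_mul]
  exact sum_mem fun i _ => mul_mem (hp _) (hq _)

theorem coeff_C_mem {F : Subfield L} {a : L} (ha : a ∈ F) (n : ℕ) : (C a : L[X]).coeff n ∈ F := by
  rw [coeff_C]
  split_ifs
  · exact ha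
  · exact zero_mem _

theorem coeff_X_mem {F : Subfield L} (n : ℕ) : (X : L[X]).coeff n ∈ F := by
  rw [coeff_X]
  split_ifs
  · exact one_mem _
  · exact zero_mem _

theorem coeff_add_mem {F : Subfield L} {p q : L[X]} (hp : ∀ n, p.coeff n ∈ F)
    (hq : ∀ n, q.coeff n ∈ F) (n : ℕ) : (p + q).coeff n ∈ F := by
  rw [coeff_add]
  exact add_mem (hp _) (hq _)

theorem J_poly (t : Tower I L) (δ : I) (x : L) (hx : x ∈ J t (Set.Iic δ)) :
    ∃ j ∈ J t (Set.Iio δ), ∃ p : L[X], (∀ n, p.coeff n ∈ t.lt δ) ∧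
      x = j + t.z δ * p.eval (t.z δ) := by
  refine NonUnitalSubring.closure_induction (s := Zs t (Set.Iic δ))
    (p := fun x _ => ∃ j ∈ J t (Set.Iio δ), ∃ p : L[X], (∀ n, p.coeff n ∈ t.lt δ) ∧
      x = j + t.z δ * p.eval (t.z δ)) ?_ ?_ ?_ ?_ ?_ hx
  · rintro x ⟨ε, hε, c, hc, rfl⟩
    rcases lt_or_eq_of_le (Set.mem_Iic.1 hε) with h | rfl
    · exact ⟨t.z ε * c, mem_J t (Set.mem_Iio.2 h) hc, 0, fun n => by simp, by simp⟩
    · exact ⟨0, zero_mem _, C c, coeff_C_mem hc, by simp⟩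
  · exact ⟨0, zero_mem _, 0, fun n => by simp, by simp⟩
  · rintro x y _ _ ⟨j, hj, p, hp, rfl⟩ ⟨k, hk, q, hq, rfl⟩
    refine ⟨j + k, add_mem hj hk, p + q, coeff_add_mem hp hq, ?_⟩
    rw [eval_add]
    ring
  · rintro x _ ⟨j, hj, p, hp, rfl⟩
    refine ⟨-j, neg_mem hj, -p, fun n => ?_, ?_⟩
    · rw [coeff_neg]
      exact neg_mem (hp n)
    · rw [eval_neg]
      ring
  · rintro x y _ _ ⟨j, hj, p, hp, rfl⟩ ⟨k, hk, q, hq, rfl⟩
    refine ⟨j * k, mul_mem hj hk, C j * q + C k * p + X * (p * q),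
      coeff_add_mem (coeff_add_mem (coeff_mul_mem (coeff_C_mem (J_lt t δ j hj)) hq)
        (coeff_mul_mem (coeff_C_mem (J_lt t δ k hk)) hp))
        (coeff_mul_mem coeff_X_mem (coeff_mul_mem hp hq)), ?_⟩
    simp only [eval_add, eval_mul, eval_C, eval_X]
    ring

theorem one_notMem [WellFoundedLT I] (t : Tower I L) (δ : I) : (1 : L) ∉ J t (Set.Iic δ) := by
  induction δ using WellFoundedLT.induction with
  | ind δ ih =>
    intro h1
    obtain ⟨j, hj, p, hp, he⟩ := J_poly t δ 1 h1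
    have hq : X * p + C (j - 1) = 0 := by
      refine t.transc δ _ (coeff_add_mem (coeff_mul_mem coeff_X_mem hp)
        (coeff_C_mem (sub_mem (J_lt t δ j hj) (one_mem _)))) ?_
      simp only [eval_add, eval_mul, eval_C, eval_X]
      linear_combination -he
    have h0 := congrArg (fun r : L[X] => r.coeff 0) hq
    simp only [coeff_add, coeff_zero, coeff_C_zero, mul_coeff_zero, coeff_X_zero, zero_mul,
      zero_add] at h0
    have hj1 : j = 1 := by linear_combination h0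
    rw [hj1] at hj
    rcases J_union t _ _ hj with h | ⟨ε, hε, h⟩
    · exact one_ne_zero h
    · exact ih ε hε h

theorem one_notMem' [WellFoundedLT I] (t : Tower I L) (A : Set I) : (1 : L) ∉ J t A := by
  intro h
  rcases J_union t _ _ h with h | ⟨ε, _, h⟩
  · exact one_ne_zero h
  · exact one_notMem t ε h

theorem mul_mem_J (t : Tower I L) (γ : I) {c : L} (hc : c ∈ t.lt γ) (x : L)
    (hx : x ∈ J t (Set.Ici γ)) : c * x ∈ J t (Set.Ici γ) := by
  refine NonUnitalSubring.closure_induction (s := Zs t (Set.Ici γ))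
    (p := fun x _ => c * x ∈ J t (Set.Ici γ)) ?_ ?_ ?_ ?_ ?_ hx
  · rintro x ⟨ε, hε, d, hd, rfl⟩
    rw [mul_left_comm]
    exact mem_J t hε (mul_mem (lt_mono t hε hc) hd)
  · rw [mul_zero]
    exact zero_mem _
  · intro x y _ _ h1 h2
    rw [mul_add]
    exact add_mem h1 h2
  · intro x _ h1
    rw [mul_neg]
    exact neg_mem h1
  · intro x y _ hy h1 h2
    rw [← mul_assoc]
    exact mul_mem h1 hy

/-- the ring `lt γ + J` -/
def R (t : Tower I L) (γ : I) : Subring L where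
  carrier := {x | ∃ c ∈ t.lt γ, ∃ j ∈ J t (Set.Ici γ), x = c + j}
  zero_mem' := ⟨0, zero_mem _, 0, zero_mem _, (add_zero 0).symm⟩
  one_mem' := ⟨1, one_mem _, 0, zero_mem _, (add_zero 1).symm⟩
  add_mem' := by
    rintro x y ⟨c, hc, j, hj, rfl⟩ ⟨d, hd, k, hk, rfl⟩
    exact ⟨c + d, add_mem hc hd, j + k, add_mem hj hk, by ring⟩
  neg_mem' := by
    rintro x ⟨c, hc, j, hj, rfl⟩
    exact ⟨-c, neg_mem hc, -j, neg_mem hj, by ring⟩
  mul_mem' := by
    rintro x y ⟨c, hc, j, hj, rfl⟩ ⟨d, hd, k, hk, rfl⟩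
    refine ⟨c * d, mul_mem hc hd, c * k + d * j + j * k,
      add_mem (add_mem (mul_mem_J t γ hc k hk) (mul_mem_J t γ hd j hj)) (mul_mem hj hk), by ring⟩

/-- the ideal `J` of `R` -/
def M (t : Tower I L) (γ : I) : Ideal (R t γ) where
  carrier := {x | (x : L) ∈ J t (Set.Ici γ)}
  zero_mem' := zero_mem (J t (Set.Ici γ))
  add_mem' := by
    intro x y hx hy
    exact (J t (Set.Ici γ)).add_mem hx hy
  smul_mem' := by
    rintro ⟨x, c, hc, j, hj, rfl⟩ ⟨y, hy'⟩ hy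
    change (c + j) * y ∈ J t (Set.Ici γ)
    rw [add_mul]
    exact add_mem (mul_mem_J t γ hc y hy) (mul_mem hj hy)

theorem pGood : tGood := by
  intro I L _ _ _ t γ
  have hM : M t γ ≠ ⊤ := by
    intro h
    have h1 : (1 : R t γ) ∈ M t γ := by
      rw [h]
      exact Submodule.mem_top
    exact one_notMem' t _ h1
  obtain ⟨v, h1, h2⟩ := Ideal.image_subset_nonunits_valuationSubring (M t γ) hM
  refine ⟨v, fun c hc => h1 ⟨c, hc, 0, zero_mem _, (add_zero c).symm⟩, fun δ hδ c hc => ?_⟩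
  have hj : t.z δ * c ∈ J t (Set.Ici γ) := mem_J t hδ hc
  rw [← ValuationSubring.mem_nonunits_iff]
  exact h2 ⟨⟨t.z δ * c, 0, zero_mem _, t.z δ * c, hj, (zero_add _).symm⟩, hj, rfl⟩

end Pool.Agent.NoExt.GoodEx
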