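import Pool.Agent.NoExt.Targets

/-!
# NX11: the killing argument in an extension
-/

set_option autoImplicit false

namespace Pool.Agent.NoExt

open Polynomial Topology

namespace Kill_

/-- a continuous binary operation is small near `0` -/
theorem nb2 {K : Type} [Zero K] [TopologicalSpace K] (F : K → K → K)
    (hF : Continuous fun p : K × K => F p.1 p.2) (h0 : F 0 0 = 0) {W : Set K}
    (hW : W ∈ 𝓝 (0 : K)) : ∃ V ∈ 𝓝 (0 : K), ∀ p ∈ V, ∀ q ∈ V, F p q ∈ W := by
  have h1 : Filter.Tendsto (fun p : K × K => F p.1 p.2) (𝓝 ((0 : K), (0 : K))) (𝓝 0) :=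
    hF.tendsto' _ _ h0
  have h2 := h1 hW
  rw [nhds_prod_eq, Filter.mem_map, Filter.mem_prod_iff] at h2
  obtain ⟨V1, hV1, V2, hV2, h3⟩ := h2
  refine ⟨V1 ∩ V2, Filter.inter_mem hV1 hV2, fun p hp q hq => ?_⟩
  exact h3 (show (p, q) ∈ V1 ×ˢ V2 from ⟨hp.1, hq.2⟩)

/-- sequences of neighbourhoods with small finite sums -/
theorem seq {K : Type} [Field K] [TopologicalSpace K] [IsTopologicalRing K] {W : Set K}
    (hW : W ∈ 𝓝 (0 : K)) : ∃ U : ℕ → Set K, (∀ i, U i ∈ 𝓝 (0 : K)) ∧
      ∀ (m : ℕ) (p : ℕ → K), (∀ i < m, p i ∈ U i) → ∑ i ∈ Finset.range m, p i ∈ W := by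
  have hex : ∀ A : {A : Set K // A ∈ 𝓝 (0 : K)}, ∃ B : {A : Set K // A ∈ 𝓝 (0 : K)},
      ∀ p ∈ B.1, ∀ q ∈ B.1, p + q ∈ A.1 := by
    intro A
    obtain ⟨V, hV, h⟩ := nb2 (fun p q : K => p + q) (by fun_prop) (by simp) A.2
    exact ⟨⟨V, hV⟩, h⟩
  choose g hg using hex
  let V : ℕ → {A : Set K // A ∈ 𝓝 (0 : K)} := fun i => g^[i] ⟨W, hW⟩
  have hV : ∀ i, ∀ p ∈ (V (i + 1)).1, ∀ q ∈ (V (i + 1)).1, p + q ∈ (V i).1 := by
    intro i
    have h1 : V (i + 1) = g (V i) := Function.iterate_succ_apply' g i _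
    rw [h1]
    exact hg (V i)
  refine ⟨fun i => (V (i + 1)).1, fun i => (V (i + 1)).2, ?_⟩
  have key : ∀ (m j : ℕ) (p : ℕ → K), (∀ i < m, p i ∈ (V (j + i + 1)).1) →
      ∑ i ∈ Finset.range m, p i ∈ (V j).1 := by
    intro m
    induction m with
    | zero =>
      intro j p _
      rw [Finset.sum_range_zero]
      exact mem_of_mem_nhds (V j).2
    | succ m ih =>
      intro j p hp
      rw [Finset.sum_range_succ', add_comm]
      refine hV j _ (hp 0 (Nat.succ_pos m)) _ ?_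
      refine ih (j + 1) (fun i => p (i + 1)) fun i hi => ?_
      have h1 := hp (i + 1) (by omega)
      have h2 : j + (i + 1) + 1 = j + 1 + i + 1 := by omega
      rw [h2] at h1
      exact h1
  intro m p hp
  refine key m 0 p fun i hi => ?_
  rw [Nat.zero_add]
  exact hp i hi

/-- the value of a polynomial at a point outside an algebraically closed subfield -/
theorem eval_ne {L K : Type} [Field L] [IsAlgClosed L] [Field K] (f : L →+* K) {x : K}
    (hx : x ∉ Set.range f) {D : L[X]} (hD : D ≠ 0) : (D.map f).eval x ≠ 0 := by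
  intro h
  have h1 : D.map f ≠ 0 := (Polynomial.map_ne_zero_iff f.injective).2 hD
  have h2 : x ∈ (D.map f).roots := (Polynomial.mem_roots h1).2 h
  have h3 := Polynomial.Splits.roots_map (IsAlgClosed.splits D) f
  rw [h3, Multiset.mem_map] at h2
  obtain ⟨r, -, hr⟩ := h2
  exact hx ⟨r, hr⟩

/-- the difference quotient -/
theorem diff {L K : Type} [Field L] [Field K] (f : L →+* K) (D : L[X]) (a : L) (x : K) :
    (x - f a) * ∑ i ∈ Finset.range D.natDegree, f (dl D a i) * x ^ i =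
      (D.map f).eval x - f (D.eval a) := by
  have h1 : (D.map f).eval x = ∑ k ∈ Finset.range (D.natDegree + 1), f (D.coeff k) * x ^ k := by
    rw [eval_map, eval₂_eq_sum_range]
  have h2 : f (D.eval a) = ∑ k ∈ Finset.range (D.natDegree + 1), f (D.coeff k) * f a ^ k := by
    rw [eval_eq_sum_range, map_sum]
    exact Finset.sum_congr rfl fun k _ => by rw [map_mul, map_pow]
  have h3 : ∑ i ∈ Finset.range D.natDegree, f (dl D a i) * x ^ i =
      ∑ k ∈ Finset.range (D.natDegree + 1), ∑ i ∈ Finset.range k,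
        f (D.coeff k) * (x ^ i * f a ^ (k - 1 - i)) := by
    have h4 : ∀ i ∈ Finset.range D.natDegree, f (dl D a i) * x ^ i =
        ∑ k ∈ Finset.Ioc i D.natDegree, f (D.coeff k) * (x ^ i * f a ^ (k - 1 - i)) := by
      intro i _
      unfold dl
      rw [map_sum, Finset.sum_mul]
      refine Finset.sum_congr rfl fun k _ => ?_
      rw [map_mul, map_pow]
      ring
    rw [Finset.sum_congr rfl h4]
    refine Finset.sum_comm' ?_
    intro i k
    simp only [Finset.mem_range, Finset.mem_Ioc]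
    omega
  rw [h3, h1, h2, ← Finset.sum_sub_distrib, Finset.mul_sum]
  refine Finset.sum_congr rfl fun k _ => ?_
  rw [← Finset.mul_sum, ← mul_sub, ← (Commute.all x (f a)).mul_geom_sum₂ k]
  ring

/-- the identity -/
theorem ident {L K : Type} [Field L] [Field K] (f : L →+* K) (D : L[X]) (a z : L) (x : K) (m : ℕ)
    (ha : a ≠ 0) (hDa : D.eval a ≠ 0) (hDx : (D.map f).eval x ≠ 0) (hxa : x - f a ≠ 0)
    (hm : 1 ≤ m) :
    f (z ^ 5 / (a * D.eval a)) =
      -((f (z ^ 2) / (x - f a)) * (x ^ 0 / (D.map f).eval x * f (z ^ 3) -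
          x ^ m * f (z ^ 3 / (a ^ m * D.eval a))) +
        ((∑ i ∈ Finset.range m, if i = 0 then 0 else
            x ^ i * f (z ^ 5 / (a ^ (1 + i) * D.eval a))) +
          ∑ i ∈ Finset.range D.natDegree,
            x ^ i / (D.map f).eval x * f (z ^ 5 * dl D a i / D.eval a))) := by
  have hfa : f a ≠ 0 := (map_ne_zero f).2 ha
  have hfD : f (D.eval a) ≠ 0 := (map_ne_zero f).2 hDa
  obtain ⟨m, rfl⟩ : ∃ k, m = k + 1 := ⟨m - 1, by omega⟩
  have e1 : ∑ i ∈ Finset.range D.natDegree,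
      x ^ i / (D.map f).eval x * f (z ^ 5 * dl D a i / D.eval a) =
      f z ^ 5 / ((D.map f).eval x * f (D.eval a)) *
        (((D.map f).eval x - f (D.eval a)) / (x - f a)) := by
    rw [← diff f D a x, mul_div_cancel_left₀ _ hxa, Finset.mul_sum]
    refine Finset.sum_congr rfl fun i _ => ?_
    rw [map_div₀, map_mul, map_pow]
    field_simp
  have e2 : (∑ i ∈ Finset.range (m + 1), if i = 0 then 0 else
      x ^ i * f (z ^ 5 / (a ^ (1 + i) * D.eval a))) =
      f z ^ 5 / (f a ^ (m + 1) * f (D.eval a)) * ((x ^ (m + 1) - f a ^ (m + 1)) / (x - f a)) -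
        f z ^ 5 / (f a * f (D.eval a)) := by
    rw [← (Commute.all x (f a)).mul_geom_sum₂ (m + 1), mul_div_cancel_left₀ _ hxa, Finset.mul_sum,
      Finset.sum_range_succ', Finset.sum_range_succ']
    simp only [if_true, add_zero]
    have h1 : f z ^ 5 / (f a ^ (m + 1) * f (D.eval a)) * (x ^ 0 * f a ^ (m + 1 - 1 - 0)) =
        f z ^ 5 / (f a * f (D.eval a)) := by
      have : m + 1 - 1 - 0 = m := by omega
      rw [this]
      field_simp
      ring
    rw [h1, add_sub_cancel_right]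
    refine Finset.sum_congr rfl fun i hi => ?_
    rw [if_neg (Nat.succ_ne_zero i)]
    have hi' := Finset.mem_range.1 hi
    have h2 : f a ^ (m + 1) = f a ^ (1 + (i + 1)) * f a ^ (m + 1 - 1 - (i + 1)) := by
      rw [← pow_add]
      congr 1
      omega
    rw [h2, map_div₀, map_mul, map_pow, map_pow]
    field_simp
  rw [e1, e2, map_div₀, map_div₀, map_mul, map_mul, map_pow, map_pow, map_pow, map_pow]
  field_simp
  ring

/-- membership of a generator in a basic neighbourhood -/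
theorem memU {I L : Type} [LinearOrder I] [Field L] {t : Tower I L} (S : Sys t) {γ : I} {e : L}
    {s0 s : Finset L} {n0 n : ℕ} (hg : (e, s0, n0) ∈ S.G γ) (hs : s ⊆ s0) (hn : n ≤ n0) :
    e ∈ S.U s n := by
  refine QC.base _ ⟨γ, (e, s0, n0), hg, hs, hn, 1, ?_, (one_mul e).symm⟩
  exact ⟨[], by simp, by simp, by simp⟩

end Kill_

open Classical Kill_ in
/-- NX11 -/
theorem pKill : tKill := by
  intro I L K _ _ _ _ _ _ t S f h1 h2 x hx
  obtain ⟨W0, hW0, h0⟩ := h2
  obtain ⟨W1, hW1, hneg⟩ := nb2 (fun p q : K => -(p + q)) (by fun_prop) (by simp) hW0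
  obtain ⟨T1, hT1, hmul⟩ := nb2 (fun p q : K => p * q) (by fun_prop) (by simp) hW1
  obtain ⟨T2, hT2, hsub⟩ := nb2 (fun p q : K => p - q) (by fun_prop) (by simp) hT1
  obtain ⟨W2, hW2, hadd⟩ := nb2 (fun p q : K => p + q) (by fun_prop) (by simp) hW1
  obtain ⟨U, hU, hsum⟩ := seq hW2
  set T : Set K := T1 ∩ T2 with hTdef
  have hT : T ∈ 𝓝 (0 : K) := Filter.inter_mem hT1 hT2
  -- small multiples
  have hc : ∀ (c : K) (W : Set K), W ∈ 𝓝 (0 : K) →
      ∃ (s : Finset L) (n : ℕ), ∀ y ∈ S.U s n, c * f y ∈ W := by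
    intro c W hW
    have h3 : Filter.Tendsto (fun y : K => c * y) (𝓝 0) (𝓝 0) :=
      (by fun_prop : Continuous fun y : K => c * y).tendsto' _ _ (by simp)
    obtain ⟨s, n, h4⟩ := h1 _ (h3 hW)
    exact ⟨s, n, fun y hy => h4 y hy⟩
  have hH : ∀ q : L[X] × ℕ, ∃ (s : Finset L) (n : ℕ), ∀ y ∈ S.U s n,
      x ^ q.2 / (q.1.map f).eval x * f y ∈ U q.2 ∩ T := fun q =>
    hc _ _ (Filter.inter_mem (hU q.2) hT)
  choose H h hHh using hH
  refine ⟨H, fun j hj => ?_⟩
  obtain ⟨s', n', hs'⟩ := hc (1 / (x - f (t.z j))) T hT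
  refine ⟨s', n', fun D m hD hD0 hm => ?_⟩
  have hone : ∀ n, (1 : L[X]).coeff n ∈ t.lt j := by
    intro n
    rw [coeff_one]
    split_ifs
    · exact (t.lt j).one_mem
    · exact (t.lt j).zero_mem
  set s0 : Finset L := ((Finset.range (m + 1)).biUnion fun i => H (1, i)) ∪
    ((Finset.range (D.natDegree + 1)).biUnion fun i => H (D, i)) with hs0
  set n0 : ℕ := (∑ i ∈ Finset.range (m + 1), h (1, i)) +
    ∑ i ∈ Finset.range (D.natDegree + 1), h (D, i) with hn0
  have l1 : ∀ i < m + 1, H (1, i) ⊆ s0 ∧ h (1, i) ≤ n0 := by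
    intro i hi
    constructor
    · intro b hb
      exact Finset.mem_union_left _ (Finset.mem_biUnion.2 ⟨i, Finset.mem_range.2 hi, hb⟩)
    · have h3 := Finset.single_le_sum (f := fun i => h (1, i)) (fun i _ => Nat.zero_le _)
        (Finset.mem_range.2 hi)
      exact h3.trans (Nat.le_add_right _ _)
  have l2 : ∀ i < D.natDegree + 1, H (D, i) ⊆ s0 ∧ h (D, i) ≤ n0 := by
    intro i hi
    constructor
    · intro b hb
      exact Finset.mem_union_right _ (Finset.mem_biUnion.2 ⟨i, Finset.mem_range.2 hi, hb⟩)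
    · have h3 := Finset.single_le_sum (f := fun i => h (D, i)) (fun i _ => Nat.zero_le _)
        (Finset.mem_range.2 hi)
      exact h3.trans (Nat.le_add_left _ _)
  refine ⟨s0, n0, ?_, ?_⟩
  · intro b hb
    rcases Finset.mem_union.1 hb with hb | hb
    · obtain ⟨i, -, hi⟩ := Finset.mem_biUnion.1 hb
      exact hj 1 hone i b hi
    · obtain ⟨i, -, hi⟩ := Finset.mem_biUnion.1 hb
      exact hj D hD i b hi
  intro γ _hγ hG
  have ha : t.z j ≠ 0 := by
    intro h3
    have hX : ∀ n, (X : L[X]).coeff n ∈ t.lt j := by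
      intro n
      rw [coeff_X]
      split_ifs
      · exact (t.lt j).one_mem
      · exact (t.lt j).zero_mem
    exact X_ne_zero (t.transc j X hX (by rw [eval_X, h3]))
  have hDa : D.eval (t.z j) ≠ 0 := fun h3 => hD0 (t.transc j D hD h3)
  have hDx : (D.map f).eval x ≠ 0 := eval_ne f hx hD0
  have hxa : x - f (t.z j) ≠ 0 := fun h3 => hx ⟨t.z j, (sub_eq_zero.1 h3).symm⟩
  refine h0 _ ?_
  rw [ident f D (t.z j) (t.z γ) x m ha hDa hDx hxa hm]
  refine hneg _ (hmul _ ?_ _ ?_) _ (hadd _ ?_ _ ?_)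
  · -- `z² / (x - a)`
    have h3 : t.z γ ^ 2 ∈ S.U s' n' := by
      refine memU S (γ := γ) (s0 := s') (n0 := n') ?_ (Finset.Subset.refl _) le_rfl
      rw [hG]
      left
      left
      simp
    have h4 := hs' _ h3
    rw [one_div_mul_eq_div] at h4
    exact h4.1
  · refine hsub _ ?_ _ ?_
    · have h3 : t.z γ ^ 3 ∈ S.U (H (D, 0)) (h (D, 0)) := by
        refine memU S (γ := γ) (s0 := s0) (n0 := n0) ?_ (l2 0 (by omega)).1 (l2 0 (by omega)).2
        rw [hG]
        left
        left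
        simp
      exact (hHh (D, 0) _ h3).2.2
    · have h3 : t.z γ ^ 3 / (t.z j ^ m * D.eval (t.z j)) ∈ S.U (H (1, m)) (h (1, m)) := by
        refine memU S (γ := γ) (s0 := s0) (n0 := n0) ?_ (l1 m (by omega)).1 (l1 m (by omega)).2
        rw [hG]
        left
        left
        simp
      have h4 := (hHh (1, m) _ h3).2.2
      simpa using h4
  · refine hsum m _ fun i hi => ?_
    split_ifs with hi0
    · exact mem_of_mem_nhds (hU i)
    · have h3 : t.z γ ^ 5 / (t.z j ^ (1 + i) * D.eval (t.z j)) ∈ S.U (H (1, i)) (h (1, i)) := by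
        refine memU S (γ := γ) (s0 := s0) (n0 := n0) ?_ (l1 i (by omega)).1 (l1 i (by omega)).2
        rw [hG]
        left
        right
        exact ⟨i, by omega, hi, rfl⟩
      have h4 := (hHh (1, i) _ h3).1
      simpa using h4
  · refine hsum D.natDegree _ fun i hi => ?_
    have h3 : t.z γ ^ 5 * dl D (t.z j) i / D.eval (t.z j) ∈ S.U (H (D, i)) (h (D, i)) := by
      refine memU S (γ := γ) (s0 := s0) (n0 := n0) ?_ (l2 i (by omega)).1 (l2 i (by omega)).2
      rw [hG]
      right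
      exact ⟨i, hi, rfl⟩
    exact (hHh (D, i) _ h3).1

end Pool.Agent.NoExt
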