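import Pool.Agent.NoExt.Targets

set_option autoImplicit false

/-! NX9, the main lemma (helper72). -/

namespace Pool.Agent.NoExt

namespace MainL

open Polynomial

section
variable {I L : Type} [LinearOrder I] [Field L] {t : Tower I L}

/-- the additive group of a basic neighbourhood -/
def Vg (S : Sys t) (A : Set I) : AddSubgroup L where
  carrier := S.V A
  zero_mem' := QC.zero
  add_mem' := fun {x y} hx hy => QC.add x y hx hy
  neg_mem' := fun {x} hx => QC.neg x hx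

lemma V_mul (S : Sys t) (A : Set I) {x y : L} (hx : x ∈ S.V A) (hy : y ∈ S.V A) :
    x * y ∈ S.V A := QC.mul x y hx hy

lemma V_add (S : Sys t) (A : Set I) {x y : L} (hx : x ∈ S.V A) (hy : y ∈ S.V A) :
    x + y ∈ S.V A := QC.add x y hx hy

lemma V_zmul (S : Sys t) (A : Set I) (k : ℤ) {x : L} (hx : x ∈ S.V A) : (k : L) * x ∈ S.V A := by
  have : k • x ∈ Vg S A := AddSubgroup.zsmul_mem _ hx k
  rwa [zsmul_eq_mul] at this

lemma QC_mono {E E' : Set L} (h : E ⊆ E') {x : L} (hx : QC E x) : QC E' x := by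
  induction hx with
  | base x hx => exact QC.base x (h hx)
  | zero => exact QC.zero
  | add x y _ _ ihx ihy => exact QC.add x y ihx ihy
  | neg x _ ih => exact QC.neg x ih
  | mul x y _ _ ihx ihy => exact QC.mul x y ihx ihy
  | inv x _ ih => exact QC.inv x ih

lemma E_mono (S : Sys t) {A B : Set I} (h : A ⊆ B) : S.E A ⊆ S.E B := by
  rintro y ⟨γ, hγ, g, hg, r, hr, rfl⟩
  exact ⟨γ, h hγ, g, hg, r, hr, rfl⟩

lemma V_mono (S : Sys t) {A B : Set I} (h : A ⊆ B) : S.V A ⊆ S.V B := fun _ hx =>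
  QC_mono (E_mono S h) hx

lemma eval_mem (F : Subfield L) (p : L[X]) (hp : ∀ m, p.coeff m ∈ F) {z : L} (hz : z ∈ F) :
    p.eval z ∈ F := by
  rw [Polynomial.eval_eq_sum_range]
  exact sum_mem (fun i _ => mul_mem (hp i) (pow_mem hz i))

lemma lprod_mem (F : Subfield L) (l : List L) (h : ∀ a ∈ l, a ∈ F) : l.prod ∈ F :=
  list_prod_mem h

lemma Mm_mem (F : Subfield L) (s : Finset L) (n : ℕ) (h : ∀ a ∈ s, a ∈ F) {r : L}
    (hr : r ∈ Mm s n) : r ∈ F := by
  obtain ⟨l, -, hl, rfl⟩ := hr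
  exact lprod_mem F l (fun a ha => h a (hl a ha))

lemma QC_mem (F : Subfield L) {E : Set L} (hE : ∀ x ∈ E, x ∈ F) {x : L} (hx : QC E x) :
    x ∈ F := by
  induction hx with
  | base x hx => exact hE x hx
  | zero => exact zero_mem F
  | add x y _ _ ihx ihy => exact add_mem ihx ihy
  | neg x _ ih => exact neg_mem ih
  | mul x y _ _ ihx ihy => exact mul_mem ihx ihy
  | inv x _ ih => exact sub_mem (inv_mem (add_mem (one_mem F) ih)) (one_mem F)

lemma V_lt (S : Sys t) (γ : I) {w : L} (hw : w ∈ S.V (Set.Iio γ)) : w ∈ t.lt γ := by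
  refine QC_mem _ ?_ hw
  rintro y ⟨δ, hδ, g, hg, r, hr, rfl⟩
  have h1 : r ∈ t.lt δ := Mm_mem _ _ _ (S.lev δ g hg) hr
  obtain ⟨p, hp, -, hpe⟩ := S.pol δ g hg
  have h2 : g.1 ∈ t.le δ := by
    rw [hpe]
    exact eval_mem _ p (fun m => t.lt_le δ (hp m)) (t.z_mem δ)
  exact t.le_lt δ γ hδ (mul_mem (t.lt_le δ h1) h2)

/-- `ℤ + V (Iio γ)` -/
def Vp (S : Sys t) (γ : I) : Subring L where
  carrier := {w | ∃ k : ℤ, ∃ w' ∈ S.V (Set.Iio γ), w = k + w'}
  mul_mem' := by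
    rintro _ _ ⟨k, x, hx, rfl⟩ ⟨l, y, hy, rfl⟩
    refine ⟨k * l, (k : L) * y + ((l : L) * x + x * y),
      V_add S _ (V_zmul S _ k hy) (V_add S _ (V_zmul S _ l hx) (V_mul S _ hx hy)), ?_⟩
    push_cast
    ring
  one_mem' := ⟨1, 0, QC.zero, by simp⟩
  add_mem' := by
    rintro _ _ ⟨k, x, hx, rfl⟩ ⟨l, y, hy, rfl⟩
    refine ⟨k + l, x + y, V_add S _ hx hy, ?_⟩
    push_cast
    ring
  zero_mem' := ⟨0, 0, QC.zero, by simp⟩
  neg_mem' := by
    rintro _ ⟨k, x, hx, rfl⟩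
    refine ⟨-k, -x, QC.neg x hx, ?_⟩
    push_cast
    ring

lemma V_Vp (S : Sys t) (γ : I) {w : L} (hw : w ∈ S.V (Set.Iio γ)) : w ∈ Vp S γ :=
  ⟨0, w, hw, by simp⟩

lemma Vp_lt (S : Sys t) (γ : I) {w : L} (hw : w ∈ Vp S γ) : w ∈ t.lt γ := by
  obtain ⟨k, x, hx, rfl⟩ := hw
  exact add_mem (intCast_mem _ k) (V_lt S γ hx)

lemma closure_mul {G H M : Set L} (h : ∀ x ∈ G, ∀ y ∈ H, x * y ∈ AddSubgroup.closure M)
    {x y : L} (hx : x ∈ AddSubgroup.closure G) (hy : y ∈ AddSubgroup.closure H) :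
    x * y ∈ AddSubgroup.closure M := by
  induction hx using AddSubgroup.closure_induction with
  | mem x hx =>
    induction hy using AddSubgroup.closure_induction with
    | mem y hy => exact h x hx y hy
    | zero => rw [mul_zero]; exact zero_mem _
    | add y z _ _ hy hz => rw [mul_add]; exact add_mem hy hz
    | neg y _ hy => rw [mul_neg]; exact neg_mem hy
  | zero => rw [zero_mul]; exact zero_mem _
  | add x z _ _ hx hz => rw [add_mul]; exact add_mem hx hz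
  | neg x _ hx => rw [neg_mul]; exact neg_mem hx

lemma closure_smul {G : Set L} {w : L} (h : ∀ x ∈ G, w * x ∈ AddSubgroup.closure G)
    {x : L} (hx : x ∈ AddSubgroup.closure G) : w * x ∈ AddSubgroup.closure G := by
  induction hx using AddSubgroup.closure_induction with
  | mem x hx => exact h x hx
  | zero => rw [mul_zero]; exact zero_mem _
  | add x z _ _ hx hz => rw [mul_add]; exact add_mem hx hz
  | neg x _ hx => rw [mul_neg]; exact neg_mem hx

lemma closure_sub {G : Set L} (F : Subfield L) (h : ∀ x ∈ G, x ∈ F)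
    {x : L} (hx : x ∈ AddSubgroup.closure G) : x ∈ F := by
  induction hx using AddSubgroup.closure_induction with
  | mem x hx => exact h x hx
  | zero => exact zero_mem _
  | add x z _ _ hx hz => exact add_mem hx hz
  | neg x _ hx => exact neg_mem hx

/-- generators of `Λ 2` -/
def G2 (S : Sys t) (γ : I) (R : Set L) : Set L := {x | ∃ w ∈ Vp S γ, ∃ r ∈ R, x = w * r}

/-- generators of `Λ 3` -/
def G3 (S : Sys t) (γ : I) (R0 : Set L) (e : L) : Set L :=
  {x | ∃ w ∈ Vp S γ, ∃ r ∈ R0, x = w * r ∨ x = w * (r / e)}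

/-- generators of `Λ 5` -/
def G5 (S : Sys t) (γ : I) (R R0 : Set L) (a : L) (D : L[X]) (m : ℕ) : Set L :=
  {x | ∃ w ∈ Vp S γ, ∃ r ∈ R0,
    (∃ r1 ∈ R, x = w * (r1 * r) ∨ x = w * (r1 * r / (a ^ m * D.eval a))) ∨
    (∃ i, 1 ≤ i ∧ i < m ∧ x = w * (r / (a ^ (1 + i) * D.eval a))) ∨
    (∃ i, i < D.natDegree ∧ x = w * (r * dl D a i / D.eval a))}

lemma smul_G2 (S : Sys t) (γ : I) (R : Set L) {w x : L} (hw : w ∈ Vp S γ) (hx : x ∈ G2 S γ R) :
    w * x ∈ G2 S γ R := by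
  obtain ⟨w', hw', r, hr, rfl⟩ := hx
  exact ⟨w * w', mul_mem hw hw', r, hr, by ring⟩

lemma smul_G3 (S : Sys t) (γ : I) (R0 : Set L) (e : L) {w x : L} (hw : w ∈ Vp S γ)
    (hx : x ∈ G3 S γ R0 e) : w * x ∈ G3 S γ R0 e := by
  obtain ⟨w', hw', r, hr, h | h⟩ := hx
  · exact ⟨w * w', mul_mem hw hw', r, hr, Or.inl (by rw [h]; ring)⟩
  · exact ⟨w * w', mul_mem hw hw', r, hr, Or.inr (by rw [h]; ring)⟩

lemma smul_G5 (S : Sys t) (γ : I) (R R0 : Set L) (a : L) (D : L[X]) (m : ℕ) {w x : L}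
    (hw : w ∈ Vp S γ) (hx : x ∈ G5 S γ R R0 a D m) : w * x ∈ G5 S γ R R0 a D m := by
  obtain ⟨w', hw', r, hr, h⟩ := hx
  refine ⟨w * w', mul_mem hw hw', r, hr, ?_⟩
  rcases h with ⟨r1, hr1, h | h⟩ | ⟨i, hi, hi', h⟩ | ⟨i, hi, h⟩
  · exact Or.inl ⟨r1, hr1, Or.inl (by rw [h]; ring)⟩
  · exact Or.inl ⟨r1, hr1, Or.inr (by rw [h]; ring)⟩
  · exact Or.inr (Or.inl ⟨i, hi, hi', by rw [h]; ring⟩)
  · exact Or.inr (Or.inr ⟨i, hi, by rw [h]; ring⟩)

/-- the coefficient groups -/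
def Lam (S : Sys t) (γ : I) (R R0 : Set L) (a : L) (D : L[X]) (m : ℕ) : ℕ → AddSubgroup L
  | 0 => ⊥
  | 1 => ⊥
  | 2 => AddSubgroup.closure (G2 S γ R)
  | 3 => AddSubgroup.closure (G3 S γ R0 (a ^ m * D.eval a))
  | 4 => (t.lt γ).toSubring.toAddSubgroup
  | 5 => AddSubgroup.closure (G5 S γ R R0 a D m)
  | (_ + 6) => (t.lt γ).toSubring.toAddSubgroup

lemma Lam_lt (S : Sys t) (γ : I) (R R0 : Set L) (a : L) (D : L[X]) (m : ℕ)
    (hR : ∀ r ∈ R, r ∈ t.lt γ) (hR0 : ∀ r ∈ R0, r ∈ t.lt γ) (ha : a ∈ t.lt γ)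
    (hD : ∀ n, D.coeff n ∈ t.lt γ) : ∀ k, ∀ x ∈ Lam S γ R R0 a D m k, x ∈ t.lt γ := by
  have hDa : D.eval a ∈ t.lt γ := eval_mem _ D hD ha
  have hdl : ∀ i, dl D a i ∈ t.lt γ := fun i =>
    sum_mem (fun k _ => mul_mem (hD k) (pow_mem ha _))
  intro k x hx
  match k, hx with
  | 0, hx => rw [(AddSubgroup.mem_bot.1 hx : x = 0)]; exact zero_mem _
  | 1, hx => rw [(AddSubgroup.mem_bot.1 hx : x = 0)]; exact zero_mem _
  | 2, hx =>
    refine closure_sub _ ?_ hx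
    rintro y ⟨w, hw, r, hr, rfl⟩
    exact mul_mem (Vp_lt S γ hw) (hR r hr)
  | 3, hx =>
    refine closure_sub _ ?_ hx
    rintro y ⟨w, hw, r, hr, rfl | rfl⟩
    · exact mul_mem (Vp_lt S γ hw) (hR0 r hr)
    · exact mul_mem (Vp_lt S γ hw) (div_mem (hR0 r hr) (mul_mem (pow_mem ha _) hDa))
  | 4, hx => exact hx
  | 5, hx =>
    refine closure_sub _ ?_ hx
    rintro y ⟨w, hw, r, hr, ⟨r1, hr1, rfl | rfl⟩ | ⟨i, -, -, rfl⟩ | ⟨i, -, rfl⟩⟩
    · exact mul_mem (Vp_lt S γ hw) (mul_mem (hR r1 hr1) (hR0 r hr))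
    · exact mul_mem (Vp_lt S γ hw)
        (div_mem (mul_mem (hR r1 hr1) (hR0 r hr)) (mul_mem (pow_mem ha _) hDa))
    · exact mul_mem (Vp_lt S γ hw) (div_mem (hR0 r hr) (mul_mem (pow_mem ha _) hDa))
    · exact mul_mem (Vp_lt S γ hw) (div_mem (mul_mem (hR0 r hr) (hdl i)) hDa)
  | (k + 6), hx => exact hx

lemma Lam_smul (S : Sys t) (γ : I) (R R0 : Set L) (a : L) (D : L[X]) (m : ℕ) :
    ∀ k, 1 ≤ k → ∀ w ∈ S.V (Set.Iio γ), ∀ x ∈ Lam S γ R R0 a D m k,
      w * x ∈ Lam S γ R R0 a D m k := by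
  intro k _ w hw x hx
  have hw' := V_Vp S γ hw
  match k, hx with
  | 0, hx => rw [(AddSubgroup.mem_bot.1 hx : x = 0), mul_zero]; exact zero_mem _
  | 1, hx => rw [(AddSubgroup.mem_bot.1 hx : x = 0), mul_zero]; exact zero_mem _
  | 2, hx => exact closure_smul (fun y hy => AddSubgroup.subset_closure (smul_G2 S γ R hw' hy)) hx
  | 3, hx => exact closure_smul (fun y hy => AddSubgroup.subset_closure (smul_G3 S γ R0 _ hw' hy)) hx
  | 4, hx => exact mul_mem (S := Subfield L) (V_lt S γ hw) hx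
  | 5, hx =>
    exact closure_smul (fun y hy => AddSubgroup.subset_closure (smul_G5 S γ R R0 a D m hw' hy)) hx
  | (k + 6), hx => exact mul_mem (S := Subfield L) (V_lt S γ hw) hx

lemma Lam_mul (S : Sys t) (γ : I) (R R0 : Set L) (a : L) (D : L[X]) (m : ℕ)
    (hlt : ∀ k, ∀ x ∈ Lam S γ R R0 a D m k, x ∈ t.lt γ) :
    ∀ k l, 1 ≤ k → 1 ≤ l → ∀ x ∈ Lam S γ R R0 a D m k, ∀ y ∈ Lam S γ R R0 a D m l,
      x * y ∈ Lam S γ R R0 a D m (k + l) := by
  have key : ∀ x ∈ Lam S γ R R0 a D m 2, ∀ y ∈ Lam S γ R R0 a D m 3,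
      x * y ∈ Lam S γ R R0 a D m 5 := by
    intro x hx y hy
    refine closure_mul (G := G2 S γ R) (H := G3 S γ R0 (a ^ m * D.eval a)) ?_ hx hy
    rintro _ ⟨w, hw, r1, hr1, rfl⟩ _ ⟨w', hw', r, hr, rfl | rfl⟩
    · exact AddSubgroup.subset_closure ⟨w * w', mul_mem hw hw', r, hr,
        Or.inl ⟨r1, hr1, Or.inl (by ring)⟩⟩
    · exact AddSubgroup.subset_closure ⟨w * w', mul_mem hw hw', r, hr,
        Or.inl ⟨r1, hr1, Or.inr (by ring)⟩⟩
  intro k l hk hl x hx y hy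
  have hxy : x * y ∈ t.lt γ := mul_mem (hlt k x hx) (hlt l y hy)
  by_cases h1k : k = 1
  · subst h1k
    rw [(AddSubgroup.mem_bot.1 hx : x = 0), zero_mul]; exact zero_mem _
  by_cases h1l : l = 1
  · subst h1l
    rw [(AddSubgroup.mem_bot.1 hy : y = 0), mul_zero]; exact zero_mem _
  by_cases h4 : k + l = 4
  · rw [h4]; exact hxy
  by_cases h5 : k + l = 5
  · by_cases h2 : k = 2
    · subst h2
      obtain rfl : l = 3 := by omega
      exact key x hx y hy
    · obtain rfl : k = 3 := by omega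
      obtain rfl : l = 2 := by omega
      rw [mul_comm]
      exact key y hy x hx
  · obtain ⟨e, he⟩ : ∃ e, k + l = e + 6 := ⟨k + l - 6, by omega⟩
    rw [he]; exact hxy

lemma mono_exp (Λ : ℕ → AddSubgroup L) (z c : L) (k : ℕ) (hk : 1 ≤ k) (hc : c ∈ Λ k) :
    ∃ p : L[X], p.coeff 0 = 0 ∧ (∀ l, 1 ≤ l → p.coeff l ∈ Λ l) ∧ z ^ k * c = p.eval z := by
  refine ⟨Polynomial.monomial k c, ?_, ?_, ?_⟩
  · rw [Polynomial.coeff_monomial, if_neg (by omega)]
  · intro l _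
    rw [Polynomial.coeff_monomial]
    split_ifs with h
    · rw [← h]; exact hc
    · exact zero_mem _
  · rw [Polynomial.eval_monomial, mul_comm]

lemma gen_exp (S : Sys t) (γ : I) (s' s0 : Finset L) (n' n0 : ℕ) (a z : L) (D : L[X]) (m : ℕ)
    (g : L × Finset L × ℕ) (hg : g ∈ Blk a z s' n' D m s0 n0) (r : L)
    (hr : r ∈ Mm g.2.1 g.2.2) :
    ∃ p : L[X], p.coeff 0 = 0 ∧
      (∀ k, 1 ≤ k → p.coeff k ∈ Lam S γ (Mm s' n') (Mm s0 n0) a D m k) ∧ r * g.1 = p.eval z := by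
  have h1 : (1 : L) ∈ Vp S γ := one_mem _
  have key : ∀ (k : ℕ) (c : L), 1 ≤ k → g.1 * r = z ^ k * c →
      c ∈ Lam S γ (Mm s' n') (Mm s0 n0) a D m k → ∃ p : L[X], p.coeff 0 = 0 ∧
      (∀ k, 1 ≤ k → p.coeff k ∈ Lam S γ (Mm s' n') (Mm s0 n0) a D m k) ∧ r * g.1 = p.eval z := by
    intro k c hk he hc
    obtain ⟨p, hp0, hp, hpe⟩ := mono_exp (Lam S γ (Mm s' n') (Mm s0 n0) a D m) z c k hk hc
    exact ⟨p, hp0, hp, by rw [← hpe, ← he]; ring⟩
  rcases hg with ((h | h | h) | ⟨i, hi, hi', h⟩) | ⟨i, hi, h⟩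
  · subst h
    exact key 2 r (by norm_num) rfl (AddSubgroup.subset_closure ⟨1, h1, r, hr, by ring⟩)
  · subst h
    exact key 3 r (by norm_num) rfl
      (AddSubgroup.subset_closure ⟨1, h1, r, hr, Or.inl (by ring)⟩)
  · rw [Set.mem_singleton_iff] at h
    subst h
    exact key 3 (r / (a ^ m * D.eval a)) (by norm_num) (by ring)
      (AddSubgroup.subset_closure ⟨1, h1, r, hr, Or.inr (by ring)⟩)
  · subst h
    exact key 5 (r / (a ^ (1 + i) * D.eval a)) (by norm_num) (by ring)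
      (AddSubgroup.subset_closure ⟨1, h1, r, hr, Or.inr (Or.inl ⟨i, hi, hi', by ring⟩)⟩)
  · subst h
    exact key 5 (r * dl D a i / D.eval a) (by norm_num) (by ring)
      (AddSubgroup.subset_closure ⟨1, h1, r, hr, Or.inr (Or.inr ⟨i, hi, by ring⟩)⟩)

/-- the form of the values of the functional -/
def Form (F : Subfield L) (N : Set L) (a : L) (D : L[X]) (m : ℕ) (y : L) : Prop :=
  ∃ (n1 n2 : L) (q : L[X]) (c : ℕ → L), n1 ∈ Submodule.span F N ∧ n2 ∈ Submodule.span F N ∧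
    (∀ n, q.coeff n ∈ F) ∧ (∀ i, c i ∈ F) ∧
    y = D.eval a * n1 + n2 / a ^ m + q.eval a + ∑ i ∈ Finset.Ico 1 m, c i / a ^ (1 + i)

lemma form_zero (F : Subfield L) (N : Set L) (a : L) (D : L[X]) (m : ℕ) : Form F N a D m 0 :=
  ⟨0, 0, 0, fun _ => 0, zero_mem _, zero_mem _, fun n => by simp, fun _ => zero_mem _, by simp⟩

lemma form_add {F : Subfield L} {N : Set L} {a : L} {D : L[X]} {m : ℕ} {x y : L}
    (hx : Form F N a D m x) (hy : Form F N a D m y) : Form F N a D m (x + y) := by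
  obtain ⟨n1, n2, q, c, h1, h2, h3, h4, rfl⟩ := hx
  obtain ⟨n1', n2', q', c', h1', h2', h3', h4', rfl⟩ := hy
  refine ⟨n1 + n1', n2 + n2', q + q', fun i => c i + c' i, add_mem h1 h1', add_mem h2 h2',
    fun n => by rw [Polynomial.coeff_add]; exact add_mem (h3 n) (h3' n),
    fun i => add_mem (h4 i) (h4' i), ?_⟩
  rw [Polynomial.eval_add]
  simp only [add_div, Finset.sum_add_distrib]
  ring

lemma form_neg {F : Subfield L} {N : Set L} {a : L} {D : L[X]} {m : ℕ} {x : L}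
    (hx : Form F N a D m x) : Form F N a D m (-x) := by
  obtain ⟨n1, n2, q, c, h1, h2, h3, h4, rfl⟩ := hx
  refine ⟨-n1, -n2, -q, fun i => -c i, neg_mem h1, neg_mem h2,
    fun n => by rw [Polynomial.coeff_neg]; exact neg_mem (h3 n),
    fun i => neg_mem (h4 i), ?_⟩
  rw [Polynomial.eval_neg]
  simp only [neg_div, Finset.sum_neg_distrib]
  ring

lemma mul_span {F : Subfield L} {N : Set L} {r x : L} (hr : r ∈ F)
    (hx : x ∈ Submodule.span F N) : r * x ∈ Submodule.span F N := by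
  have := Submodule.smul_mem (Submodule.span F N) (⟨r, hr⟩ : F) hx
  exact this

/-- the value of the functional at `D(a) y`, `y` a generator of `Λ 5` -/
lemma form_gen (S : Sys t) (j γ : I) (P : L →+ L) (hP : Fct (K1 t j) P)
    (hPV : ∀ w ∈ S.V Set.univ, P w ∈ t.lt j) (N : Set L) (R R0 : Set L)
    (hN : ∀ r ∈ R, P r ∈ Submodule.span (t.lt j) N ∧
      ∀ w ∈ S.V Set.univ, P (w * r) ∈ Submodule.span (t.lt j) N)
    (hR0 : ∀ r ∈ R0, r ∈ t.lt j) (D : L[X]) (m : ℕ) (hD : ∀ n, D.coeff n ∈ t.lt j)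
    (hDa : D.eval (t.z j) ≠ 0) (x : L) (hx : x ∈ G5 S γ R R0 (t.z j) D m) :
    Form (t.lt j) N (t.z j) D m (P (D.eval (t.z j) * x)) := by
  set a := t.z j with ha
  have hFK : ∀ c ∈ t.lt j, c ∈ K1 t j := fun c hc => Subfield.subset_closure (Or.inl hc)
  have haK : a ∈ K1 t j := Subfield.subset_closure (Or.inr rfl)
  have hDK : D.eval a ∈ K1 t j := eval_mem _ D (fun n => hFK _ (hD n)) haK
  have hP1 := hP.1
  have hPw : ∀ w ∈ Vp S γ, P w ∈ t.lt j := by
    rintro w ⟨k, w', hw', rfl⟩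
    rw [map_add]
    refine add_mem ?_ (hPV w' (V_mono S (Set.subset_univ _) hw'))
    have : P (k : L) = k := by
      have h1 := hP1 (k : L) (intCast_mem _ k) 1
      rw [mul_one, hP.2.2, mul_one] at h1
      exact h1
    rw [this]
    exact intCast_mem _ k
  have hPwr : ∀ w ∈ Vp S γ, ∀ r ∈ R, P (w * r) ∈ Submodule.span (t.lt j) N := by
    rintro w ⟨k, w', hw', rfl⟩ r hr
    rw [add_mul, map_add]
    refine add_mem ?_ ((hN r hr).2 w' (V_mono S (Set.subset_univ _) hw'))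
    rw [hP1 (k : L) (intCast_mem _ k) r]
    exact mul_span (intCast_mem _ k) (hN r hr).1
  obtain ⟨w, hw, r, hr, ⟨r1, hr1, rfl | rfl⟩ | ⟨i, hi, hi', rfl⟩ | ⟨i, hi, rfl⟩⟩ := hx
  · -- first kind
    refine ⟨r * P (w * r1), 0, 0, fun _ => 0, mul_span (hR0 r hr) (hPwr w hw r1 hr1), zero_mem _,
      fun n => by simp, fun _ => zero_mem _, ?_⟩
    have e : D.eval a * (w * (r1 * r)) = (D.eval a * r) * (w * r1) := by ring
    rw [e, hP1 _ (mul_mem hDK (hFK r (hR0 r hr)))]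
    simp
    ring
  · refine ⟨0, r * P (w * r1), 0, fun _ => 0, zero_mem _, mul_span (hR0 r hr) (hPwr w hw r1 hr1),
      fun n => by simp, fun _ => zero_mem _, ?_⟩
    have e : D.eval a * (w * (r1 * r / (a ^ m * D.eval a))) = (r / a ^ m) * (w * r1) := by
      field_simp
    rw [e, hP1 _ (div_mem (hFK r (hR0 r hr)) (pow_mem haK m))]
    simp
    ring
  · refine ⟨0, 0, 0, fun k => if k = i then r * P w else 0, zero_mem _, zero_mem _,
      fun n => by simp, fun k => ?_, ?_⟩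
    · change (if k = i then r * P w else 0) ∈ t.lt j
      split_ifs
      · exact mul_mem (hR0 r hr) (hPw w hw)
      · exact zero_mem _
    · have e : D.eval a * (w * (r / (a ^ (1 + i) * D.eval a))) = (r / a ^ (1 + i)) * w := by
        field_simp
      rw [e, hP1 _ (div_mem (hFK r (hR0 r hr)) (pow_mem haK _))]
      rw [Finset.sum_eq_single i]
      · simp
        ring
      · intro k _ hk
        change (if k = i then r * P w else 0) / a ^ (1 + k) = 0
        rw [if_neg hk, zero_div]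
      · intro h
        exact absurd (Finset.mem_Ico.2 ⟨hi, hi'⟩) h
  · let Q : L[X] := ∑ k ∈ Finset.Ioc i D.natDegree,
      Polynomial.monomial (k - 1 - i) (D.coeff k)
    have hQc : ∀ n, Q.coeff n ∈ t.lt j := by
      intro n
      rw [Polynomial.finsetSum_coeff]
      refine sum_mem (fun k _ => ?_)
      rw [Polynomial.coeff_monomial]
      split_ifs
      · exact hD k
      · exact zero_mem _
    have hQe : Q.eval a = dl D a i := by
      rw [Polynomial.eval_finsetSum]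
      exact Finset.sum_congr rfl (fun k _ => Polynomial.eval_monomial)
    refine ⟨0, 0, Polynomial.C (r * P w) * Q, fun _ => 0, zero_mem _, zero_mem _,
      fun n => ?_, fun _ => zero_mem _, ?_⟩
    · rw [Polynomial.coeff_C_mul]
      exact mul_mem (mul_mem (hR0 r hr) (hPw w hw)) (hQc n)
    · have e : D.eval a * (w * (r * dl D a i / D.eval a)) = (r * dl D a i) * w := by
        field_simp
      have hdK : dl D a i ∈ K1 t j := by
        rw [← hQe]
        exact eval_mem _ Q (fun n => hFK _ (hQc n)) haK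
      rw [e, hP1 _ (mul_mem (hFK r (hR0 r hr)) hdK)]
      rw [Polynomial.eval_mul, Polynomial.eval_C, hQe]
      simp
      ring

lemma form_closure (S : Sys t) (j γ : I) (P : L →+ L) (N : Set L) (R R0 : Set L) (D : L[X])
    (m : ℕ) (h : ∀ x ∈ G5 S γ R R0 (t.z j) D m,
      Form (t.lt j) N (t.z j) D m (P (D.eval (t.z j) * x))) (x : L)
    (hx : x ∈ AddSubgroup.closure (G5 S γ R R0 (t.z j) D m)) :
    Form (t.lt j) N (t.z j) D m (P (D.eval (t.z j) * x)) := by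
  induction hx using AddSubgroup.closure_induction with
  | mem x hx => exact h x hx
  | zero => rw [mul_zero, map_zero]; exact form_zero _ _ _ _ _
  | add x y _ _ hx hy => rw [mul_add, map_add]; exact form_add hx hy
  | neg x _ hx => rw [mul_neg, map_neg]; exact form_neg hx

lemma le_mono (t : Tower I L) {δ γ : I} (h : δ ≤ γ) : t.le δ ≤ t.le γ := by
  rcases h.eq_or_lt with rfl | h
  · exact le_rfl
  · exact (t.le_lt δ γ h).trans (t.lt_le γ)

lemma exists_le (t : Tower I L) (j : I) (R : Set L) (hR : R.Finite) :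
    ∃ γ, j ≤ γ ∧ ∀ r ∈ R, r ∈ t.le γ := by
  induction R, hR using Set.Finite.induction_on with
  | empty => exact ⟨j, le_rfl, fun r hr => absurd hr (Set.notMem_empty r)⟩
  | @insert x R _ _ ih =>
    obtain ⟨γ, hγ, h⟩ := ih
    obtain ⟨δ, hδ⟩ := t.top x
    refine ⟨max γ δ, hγ.trans (le_max_left _ _), ?_⟩
    rintro r (rfl | hr)
    · exact le_mono t (le_max_right _ _) hδ
    · exact le_mono t (le_max_left _ _) (h r hr)

lemma Mm_finite (s : Finset L) (n : ℕ) : (Mm s n).Finite := by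
  have h1 : {l : List L | l.length ≤ n ∧ ∀ a ∈ l, a ∈ s}.Finite := by
    have h2 : {l : List s | l.length ≤ n}.Finite := List.finite_length_le s n
    refine (h2.image (fun l => l.map Subtype.val)).subset ?_
    rintro l ⟨hl, hls⟩
    refine ⟨l.attach.map (fun x => ⟨x.1, hls x.1 x.2⟩), ?_, ?_⟩
    · simpa using hl
    · simp
  refine (h1.image List.prod).subset ?_
  rintro r ⟨l, hl, hls, rfl⟩
  exact ⟨l, ⟨hl, hls⟩, rfl⟩

end

end MainL

open MainL in
/-- NX9: the main lemma. -/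
theorem pMain (h1 : tGood) (h2 : tVcoeff) (h3 : tCst) (h4 : tExp) (h5 : tFin) (h6 : tAlg) :
    tMain := by
  intro I L _ _ _ t S j hj s' n'
  obtain ⟨γ0, hγ0, hRγ0⟩ := exists_le t j (Mm s' n') (Mm_finite s' n')
  obtain ⟨P, hP, hPV, N, hNfin, hNK, hN⟩ := h5 I L t S j hj γ0 hγ0 (Mm s' n') (Mm_finite s' n')
    hRγ0
  obtain ⟨D, m, hD, hD0, hm, halg⟩ := h6 L (t.lt j) (t.z j) (t.transc j) N hNfin hNK
  refine ⟨D, m, hD, hD0, hm, ?_⟩
  intro γ s0 n0 hjγ hs' hs0 hG hf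
  obtain ⟨v, hv⟩ := h1 I L t γ
  set a := t.z j with ha
  set z := t.z γ with hz
  have ha0 : a ≠ 0 := by
    intro h0
    have := t.transc j Polynomial.X (fun n => by
      rw [Polynomial.coeff_X]
      split_ifs
      · exact one_mem _
      · exact zero_mem _) (by rw [Polynomial.eval_X]; exact h0)
    exact Polynomial.X_ne_zero this
  have hDa : D.eval a ≠ 0 := fun h0 => hD0 (t.transc j D hD h0)
  have hFγ : ∀ c ∈ t.lt j, c ∈ t.lt γ := fun c hc => t.le_lt j γ hjγ (t.lt_le j hc)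
  have haγ : a ∈ t.lt γ := t.le_lt j γ hjγ (t.z_mem j)
  have hDγ : ∀ n, D.coeff n ∈ t.lt γ := fun n => hFγ _ (hD n)
  have hDaγ : D.eval a ∈ t.lt γ := eval_mem _ D hDγ haγ
  have hfle : z ^ 5 / (a * D.eval a) ∈ t.le γ :=
    div_mem (pow_mem (t.z_mem γ) 5) (t.lt_le γ (mul_mem haγ hDaγ))
  have hfV : z ^ 5 / (a * D.eval a) ∈ S.V (Set.Iic γ) := (h3 I L t S γ v hv _ hf).2.2 hfle
  have hlt := Lam_lt S γ (Mm s' n') (Mm s0 n0) a D m (fun r hr => Mm_mem _ _ _ hs' hr)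
    (fun r hr => hFγ r (Mm_mem _ _ _ hs0 hr)) haγ hDγ
  obtain ⟨q, hq0, hq, hqv⟩ := h4 I L t S γ v (Lam S γ (Mm s' n') (Mm s0 n0) a D m) hv hlt
    (Lam_smul S γ _ _ a D m) (Lam_mul S γ _ _ a D m hlt) (by
      rw [hG]
      exact fun g hg r hr => gen_exp S γ s' s0 n' n0 a z D m g hg r hr) _ hfV 6 (by norm_num)
  have hqlt : ∀ k, q.coeff k ∈ t.lt γ := by
    intro k
    rcases Nat.eq_zero_or_pos k with rfl | hk
    · exact V_lt S γ hq0
    · exact hlt k _ (hq k hk)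
  have hc5 := h2 I L t γ v hv (q - Polynomial.monomial 5 (1 / (a * D.eval a))) 6 (by
      intro k
      rw [Polynomial.coeff_sub, Polynomial.coeff_monomial]
      refine sub_mem (hqlt k) ?_
      split_ifs
      · exact div_mem (one_mem _) (mul_mem haγ hDaγ)
      · exact zero_mem _) (by
      have e : (q - Polynomial.monomial 5 (1 / (a * D.eval a))).eval (t.z γ) =
          -(z ^ 5 / (a * D.eval a) - q.eval z) := by
        rw [Polynomial.eval_sub, Polynomial.eval_monomial, ← hz]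
        ring
      rw [e, Valuation.map_neg]
      exact hqv) 5 (by norm_num)
  rw [Polynomial.coeff_sub, Polynomial.coeff_monomial, if_pos rfl, sub_eq_zero] at hc5
  have h5mem : 1 / (a * D.eval a) ∈
      AddSubgroup.closure (G5 S γ (Mm s' n') (Mm s0 n0) a D m) := by
    rw [← hc5]
    exact hq 5 (by norm_num)
  obtain ⟨n1, n2, q', c, g1, g2, g3, g4, g5⟩ := form_closure S j γ P N (Mm s' n') (Mm s0 n0) D m
    (form_gen S j γ P hP hPV N (Mm s' n') (Mm s0 n0) hN (fun r hr => Mm_mem _ _ _ hs0 hr) D m hD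
      hDa) _ h5mem
  have e1 : D.eval a * (1 / (a * D.eval a)) = a⁻¹ * 1 := by
    field_simp
  have haK : a⁻¹ ∈ K1 t j := inv_mem (Subfield.subset_closure (Or.inr rfl))
  have e2 : P (D.eval a * (1 / (a * D.eval a))) = a⁻¹ := by
    rw [e1, hP.1 _ haK, hP.2.2, mul_one]
  change P (D.eval a * (1 / (a * D.eval a))) = _ at g5
  rw [e2] at g5
  exact halg n1 n2 q' c g1 g2 g3 g4 g5

end Pool.Agent.NoExt
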