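import Mathlib

set_option autoImplicit false

/-! A topological field without proper topological field extensions (MP_a60711_al): definitions and
exact targets.  `L` is an algebraically closed field with a well-ordered tower of subfields
`lt γ ⊆ le γ`, `le γ` algebraic over `(lt γ)(z γ)`, `z γ` transcendental over `lt γ`. -/

namespace Pool.Agent.NoExt

open Polynomial

/-- a tower of subfields of `L` indexed by a linear order -/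
structure Tower (I L : Type) [LinearOrder I] [Field L] where
  lt : I → Subfield L
  le : I → Subfield L
  z : I → L
  lt_le : ∀ γ, lt γ ≤ le γ
  le_lt : ∀ δ γ, δ < γ → le δ ≤ lt γ
  z_mem : ∀ γ, z γ ∈ le γ
  transc : ∀ γ (p : L[X]), (∀ n, p.coeff n ∈ lt γ) → p.eval (z γ) = 0 → p = 0
  alg : ∀ γ, ∀ y ∈ le γ, ∃ (n : ℕ) (c : ℕ → L[X]), (∀ i m, (c i).coeff m ∈ lt γ) ∧ c n ≠ 0 ∧
    ∑ i ∈ Finset.range (n + 1), (c i).eval (z γ) * y ^ i = 0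
  find : ∀ j γ, j < γ → ∀ r ∈ lt γ, ∃ δ, j ≤ δ ∧ δ < γ ∧ r ∈ le δ
  top : ∀ r : L, ∃ γ, r ∈ le γ

/-- the ring without one, closed under `x ↦ (1 + x)⁻¹ - 1`, generated by `E` -/
inductive QC {L : Type} [Field L] (E : Set L) : L → Prop
  | base : ∀ x, x ∈ E → QC E x
  | zero : QC E 0
  | add : ∀ x y, QC E x → QC E y → QC E (x + y)
  | neg : ∀ x, QC E x → QC E (-x)
  | mul : ∀ x y, QC E x → QC E y → QC E (x * y)
  | inv : ∀ x, QC E x → QC E ((1 + x)⁻¹ - 1)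

/-- products of at most `n` elements of `s` -/
def Mm {L : Type} [Field L] (s : Finset L) (n : ℕ) : Set L :=
  {r | ∃ l : List L, l.length ≤ n ∧ (∀ a ∈ l, a ∈ s) ∧ r = l.prod}

/-- small generators: at `γ` finitely many `(e, s, n)`, `e` a polynomial in `z γ` over `lt γ`
without constant term, of level `(s, n)`, `s ⊆ lt γ` -/
structure Sys {I L : Type} [LinearOrder I] [Field L] (t : Tower I L) where
  G : I → Set (L × Finset L × ℕ)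
  fin : ∀ γ, (G γ).Finite
  lev : ∀ γ, ∀ g ∈ G γ, ∀ a ∈ g.2.1, a ∈ t.lt γ
  pol : ∀ γ, ∀ g ∈ G γ, ∃ p : L[X], (∀ m, p.coeff m ∈ t.lt γ) ∧ p.coeff 0 = 0 ∧
    g.1 = p.eval (t.z γ)

section
variable {I L : Type} [LinearOrder I] [Field L] {t : Tower I L}

/-- generators of the basic neighbourhood coming from the indices in `A` -/
def Sys.E (S : Sys t) (A : Set I) : Set L :=
  {y | ∃ γ ∈ A, ∃ g ∈ S.G γ, ∃ r ∈ Mm g.2.1 g.2.2, y = r * g.1}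

/-- the basic neighbourhood, restricted to the indices in `A` -/
def Sys.V (S : Sys t) (A : Set I) : Set L := {y | QC (S.E A) y}

/-- all basic neighbourhoods -/
def Sys.U (S : Sys t) (s : Finset L) (n : ℕ) : Set L :=
  {y | QC {y | ∃ γ, ∃ g ∈ S.G γ, s ⊆ g.2.1 ∧ n ≤ g.2.2 ∧
    ∃ r ∈ Mm g.2.1 (g.2.2 - n), y = r * g.1} y}

/-- `v` contains `lt γ`, and `z δ` is infinitesimal over `lt δ` for `δ ≥ γ` -/
def Good (t : Tower I L) (γ : I) (v : ValuationSubring L) : Prop :=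
  (∀ c ∈ t.lt γ, c ∈ v) ∧ ∀ δ, γ ≤ δ → ∀ c ∈ t.lt δ, v.valuation (t.z δ * c) < 1

/-- the field `(lt j)(z j)` -/
def K1 (t : Tower I L) (j : I) : Subfield L := Subfield.closure ((t.lt j : Set L) ∪ {t.z j})

/-- `P` is a functional with values in the subfield `F`, linear over `F`, `P 1 = 1` -/
def Fct (F : Subfield L) (P : L →+ L) : Prop :=
  (∀ c ∈ F, ∀ x, P (c * x) = c * P x) ∧ (∀ x, P x ∈ F) ∧ P 1 = 1

/-- `(D(x) - D(a)) / (x - a) = ∑ i < deg D, δ_i x ^ i` with `δ_i = dl D a i` -/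
noncomputable def dl (D : L[X]) (a : L) (i : ℕ) : L :=
  ∑ k ∈ Finset.Ioc i D.natDegree, D.coeff k * a ^ (k - 1 - i)

/-- the killing block: `v = z²` of level `(s', n')`; `u = z³`, `u' = z³ / (a^S D(a))`,
`y_i = z⁵ a^(-1-i) / D(a)`, `y'_i = z⁵ δ_i / D(a)` of level `(s0, n0)` -/
def Blk (a z : L) (s' : Finset L) (n' : ℕ) (D : L[X]) (S : ℕ) (s0 : Finset L) (n0 : ℕ) :
    Set (L × Finset L × ℕ) :=
  {(z ^ 2, s', n'), (z ^ 3, s0, n0), (z ^ 3 / (a ^ S * D.eval a), s0, n0)} ∪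
    {g | ∃ i, 1 ≤ i ∧ i < S ∧ g = (z ^ 5 / (a ^ (1 + i) * D.eval a), s0, n0)} ∪
    {g | ∃ i, i < D.natDegree ∧ g = (z ^ 5 * dl D a i / D.eval a, s0, n0)}

end

/-! ### targets -/

/-- NX1 existence of towers -/
def tTower : Prop := ∀ (I : Type) [LinearOrder I] [Nonempty I], ∃ (L : Type) (_ : Field L)
  (_ : IsAlgClosed L) (t : Tower I L),
  (∀ γ, (Set.Iio γ).Countable → (t.lt γ : Set L).Countable) ∧
  Cardinal.mk L ≤ max (Cardinal.mk I) Cardinal.aleph0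

/-- NX2 existence of good valuation rings -/
def tGood : Prop := ∀ (I L : Type) [LinearOrder I] [WellFoundedLT I] [Field L] (t : Tower I L)
  (γ : I), ∃ v : ValuationSubring L, Good t γ v

/-- NX3a -/
def tVle : Prop := ∀ (I L : Type) [LinearOrder I] [Field L] (t : Tower I L)
  (γ : I) (v : ValuationSubring L), Good t γ v → ∀ p : L[X], (∀ m, p.coeff m ∈ t.lt γ) →
  v.valuation (p.eval (t.z γ)) ≤ 1

/-- NX3b -/
def tVcof : Prop := ∀ (I L : Type) [LinearOrder I] [Field L] (t : Tower I L)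
  (γ : I) (v : ValuationSubring L), Good t γ v → ∀ y ∈ t.le γ, ∃ M : ℕ,
  v.valuation (t.z γ ^ M * y) < 1

/-- NX3c -/
def tVcoeff : Prop := ∀ (I L : Type) [LinearOrder I] [Field L] (t : Tower I L)
  (γ : I) (v : ValuationSubring L), Good t γ v → ∀ (p : L[X]) (M : ℕ),
  (∀ m, p.coeff m ∈ t.lt γ) → v.valuation (p.eval (t.z γ)) ≤ v.valuation (t.z γ) ^ M →
  ∀ k < M, p.coeff k = 0

/-- NX4a quasi inverses exist -/
def tUnit : Prop := ∀ (I L : Type) [LinearOrder I] [WellFoundedLT I] [Field L] (t : Tower I L)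
  (S : Sys t), ∀ w ∈ S.V Set.univ, 1 + w ≠ 0

/-- NX4b constant terms -/
def tCst : Prop := ∀ (I L : Type) [LinearOrder I] [WellFoundedLT I] [Field L] (t : Tower I L)
  (S : Sys t) (γ : I) (v : ValuationSubring L), Good t γ v → ∀ w ∈ S.V Set.univ,
  (∃ w0 ∈ S.V (Set.Iio γ), v.valuation (w - w0) < 1) ∧
  (∃ w0 ∈ S.V (Set.Iic γ), ∀ c ∈ t.le γ, v.valuation ((w - w0) * c) < 1) ∧
  (w ∈ t.le γ → w ∈ S.V (Set.Iic γ))

/-- NX5 expansions in powers of `z γ` -/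
def tExp : Prop := ∀ (I L : Type) [LinearOrder I] [WellFoundedLT I] [Field L] (t : Tower I L)
  (S : Sys t) (γ : I) (v : ValuationSubring L) (Λ : ℕ → AddSubgroup L), Good t γ v →
  (∀ k, ∀ x ∈ Λ k, x ∈ t.lt γ) →
  (∀ k, 1 ≤ k → ∀ w ∈ S.V (Set.Iio γ), ∀ x ∈ Λ k, w * x ∈ Λ k) →
  (∀ k l, 1 ≤ k → 1 ≤ l → ∀ x ∈ Λ k, ∀ y ∈ Λ l, x * y ∈ Λ (k + l)) →
  (∀ g ∈ S.G γ, ∀ r ∈ Mm g.2.1 g.2.2, ∃ p : L[X], p.coeff 0 = 0 ∧ (∀ k, 1 ≤ k → p.coeff k ∈ Λ k) ∧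
    r * g.1 = p.eval (t.z γ)) →
  ∀ w ∈ S.V (Set.Iic γ), ∀ M : ℕ, 1 ≤ M → ∃ q : L[X], q.coeff 0 ∈ S.V (Set.Iio γ) ∧
    (∀ k, 1 ≤ k → q.coeff k ∈ Λ k) ∧
    v.valuation (w - q.eval (t.z γ)) ≤ v.valuation (t.z γ) ^ M

/-- NX6 functionals -/
def tFct : Prop := ∀ (L : Type) [Field L] (F : Subfield L) (N : AddSubgroup L),
  (∀ c ∈ F, ∀ x ∈ N, c * x ∈ N) → (1 : L) ∉ N → ∃ P : L →+ L, Fct F P ∧ ∀ x ∈ N, P x = 0

/-- NX7 functionals with finite dimensional images -/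
def tFin : Prop := ∀ (I L : Type) [LinearOrder I] [WellFoundedLT I] [Field L] (t : Tower I L)
  (S : Sys t) (j : I), S.G j = ∅ → ∀ γ, j ≤ γ → ∀ R : Set L, R.Finite → (∀ r ∈ R, r ∈ t.le γ) →
  ∃ P : L →+ L, Fct (K1 t j) P ∧ (∀ w ∈ S.V Set.univ, P w ∈ t.lt j) ∧
    ∃ N : Set L, N.Finite ∧ (∀ x ∈ N, x ∈ K1 t j) ∧ ∀ r ∈ R,
      P r ∈ Submodule.span (t.lt j) N ∧ ∀ w ∈ S.V Set.univ, P (w * r) ∈ Submodule.span (t.lt j) N

/-- NX8 the final algebra: choice of `D` and `S` -/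
def tAlg : Prop := ∀ (L : Type) [Field L] (F : Subfield L) (a : L),
  (∀ p : L[X], (∀ n, p.coeff n ∈ F) → p.eval a = 0 → p = 0) →
  ∀ N : Set L, N.Finite → (∀ x ∈ N, x ∈ Subfield.closure ((F : Set L) ∪ {a})) →
  ∃ (D : L[X]) (S : ℕ), (∀ n, D.coeff n ∈ F) ∧ D ≠ 0 ∧ 1 ≤ S ∧
  ∀ (n1 n2 : L) (q : L[X]) (c : ℕ → L), n1 ∈ Submodule.span F N → n2 ∈ Submodule.span F N →
    (∀ n, q.coeff n ∈ F) → (∀ i, c i ∈ F) →
    a⁻¹ ≠ D.eval a * n1 + n2 / a ^ S + q.eval a + ∑ i ∈ Finset.Ico 1 S, c i / a ^ (1 + i)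

/-- NX9 main lemma -/
def tMain : Prop := ∀ (I L : Type) [LinearOrder I] [WellFoundedLT I] [Field L] (t : Tower I L)
  (S : Sys t) (j : I), S.G j = ∅ → ∀ (s' : Finset L) (n' : ℕ),
  ∃ (D : L[X]) (m : ℕ), (∀ n, D.coeff n ∈ t.lt j) ∧ D ≠ 0 ∧ 1 ≤ m ∧
  ∀ (γ : I) (s0 : Finset L) (n0 : ℕ), j < γ → (∀ a ∈ s', a ∈ t.lt γ) → (∀ a ∈ s0, a ∈ t.lt j) →
    S.G γ = Blk (t.z j) (t.z γ) s' n' D m s0 n0 →
    t.z γ ^ 5 / (t.z j * D.eval (t.z j)) ∉ S.V Set.univ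

/-- NX10 the topology -/
def tTop : Prop := ∀ (I L : Type) [LinearOrder I] [WellFoundedLT I] [Field L] (t : Tower I L)
  (S : Sys t), ∃ τ : TopologicalSpace L, @IsTopologicalDivisionRing L _ τ ∧
    (@nhds L τ 0).HasBasis (fun _ : Finset L × ℕ => True) (fun i => S.U i.1 i.2) ∧
    (¬ @ConnectedSpace L τ)

/-- NX11 the killing argument in an extension `K`, `x ∉ L`; `f : L → K` an embedding -/
def tKill : Prop := ∀ (I L K : Type) [LinearOrder I] [Field L] [IsAlgClosed L] [Field K]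
  [TopologicalSpace K] [IsTopologicalDivisionRing K] (t : Tower I L) (S : Sys t) (f : L →+* K),
  (∀ W ∈ nhds (0 : K), ∃ (s : Finset L) (n : ℕ), ∀ y ∈ S.U s n, f y ∈ W) →
  (∃ W ∈ nhds (0 : K), ∀ y, f y ∈ W → y ∈ S.U ∅ 0) →
  ∀ x : K, x ∉ Set.range f →
  ∃ H : L[X] × ℕ → Finset L, ∀ j : I,
    (∀ D : L[X], (∀ n, D.coeff n ∈ t.lt j) → ∀ i, ∀ b ∈ H (D, i), b ∈ t.lt j) →
    ∃ (s' : Finset L) (n' : ℕ), ∀ (D : L[X]) (m : ℕ), (∀ n, D.coeff n ∈ t.lt j) → D ≠ 0 →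
      1 ≤ m → ∃ (s0 : Finset L) (n0 : ℕ), (∀ b ∈ s0, b ∈ t.lt j) ∧
      ∀ γ, j < γ → S.G γ = Blk (t.z j) (t.z γ) s' n' D m s0 n0 →
        t.z γ ^ 5 / (t.z j * D.eval (t.z j)) ∈ S.U ∅ 0

/-- NX12 closing off -/
def tClose : Prop := ∀ (J L : Type) [LinearOrder J] [WellFoundedLT J] [Field L]
  (F : J → Subfield L), (∀ i j, i ≤ j → F i ≤ F j) → (∀ j, (F j : Set L).Countable) →
  (∀ r : L, ∃ j, r ∈ F j) →
  (∀ C : Set J, C.Countable → ∃ j, ∀ i ∈ C, i < j) →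
  (∀ i j, i < j → ∀ r ∈ F j, ∃ i', i' < j ∧ ∀ j', i' < j' → r ∈ F j') →
  ∀ H : L[X] × ℕ → Finset L, ∃ j,
    ∀ D : L[X], (∀ n, D.coeff n ∈ F j) → ∀ i, ∀ b ∈ H (D, i), b ∈ F j

/-- NX13 bookkeeping -/
def tBook : Prop := ∃ (J : Type) (_ : LinearOrder J) (_ : WellFoundedLT J) (_ : Nonempty J),
  (∀ j : J, (Set.Iio j).Countable) ∧
  (∀ C : Set J, C.Countable → ∃ j, ∀ i ∈ C, i < j) ∧
  ∀ (L : Type) [Field L], Cardinal.mk L ≤ max (Cardinal.mk J) Cardinal.aleph0 →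
    ∃ d : J → J × (Finset L × ℕ) × L[X] × ℕ × (Finset L × ℕ), ∀ x b, ∃ i, b < i ∧ d i = x

end Pool.Agent.NoExt
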