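import Pool.Agent.NoExt.Targets

set_option autoImplicit false

namespace Pool.Agent.NoExt.Top

open Pool.Agent.NoExt Topology Filter Pointwise

variable {I L : Type} [LinearOrder I] [Field L] {t : Tower I L}

theorem qc_mono {E F : Set L} (h : E ⊆ F) : ∀ y, QC E y → QC F y := by
  intro y hy
  induction hy with
  | base x hx => exact QC.base x (h hx)
  | zero => exact QC.zero
  | add x y _ _ h1 h2 => exact QC.add x y h1 h2
  | neg x _ h1 => exact QC.neg x h1
  | mul x y _ _ h1 h2 => exact QC.mul x y h1 h2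
  | inv x _ h1 => exact QC.inv x h1

theorem mm_mono (s : Finset L) {m n : ℕ} (h : m ≤ n) : Mm s m ⊆ Mm s n := by
  rintro r ⟨l, h1, h2, h3⟩
  exact ⟨l, h1.trans h, h2, h3⟩

theorem mm_cons (s : Finset L) {m : ℕ} {x r : L} (hx : x ∈ s) (hr : r ∈ Mm s m) :
    x * r ∈ Mm s (m + 1) := by
  obtain ⟨l, h1, h2, h3⟩ := hr
  refine ⟨x :: l, by simpa using h1, ?_, by simp [h3]⟩
  intro a ha
  rcases List.mem_cons.1 ha with h | h
  · exact h ▸ hx
  · exact h2 a h

theorem U_mono (S : Sys t) {s s' : Finset L} {n n' : ℕ} (hs : s ⊆ s') (hn : n ≤ n') :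
    S.U s' n' ⊆ S.U s n := by
  intro y hy
  refine qc_mono ?_ y hy
  rintro z ⟨γ, g, hg, h1, h2, r, hr, h3⟩
  exact ⟨γ, g, hg, hs.trans h1, hn.trans h2, r, mm_mono _ (by omega) hr, h3⟩

theorem U_le_V (S : Sys t) (s : Finset L) (n : ℕ) : S.U s n ⊆ S.V Set.univ := by
  intro y hy
  refine qc_mono ?_ y hy
  rintro z ⟨γ, g, hg, h1, h2, r, hr, h3⟩
  exact ⟨γ, Set.mem_univ γ, g, hg, r, mm_mono _ (by omega) hr, h3⟩

/-- the basic neighbourhood as an additive subgroup -/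
def B (S : Sys t) (i : Finset L × ℕ) : AddSubgroup L where
  carrier := S.U i.1 i.2
  zero_mem' := QC.zero
  add_mem' := fun {x y} hx hy => QC.add x y hx hy
  neg_mem' := fun {x} hx => QC.neg x hx

theorem mem_B (S : Sys t) (i : Finset L × ℕ) (x : L) : x ∈ B S i ↔ x ∈ S.U i.1 i.2 := Iff.rfl

theorem coe_B (S : Sys t) (i : Finset L × ℕ) : ((B S i : AddSubgroup L) : Set L) = S.U i.1 i.2 :=
  rfl

theorem left_mul (S : Sys t) (hu : ∀ w ∈ S.V Set.univ, 1 + w ≠ 0) (x : L) (s : Finset L) (n : ℕ)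
    [DecidableEq L] :
    ∀ y, y ∈ S.U (insert x s) (n + 1) → x * y ∈ S.U s n := by
  have hsub : S.U (insert x s) (n + 1) ⊆ S.U s n :=
    U_mono S (Finset.subset_insert x s) (Nat.le_succ n)
  intro y hy
  have hy' : QC {y | ∃ γ, ∃ g ∈ S.G γ, insert x s ⊆ g.2.1 ∧ n + 1 ≤ g.2.2 ∧
    ∃ r ∈ Mm g.2.1 (g.2.2 - (n + 1)), y = r * g.1} y := hy
  clear hy
  induction hy' with
  | base z hz =>
    obtain ⟨γ, g, hg, h1, h2, r, hr, h3⟩ := hz
    refine QC.base _ ⟨γ, g, hg, (Finset.subset_insert x s).trans h1, by omega, x * r, ?_, ?_⟩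
    · have h4 := mm_cons g.2.1 (h1 (Finset.mem_insert_self x s)) hr
      have h5 : g.2.2 - (n + 1) + 1 = g.2.2 - n := by omega
      rwa [h5] at h4
    · rw [h3, mul_assoc]
  | zero => rw [mul_zero]; exact QC.zero
  | add y z _ _ h1 h2 => rw [mul_add]; exact QC.add _ _ h1 h2
  | neg y _ h1 => rw [mul_neg]; exact QC.neg _ h1
  | mul y z _ hz h1 _ =>
    rw [← mul_assoc]
    exact QC.mul _ _ h1 (hsub hz)
  | inv y hy h1 =>
    have hne : 1 + y ≠ 0 := hu y (U_le_V S _ _ hy)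
    have e : x * ((1 + y)⁻¹ - 1) = -(x * y + (x * y) * ((1 + y)⁻¹ - 1)) := by
      field_simp
      ring
    rw [e]
    exact QC.neg _ (QC.add _ _ h1 (QC.mul _ _ h1 (hsub (QC.inv y hy))))

theorem basis (S : Sys t) (hu : ∀ w ∈ S.V Set.univ, 1 + w ≠ 0) : RingSubgroupsBasis (B S) := by
  classical
  refine RingSubgroupsBasis.of_comm _ ?_ ?_ ?_
  · rintro ⟨s, n⟩ ⟨s', n'⟩
    refine ⟨(s ∪ s', max n n'), le_inf ?_ ?_⟩
    · exact U_mono S Finset.subset_union_left (le_max_left _ _)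
    · exact U_mono S Finset.subset_union_right (le_max_right _ _)
  · intro i
    refine ⟨i, ?_⟩
    rintro _ ⟨x, hx, y, hy, rfl⟩
    exact QC.mul x y hx hy
  · rintro x ⟨s, n⟩
    refine ⟨(insert x s, n + 1), ?_⟩
    intro y hy
    exact left_mul S hu x s n y hy

end Pool.Agent.NoExt.Top

namespace Pool.Agent.NoExt

open Topology Filter

theorem pTop (h : tUnit) : tTop := by
  intro I L _ _ _ t S
  have hu : ∀ w ∈ S.V Set.univ, 1 + w ≠ 0 := h I L t S
  have hB := Top.basis S hu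
  let τ : TopologicalSpace L := hB.topology
  have hb0 : (@nhds L τ 0).HasBasis (fun _ : Finset L × ℕ => True) (fun i => S.U i.1 i.2) :=
    hB.hasBasis_nhds_zero
  have hR : IsTopologicalRing L := hB.toRingFilterBasis.isTopologicalRing
  have h00 : Tendsto (fun x : L => (1 + x)⁻¹ - 1) (𝓝 0) (𝓝 0) := by
    rw [hb0.tendsto_iff hb0]
    rintro ⟨s, n⟩ -
    exact ⟨(s, n), trivial, fun x hx => QC.inv x hx⟩
  refine ⟨τ, ?_, hb0, ?_⟩
  · refine @IsTopologicalDivisionRing.mk L _ τ hR ⟨?_⟩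
    intro a ha
    have h1 : Tendsto (fun y : L => a⁻¹ * (y - a)) (𝓝 a) (𝓝 0) := by
      have hc : Continuous (fun y : L => a⁻¹ * (y - a)) :=
        continuous_const.mul (continuous_id.sub continuous_const)
      have := hc.tendsto a
      simpa using this
    have h2 : Tendsto (fun y : L => a⁻¹ + a⁻¹ * ((1 + a⁻¹ * (y - a))⁻¹ - 1)) (𝓝 a)
        (𝓝 (a⁻¹ + a⁻¹ * 0)) :=
      (tendsto_const_nhds).add ((tendsto_const_nhds).mul (h00.comp h1))
    have h3 : (fun y : L => a⁻¹ + a⁻¹ * ((1 + a⁻¹ * (y - a))⁻¹ - 1)) = Inv.inv := by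
      funext y
      have e : 1 + a⁻¹ * (y - a) = a⁻¹ * y := by field_simp; ring
      rw [e, mul_inv, inv_inv]
      field_simp
      ring
    rw [mul_zero, add_zero, h3] at h2
    exact h2
  · intro hcon
    have hopen : IsOpen (S.U ∅ 0) := (hB.openAddSubgroup (∅, 0)).isOpen
    have hclosed : IsClosed (S.U ∅ 0) := by
      have := (hB.openAddSubgroup (∅, 0)).isClosed
      exact this
    have hcl : IsClopen (S.U ∅ 0) := ⟨hclosed, hopen⟩
    rcases isClopen_iff.1 hcl with h1 | h1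
    · have h2 : (0 : L) ∈ S.U ∅ 0 := QC.zero
      rw [h1] at h2
      exact h2
    · have h2 : (1 : L) ∈ S.U ∅ 0 := by rw [h1]; trivial
      have h3 : (-1 : L) ∈ S.U ∅ 0 := QC.neg _ h2
      exact hu (-1) (Top.U_le_V S _ _ h3) (by ring)

end Pool.Agent.NoExt
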