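import Pool.Agent.NoExt.Targets

set_option autoImplicit false

/-! MP_a60711_al: existence of the tower. -/

namespace Pool.Agent.NoExt

open Polynomial Cardinal

namespace TowerEx_

variable {I L : Type} [Field L] [CharZero L]

/-- algebraic closure of `ℚ (x '' A)` in `L` -/
def Lc (x : I → L) (A : Set I) : Subfield L where
  carrier := {y | IsAlgebraic (Algebra.adjoin ℚ (x '' A)) y}
  mul_mem' := fun ha hb => IsAlgebraic.mul ha hb
  one_mem' := isAlgebraic_one
  add_mem' := fun ha hb => IsAlgebraic.add ha hb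
  zero_mem' := isAlgebraic_zero
  neg_mem' := fun ha => IsAlgebraic.neg ha
  inv_mem' := fun _ ha => IsAlgebraic.inv ha

theorem mem_Lc {x : I → L} {A : Set I} {y : L} :
    y ∈ Lc x A ↔ IsAlgebraic (Algebra.adjoin ℚ (x '' A)) y := Iff.rfl

theorem coe_Lc (x : I → L) (A : Set I) :
    (Lc x A : Set L) = (AlgebraicIndependent.matroid ℚ L).closure (x '' A) := by
  rw [AlgebraicIndependent.matroid_closure_eq]
  rfl

theorem Lc_mono (x : I → L) {A B : Set I} (h : A ⊆ B) : Lc x A ≤ Lc x B := by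
  intro y hy
  have hy' : y ∈ (Lc x A : Set L) := hy
  show y ∈ (Lc x B : Set L)
  rw [coe_Lc] at hy' ⊢
  exact (AlgebraicIndependent.matroid ℚ L).closure_subset_closure (Set.image_mono h) hy'

theorem self_mem (x : I → L) {A : Set I} {i : I} (h : i ∈ A) : x i ∈ Lc x A :=
  isAlgebraic_algebraMap (⟨x i, Algebra.subset_adjoin ⟨i, h, rfl⟩⟩ : Algebra.adjoin ℚ (x '' A))

theorem adjoin_mem (x : I → L) {A : Set I} {y : L} (h : y ∈ Algebra.adjoin ℚ (x '' A)) :
    y ∈ Lc x A :=
  isAlgebraic_algebraMap (⟨y, h⟩ : Algebra.adjoin ℚ (x '' A))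

/-- roots of polynomials over `Lc` are in `Lc` -/
theorem root_mem (x : I → L) {A : Set I} {y : L} {p : L[X]} (hp : p ≠ 0)
    (hc : ∀ n, p.coeff n ∈ Lc x A) (hy : p.eval y = 0) : y ∈ Lc x A := by
  set S := Subalgebra.algebraicClosure (Algebra.adjoin ℚ (x '' A)) L with hS
  have hl : p ∈ Polynomial.lifts (algebraMap S L) := by
    rw [Polynomial.lifts_iff_coeff_lifts]
    intro n
    exact ⟨⟨p.coeff n, hc n⟩, rfl⟩
  obtain ⟨q, hq⟩ := (Polynomial.mem_lifts _).1 hl
  have hq0 : q ≠ 0 := by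
    rintro rfl
    rw [Polynomial.map_zero] at hq
    exact hp hq.symm
  have h1 : IsAlgebraic S y := ⟨q, hq0, by
    rw [Polynomial.aeval_def, ← Polynomial.eval_map, hq, hy]⟩
  exact h1.restrictScalars (Algebra.adjoin ℚ (x '' A))

theorem find_mem (x : I → L) {A : Set I} {y : L} (h : y ∈ Lc x A) :
    ∃ A0 : Set I, A0 ⊆ A ∧ A0.Finite ∧ y ∈ Lc x A0 := by
  have hy' : y ∈ (Lc x A : Set L) := h
  rw [coe_Lc] at hy'
  obtain ⟨J, hJ, hfin, -, hyJ⟩ := Matroid.exists_mem_finite_closure_of_mem_closure hy'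
  obtain ⟨A0, hA0, hfin0, h0⟩ := (Set.exists_subset_image_finite_and (f := x) (s := A)
    (p := fun J => y ∈ (AlgebraicIndependent.matroid ℚ L).closure J)).1 ⟨J, hJ, hfin, hyJ⟩
  refine ⟨A0, hA0, hfin0, ?_⟩
  show y ∈ (Lc x A0 : Set L)
  rw [coe_Lc]
  exact h0

theorem countable_Lc (x : I → L) {A : Set I} (hA : A.Countable) :
    (Lc x A : Set L).Countable := by
  have h1 : Countable (Algebra.adjoin ℚ (x '' A)) := by
    rw [← Cardinal.mk_le_aleph0_iff]
    refine (Algebra.cardinalMk_adjoin_le ℚ (x '' A)).trans ?_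
    rw [max_le_iff, max_le_iff]
    exact ⟨⟨Cardinal.mk_le_aleph0, (hA.image x).le_aleph0⟩, le_rfl⟩
  exact Algebraic.countable (Algebra.adjoin ℚ (x '' A)) L

/-- elements of the algebra generated by `x '' Iic γ` are polynomials in `x γ` -/
theorem poly_rep [LinearOrder I] (x : I → L) (γ : I) {w : L}
    (hw : w ∈ Algebra.adjoin ℚ (x '' Set.Iic γ)) :
    ∃ c : L[X], (∀ m, c.coeff m ∈ Lc x (Set.Iio γ)) ∧ c.eval (x γ) = w := by
  induction hw using Algebra.adjoin_induction with
  | mem w hw =>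
    obtain ⟨i, hi, rfl⟩ := hw
    rcases (Set.mem_Iic.1 hi).lt_or_eq with h | h
    · refine ⟨C (x i), fun m => ?_, by rw [eval_C]⟩
      rw [coeff_C]
      split_ifs
      · exact self_mem x h
      · exact zero_mem _
    · refine ⟨X, fun m => ?_, by rw [eval_X, h]⟩
      rw [coeff_X]
      split_ifs
      · exact one_mem _
      · exact zero_mem _
  | algebraMap r =>
    refine ⟨C (algebraMap ℚ L r), fun m => ?_, by rw [eval_C]⟩
    rw [coeff_C]
    split_ifs
    · exact adjoin_mem x (Subalgebra.algebraMap_mem _ _)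
    · exact zero_mem _
  | add u v _ _ hu hv =>
    obtain ⟨c, hc, rfl⟩ := hu
    obtain ⟨d, hd, rfl⟩ := hv
    exact ⟨c + d, fun m => by rw [coeff_add]; exact add_mem (hc m) (hd m), by rw [eval_add]⟩
  | mul u v _ _ hu hv =>
    obtain ⟨c, hc, rfl⟩ := hu
    obtain ⟨d, hd, rfl⟩ := hv
    exact ⟨c * d, fun m => by
      rw [coeff_mul]
      exact sum_mem fun p _ => mul_mem (hc _) (hd _), by rw [eval_mul]⟩

/-- the tower of a transcendence basis -/
def tower [LinearOrder I] [Nonempty I] (x : I → L) (hx : IsTranscendenceBasis ℚ x) :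
    Tower I L where
  lt γ := Lc x (Set.Iio γ)
  le γ := Lc x (Set.Iic γ)
  z := x
  lt_le γ := Lc_mono x Set.Iio_subset_Iic_self
  le_lt δ γ h := Lc_mono x (Set.Iic_subset_Iio.2 h)
  z_mem γ := self_mem x (Set.mem_Iic.2 le_rfl)
  transc γ p hp h0 := by
    by_contra hne
    have h1 := root_mem x hne hp h0
    exact hx.1.transcendental_adjoin (s := Set.Iio γ) (i := γ) (fun h => lt_irrefl γ h) h1
  alg γ y hy := by
    obtain ⟨q, hq0, hq⟩ := mem_Lc.1 hy
    choose c hc hce using fun i => poly_rep x γ (q.coeff i).2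
    refine ⟨q.natDegree, c, hc, ?_, ?_⟩
    · intro h0
      have h1 := hce q.natDegree
      rw [h0, eval_zero] at h1
      apply hq0
      rw [← Polynomial.leadingCoeff_eq_zero]
      exact Subtype.ext h1.symm
    · rw [Polynomial.aeval_def, Polynomial.eval₂_eq_sum_range] at hq
      rw [← hq]
      exact Finset.sum_congr rfl fun i _ => by rw [hce i]; rfl
  find j γ hj r hr := by
    obtain ⟨A0, hA0, hfin, hr0⟩ := find_mem x hr
    have hfin' : (insert j A0).Finite := hfin.insert j
    obtain ⟨δ, hδ, hmax⟩ := hfin'.exists_maximal (Set.insert_nonempty j A0)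
    refine ⟨δ, ?_, ?_, ?_⟩
    · exact (le_total j δ).elim id fun h => hmax (Set.mem_insert j A0) h
    · rcases hδ with rfl | hδ
      · exact hj
      · exact hA0 hδ
    · refine Lc_mono x (fun i hi => ?_) hr0
      exact (le_total i δ).elim id fun h => hmax (Set.mem_insert_of_mem j hi) h
  top r := by
    have hr : r ∈ Lc x Set.univ := by
      have := hx.isAlgebraic
      have h1 : IsAlgebraic (Algebra.adjoin ℚ (Set.range x)) r := this.isAlgebraic r
      rw [← Set.image_univ] at h1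
      exact h1
    obtain ⟨A0, -, hfin, hr0⟩ := find_mem x hr
    obtain ⟨j⟩ := ‹Nonempty I›
    have hfin' : (insert j A0).Finite := hfin.insert j
    obtain ⟨δ, hδ, hmax⟩ := hfin'.exists_maximal (Set.insert_nonempty j A0)
    refine ⟨δ, Lc_mono x (fun i hi => ?_) hr0⟩
    exact (le_total i δ).elim id fun h => hmax (Set.mem_insert_of_mem j hi) h

end TowerEx_

open TowerEx_ in
theorem pTower : tTower := by
  intro I _ _
  let K := FractionRing (MvPolynomial I ℚ)
  let L := AlgebraicClosure K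
  have hK : Algebra.IsAlgebraic (MvPolynomial I ℚ) K :=
    IsLocalization.isAlgebraic _ (nonZeroDivisors (MvPolynomial I ℚ))
  have h1 : IsTranscendenceBasis ℚ (algebraMap (MvPolynomial I ℚ) K ∘ MvPolynomial.X) :=
    (IsTranscendenceBasis.mvPolynomial I ℚ).algebraMap_comp
  have h2 : IsTranscendenceBasis ℚ
      (algebraMap K L ∘ (algebraMap (MvPolynomial I ℚ) K ∘ MvPolynomial.X)) :=
    h1.algebraMap_comp
  have hchar : CharZero L := charZero_of_injective_algebraMap (algebraMap ℚ L).injective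
  set x : I → L := algebraMap K L ∘ (algebraMap (MvPolynomial I ℚ) K ∘ MvPolynomial.X) with hx
  refine ⟨L, inferInstance, inferInstance, tower x h2, fun γ hγ => countable_Lc x hγ, ?_⟩
  have h3 := h2.isAlgebraic
  have h4 : #L ≤ max #(Algebra.adjoin ℚ (Set.range x)) ℵ₀ :=
    Algebra.IsAlgebraic.cardinalMk_le_max _ _
  refine h4.trans ?_
  rw [max_le_iff]
  refine ⟨(Algebra.cardinalMk_adjoin_le ℚ (Set.range x)).trans ?_, le_max_right _ _⟩
  rw [max_le_iff, max_le_iff]
  exact ⟨⟨Cardinal.mk_le_aleph0.trans (le_max_right _ _),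
    Cardinal.mk_range_le.trans (le_max_left _ _)⟩, le_max_right _ _⟩

end Pool.Agent.NoExt
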