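import Pool.Agent.NoExt.Targets

/-! Valuations of polynomials in `z γ` (NX3). -/

set_option autoImplicit false

namespace Pool.Agent.NoExt

open Polynomial

namespace Vals_

variable {I L : Type} [LinearOrder I] [Field L] {t : Tower I L} {γ : I} {v : ValuationSubring L}

lemma z_lt (h : Good t γ v) : v.valuation (t.z γ) < 1 := by
  have := h.2 γ le_rfl 1 (t.lt γ).one_mem
  rwa [mul_one] at this

lemma z_ne (t : Tower I L) (γ : I) : t.z γ ≠ 0 := by
  intro h
  have h1 := t.transc γ (X : L[X]) (fun n => by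
    rw [coeff_X]
    split_ifs
    · exact (t.lt γ).one_mem
    · exact (t.lt γ).zero_mem) (by rw [eval_X, h])
  exact X_ne_zero h1

lemma z_pos (t : Tower I L) (γ : I) (v : ValuationSubring L) : 0 < v.valuation (t.z γ) := by
  rw [zero_lt_iff]
  exact (Valuation.ne_zero_iff _).2 (z_ne t γ)

lemma const (h : Good t γ v) {c : L} (hc : c ∈ t.lt γ) (hc0 : c ≠ 0) : v.valuation c = 1 := by
  refine le_antisymm ((v.valuation_le_one_iff c).2 (h.1 c hc)) ?_
  have h1 : v.valuation c⁻¹ ≤ 1 := (v.valuation_le_one_iff _).2 (h.1 _ ((t.lt γ).inv_mem hc))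
  have h2 : v.valuation c * v.valuation c⁻¹ = 1 := by
    rw [← map_mul, mul_inv_cancel₀ hc0, map_one]
  calc (1 : v.ValueGroup) = v.valuation c * v.valuation c⁻¹ := h2.symm
    _ ≤ v.valuation c * 1 := mul_le_mul_right h1 _
    _ = v.valuation c := mul_one _

lemma eval_mem (h : Good t γ v) (p : L[X]) (hp : ∀ m, p.coeff m ∈ t.lt γ) :
    p.eval (t.z γ) ∈ v := by
  have hz : t.z γ ∈ v := (v.valuation_le_one_iff _).1 (z_lt h).le
  rw [eval_eq_sum_range]
  exact sum_mem fun i _ => v.mul_mem _ _ (h.1 _ (hp i)) (pow_mem hz i)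

lemma lead (h : Good t γ v) : ∀ (N : ℕ) (p : L[X]), p.natDegree ≤ N →
    (∀ m, p.coeff m ∈ t.lt γ) → p ≠ 0 →
    ∃ k, p.coeff k ≠ 0 ∧ (∀ j < k, p.coeff j = 0) ∧
      v.valuation (p.eval (t.z γ)) = v.valuation (t.z γ) ^ k := by
  intro N
  induction N with
  | zero =>
    intro p hp hc hp0
    have h1 : p = C (p.coeff 0) := eq_C_of_natDegree_le_zero hp
    have h2 : p.coeff 0 ≠ 0 := by
      intro h3
      rw [h3, C_0] at h1
      exact hp0 h1
    refine ⟨0, h2, fun j hj => absurd hj (Nat.not_lt_zero j), ?_⟩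
    rw [h1, eval_C, pow_zero]
    exact const h (hc 0) h2
  | succ N ih =>
    intro p hp hc hp0
    by_cases h0 : p.coeff 0 = 0
    · have h1 : divX p * X + C (p.coeff 0) = p := divX_mul_X_add p
      rw [h0, C_0, add_zero] at h1
      have h2 : divX p ≠ 0 := by
        intro h3
        rw [h3, zero_mul] at h1
        exact hp0 h1.symm
      obtain ⟨k, hk1, hk2, hk3⟩ := ih (divX p) (by
        rw [natDegree_divX_eq_natDegree_tsub_one]
        omega) (fun m => by rw [coeff_divX]; exact hc _) h2
      refine ⟨k + 1, ?_, ?_, ?_⟩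
      · rw [coeff_divX] at hk1
        exact hk1
      · intro j hj
        rcases Nat.eq_zero_or_pos j with hj0 | hj0
        · rw [hj0]
          exact h0
        · have h4 := hk2 (j - 1) (by omega)
          rw [coeff_divX] at h4
          have h5 : j - 1 + 1 = j := by omega
          rwa [h5] at h4
      · have h4 : p.eval (t.z γ) = (divX p).eval (t.z γ) * t.z γ := by
          conv_lhs => rw [← h1]
          rw [eval_mul, eval_X]
        rw [h4, map_mul, hk3, pow_succ]
    · refine ⟨0, h0, fun j hj => absurd hj (Nat.not_lt_zero j), ?_⟩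
      rw [pow_zero]
      have h1 : divX p * X + C (p.coeff 0) = p := divX_mul_X_add p
      have h2 : p.eval (t.z γ) = (divX p).eval (t.z γ) * t.z γ + p.coeff 0 := by
        conv_lhs => rw [← h1]
        rw [eval_add, eval_mul, eval_X, eval_C]
      have h3 : v.valuation ((divX p).eval (t.z γ)) ≤ 1 :=
        (v.valuation_le_one_iff _).2 (eval_mem h _ (fun m => by rw [coeff_divX]; exact hc _))
      have h4 : v.valuation ((divX p).eval (t.z γ) * t.z γ) < 1 := by
        rw [map_mul]
        calc v.valuation ((divX p).eval (t.z γ)) * v.valuation (t.z γ)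
            ≤ 1 * v.valuation (t.z γ) := mul_le_mul_left h3 _
          _ = v.valuation (t.z γ) := one_mul _
          _ < 1 := z_lt h
      have h5 : v.valuation (p.coeff 0) = 1 := const h (hc 0) h0
      rw [h2, Valuation.map_add_eq_of_lt_right _ (by rw [h5]; exact h4), h5]

end Vals_

open Vals_

theorem pVle : tVle := by
  intro I L _ _ t γ v h p hp
  exact (v.valuation_le_one_iff _).2 (eval_mem h p hp)

theorem pVcoeff : tVcoeff := by
  intro I L _ _ t γ v h p M hp hM k hk
  by_cases hp0 : p = 0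
  · rw [hp0, coeff_zero]
  obtain ⟨k0, _, h2, h3⟩ := lead h p.natDegree p le_rfl hp hp0
  rw [h3] at hM
  have h4 : M ≤ k0 := by
    by_contra hlt
    push Not at hlt
    have h5 : v.valuation (t.z γ) ^ M < v.valuation (t.z γ) ^ k0 :=
      pow_lt_pow_right_of_lt_one₀ (z_pos t γ v) (z_lt h) hlt
    exact absurd hM (not_le.2 h5)
  exact h2 k (lt_of_lt_of_le hk h4)

theorem pVcof : tVcof := by
  intro I L _ _ t γ v h y hy
  obtain ⟨n, c, hc, hcn, hsum⟩ := t.alg γ y hy
  obtain ⟨m, _, _, hm⟩ := lead h (c n).natDegree (c n) le_rfl (hc n) hcn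
  refine ⟨m + 1, ?_⟩
  by_contra hlt
  push Not at hlt
  set z : L := t.z γ with hz
  set w : L := z ^ (m + 1) * y with hw
  have hzlt : v.valuation z < 1 := z_lt h
  have hzpos : 0 < v.valuation z := z_pos t γ v
  have hwpos : 0 < v.valuation w := lt_of_lt_of_le zero_lt_one hlt
  have hsum2 : ∑ i ∈ Finset.range (n + 1), (c i).eval z * z ^ ((m + 1) * (n - i)) * w ^ i = 0 := by
    have h1 : z ^ ((m + 1) * n) * ∑ i ∈ Finset.range (n + 1), (c i).eval z * y ^ i = 0 := by
      rw [hsum, mul_zero]
    rw [Finset.mul_sum] at h1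
    rw [← h1]
    refine Finset.sum_congr rfl fun i hi => ?_
    rw [Finset.mem_range] at hi
    have h2 : (m + 1) * n = (m + 1) * (n - i) + (m + 1) * i := by
      rw [← Nat.mul_add]
      congr 1
      omega
    have h3 : z ^ ((m + 1) * n) = z ^ ((m + 1) * (n - i)) * (z ^ (m + 1)) ^ i := by
      rw [h2, pow_add, ← pow_mul z (m + 1) i]
    rw [h3, hw, mul_pow]
    ring
  rw [Finset.sum_range_succ, Nat.sub_self, Nat.mul_zero, pow_zero, mul_one] at hsum2
  have hterm : v.valuation ((c n).eval z * w ^ n) = v.valuation z ^ m * v.valuation w ^ n := by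
    rw [map_mul, map_pow, hm]
  have hpos : 0 < v.valuation z ^ m * v.valuation w ^ n :=
    mul_pos (pow_pos hzpos m) (pow_pos hwpos n)
  have hlt2 : v.valuation (∑ i ∈ Finset.range n, (c i).eval z * z ^ ((m + 1) * (n - i)) * w ^ i) <
      v.valuation z ^ m * v.valuation w ^ n := by
    refine Valuation.map_sum_lt _ hpos.ne' fun i hi => ?_
    rw [Finset.mem_range] at hi
    rw [map_mul, map_mul, map_pow, map_pow]
    have h1 : v.valuation ((c i).eval z) ≤ 1 := (v.valuation_le_one_iff _).2 (eval_mem h _ (hc i))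
    have h2 : v.valuation z ^ ((m + 1) * (n - i)) ≤ v.valuation z ^ (m + 1) := by
      refine pow_le_pow_right_of_le_one' hzlt.le ?_
      exact Nat.le_mul_of_pos_right _ (by omega)
    have h3 : v.valuation w ^ i ≤ v.valuation w ^ n := pow_le_pow_right' hlt hi.le
    have h4 : v.valuation z ^ (m + 1) < v.valuation z ^ m :=
      pow_lt_pow_right_of_lt_one₀ hzpos hzlt (Nat.lt_succ_self m)
    calc v.valuation ((c i).eval z) * v.valuation z ^ ((m + 1) * (n - i)) * v.valuation w ^ i
        ≤ 1 * v.valuation z ^ (m + 1) * v.valuation w ^ n := mul_le_mul' (mul_le_mul' h1 h2) h3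
      _ = v.valuation z ^ (m + 1) * v.valuation w ^ n := by rw [one_mul]
      _ < v.valuation z ^ m * v.valuation w ^ n := mul_lt_mul_of_pos_right h4 (pow_pos hwpos n)
  have h5 : (c n).eval z * w ^ n =
      -(∑ i ∈ Finset.range n, (c i).eval z * z ^ ((m + 1) * (n - i)) * w ^ i) := by
    rw [eq_neg_iff_add_eq_zero, add_comm]
    exact hsum2
  have h6 := congrArg v.valuation h5
  rw [hterm, Valuation.map_neg] at h6
  rw [← h6] at hlt2
  exact lt_irrefl _ hlt2

end Pool.Agent.NoExt
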